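import Pool.Agent.SVT.Sg
import Pool.Agent.H68.VD.WPos

/-! # Project SVT (MP_b0bf68_gt), row SVT-3: the interpolation quantity -/

set_option autoImplicit false

open MeasureTheory Set Pool.Agent.H68.VD TN
open scoped ENNReal ContDiff

namespace SVT

noncomputable section

variable {n : ℕ}

/-- pointwise comparison with a constant factor -/
theorem EE_aux_le {p : ℝ} (hp : 1 < p) {f g : Eu (n + n) → ℝ≥0∞} {c : ℝ≥0∞}
    (h : ∀ x, f x ≤ c * g x) (hg : Measurable g) :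
    (∫⁻ x in cube (n + n), f x ^ p) ^ (1 / p) ≤
      c * (∫⁻ x in cube (n + n), g x ^ p) ^ (1 / p) := by
  have hp0 : 0 < p := by linarith
  have h1 : (∫⁻ x in cube (n + n), f x ^ p) ≤ c ^ p * ∫⁻ x in cube (n + n), g x ^ p := by
    rw [← lintegral_const_mul _ (hg.pow_const p)]
    refine lintegral_mono fun x => ?_
    rw [← ENNReal.mul_rpow_of_nonneg _ _ hp0.le]
    exact ENNReal.rpow_le_rpow (h x) hp0.le
  calc (∫⁻ x in cube (n + n), f x ^ p) ^ (1 / p)
      ≤ (c ^ p * ∫⁻ x in cube (n + n), g x ^ p) ^ (1 / p) :=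
        ENNReal.rpow_le_rpow h1 (by positivity)
    _ = c * (∫⁻ x in cube (n + n), g x ^ p) ^ (1 / p) := by
        rw [ENNReal.mul_rpow_of_nonneg _ _ (by positivity), ← ENNReal.rpow_mul,
          mul_one_div_cancel hp0.ne', ENNReal.rpow_one]

/-- a bounded function which vanishes off a set of small measure -/
theorem EE_aux_supp {p a μ : ℝ} (hp : 1 < p) (hμ : 0 ≤ μ)
    {F : Type*} [NormedAddCommGroup F] {f : Eu (n + n) → F} {S : Set (Eu (n + n))}
    (hS : MeasurableSet S) (h1 : ∀ x, ‖f x‖ ≤ a) (h3 : ∀ x ∉ S, f x = 0)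
    (h4 : volume (S ∩ cube (n + n)) ≤ ENNReal.ofReal μ) :
    (∫⁻ x in cube (n + n), ‖f x‖ₑ ^ p) ^ (1 / p) ≤
      ENNReal.ofReal a * ENNReal.ofReal (μ ^ (1 / p)) := by
  have hp0 : 0 < p := by linarith
  have h2 : (∫⁻ x in cube (n + n), ‖f x‖ₑ ^ p) ≤ ENNReal.ofReal a ^ p * ENNReal.ofReal μ := by
    calc (∫⁻ x in cube (n + n), ‖f x‖ₑ ^ p)
        ≤ ∫⁻ x in cube (n + n), S.indicator (fun _ => ENNReal.ofReal a ^ p) x := by
          refine lintegral_mono fun x => ?_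
          by_cases hx : x ∈ S
          · rw [indicator_of_mem hx]
            refine ENNReal.rpow_le_rpow ?_ hp0.le
            rw [← ofReal_norm]
            exact ENNReal.ofReal_le_ofReal (h1 x)
          · rw [indicator_of_notMem hx, h3 x hx, enorm_zero, ENNReal.zero_rpow_of_pos hp0]
      _ = ENNReal.ofReal a ^ p * volume (S ∩ cube (n + n)) := by
          rw [lintegral_indicator hS, lintegral_const, Measure.restrict_apply_univ,
            Measure.restrict_apply hS]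
      _ ≤ _ := by gcongr
  calc (∫⁻ x in cube (n + n), ‖f x‖ₑ ^ p) ^ (1 / p)
      ≤ (ENNReal.ofReal a ^ p * ENNReal.ofReal μ) ^ (1 / p) :=
        ENNReal.rpow_le_rpow h2 (by positivity)
    _ = ENNReal.ofReal a * ENNReal.ofReal (μ ^ (1 / p)) := by
        rw [ENNReal.mul_rpow_of_nonneg _ _ (by positivity), ← ENNReal.rpow_mul,
          mul_one_div_cancel hp0.ne', ENNReal.rpow_one,
          ENNReal.ofReal_rpow_of_nonneg hμ (by positivity)]

theorem EE_aux_pow {σ : ℝ} (hσ : 0 ≤ σ) (hσ1 : σ < 1) (c a b : ℝ≥0∞) :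
    (c * a) ^ (1 - σ) * (c * b) ^ σ = c * (a ^ (1 - σ) * b ^ σ) := by
  have h : c ^ (1 - σ) * c ^ σ = c := by
    rw [← ENNReal.rpow_add_of_nonneg _ _ (by linarith) hσ, sub_add_cancel, ENNReal.rpow_one]
  rw [ENNReal.mul_rpow_of_nonneg _ _ (by linarith), ENNReal.mul_rpow_of_nonneg _ _ hσ]
  calc c ^ (1 - σ) * a ^ (1 - σ) * (c ^ σ * b ^ σ)
      = c ^ (1 - σ) * c ^ σ * (a ^ (1 - σ) * b ^ σ) := by ring
    _ = _ := by rw [h]

theorem EE_smul {p σ : ℝ} (hp : 1 < p) (hσ : 0 ≤ σ) (hσ1 : σ < 1) {G : Eu (n + n) → ℝ}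
    (hG : ContDiff ℝ ∞ G) (c : ℝ) :
    EE p σ (fun x => c * G x) = ENNReal.ofReal |c| * EE p σ G := by
  have hp0 : 0 < p := by linarith
  have hc : ENNReal.ofReal |c| = ‖c‖ₑ := by rw [← Real.norm_eq_abs, ofReal_norm]
  have key : ∀ f : Eu (n + n) → ℝ≥0∞, Measurable f →
      (∫⁻ x in cube (n + n), (‖c‖ₑ * f x) ^ p) ^ (1 / p) =
        ‖c‖ₑ * (∫⁻ x in cube (n + n), f x ^ p) ^ (1 / p) := by
    intro f hf
    simp only [ENNReal.mul_rpow_of_nonneg _ _ hp0.le]
    rw [lintegral_const_mul _ (hf.pow_const p), ENNReal.mul_rpow_of_nonneg _ _ (by positivity),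
      ← ENNReal.rpow_mul, mul_one_div_cancel hp0.ne', ENNReal.rpow_one]
  have h1 : nH p (fun x => c * G x) = ‖c‖ₑ * nH p G := by
    unfold nH
    simp only [enorm_mul]
    exact key _ hG.continuous.enorm.measurable
  have h2 : nD p (fun x => c * G x) = ‖c‖ₑ * nD p G := by
    unfold nD
    have e : ∀ x, fderiv ℝ (fun x => c * G x) x = c • fderiv ℝ G x := fun x =>
      fderiv_const_mul (hG.differentiable (by simp) x) c
    simp only [e, enorm_smul]
    exact key _ (hG.continuous_fderiv (by simp)).enorm.measurable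
  unfold EE
  rw [h1, h2, EE_aux_pow hσ hσ1, hc]

theorem EE_comp {p σ : ℝ} (hp : 1 < p) (hσ : 0 ≤ σ) (hσ1 : σ < 1) {g : Eu (n + n) → Eu (n + n)}
    (hg : SG g) : ∃ C : ℝ, 1 ≤ C ∧ ∀ G : Eu (n + n) → ℝ, ContDiff ℝ ∞ G → Per G →
      EE p σ (fun x => G (g x)) ≤ ENNReal.ofReal C * EE p σ G := by
  obtain ⟨C, hC1, hC⟩ := sg_bd hg
  refine ⟨C, hC1, fun G hG hGp => ?_⟩
  have hfp : Per (fderiv ℝ G) := by
    intro x k
    have e : (fun y => G (y + iv k)) = G := funext fun y => hGp y k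
    have h := fderiv_comp_add_right (𝕜 := ℝ) (f := G) (x := x) (iv k)
    rw [e] at h
    exact h.symm
  have h1 : nH p (fun x => G (g x)) = nH p G := by
    unfold nH
    congr 1
    exact sg_cov hg (F := fun y => ‖G y‖ₑ ^ p) (hG.continuous.enorm.measurable.pow_const p)
      fun x k => by
        change ‖G (x + iv k)‖ₑ ^ p = ‖G x‖ₑ ^ p
        rw [hGp]
  have h2 : nD p (fun x => G (g x)) ≤ ENNReal.ofReal C * nD p G := by
    have e : nD p G = (∫⁻ x in cube (n + n), ‖fderiv ℝ G (g x)‖ₑ ^ p) ^ (1 / p) := by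
      unfold nD
      congr 1
      exact (sg_cov hg (F := fun y => ‖fderiv ℝ G y‖ₑ ^ p)
        ((hG.continuous_fderiv (by simp)).enorm.measurable.pow_const p) fun x k => by
          change ‖fderiv ℝ G (x + iv k)‖ₑ ^ p = ‖fderiv ℝ G x‖ₑ ^ p
          rw [hfp]).symm
    rw [e]
    refine EE_aux_le hp (fun x => ?_) ?_
    · have e2 : fderiv ℝ (fun x => G (g x)) x = (fderiv ℝ G (g x)).comp (fderiv ℝ g x) :=
        fderiv_comp x (hG.differentiable (by simp) _) ((sg_smooth hg).differentiable (by simp) x)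
      rw [e2, ← ofReal_norm, ← ofReal_norm, ← ENNReal.ofReal_mul (by linarith)]
      refine ENNReal.ofReal_le_ofReal ?_
      calc ‖(fderiv ℝ G (g x)).comp (fderiv ℝ g x)‖
          ≤ ‖fderiv ℝ G (g x)‖ * ‖fderiv ℝ g x‖ := ContinuousLinearMap.opNorm_comp_le _ _
        _ ≤ ‖fderiv ℝ G (g x)‖ * C := by gcongr; exact hC x
        _ = _ := mul_comm _ _
    · exact ((hG.continuous_fderiv (by simp)).comp (sg_smooth hg).continuous).enorm.measurable
  unfold EE
  rw [h1]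
  have hC' : ENNReal.ofReal C ^ σ ≤ ENNReal.ofReal C := by
    calc ENNReal.ofReal C ^ σ ≤ ENNReal.ofReal C ^ (1 : ℝ) :=
          ENNReal.rpow_le_rpow_of_exponent_le (by
            rw [← ENNReal.ofReal_one]
            exact ENNReal.ofReal_le_ofReal hC1) hσ1.le
      _ = _ := ENNReal.rpow_one _
  calc nH p G ^ (1 - σ) * nD p (fun x => G (g x)) ^ σ
      ≤ nH p G ^ (1 - σ) * (ENNReal.ofReal C * nD p G) ^ σ := by gcongr
    _ = ENNReal.ofReal C ^ σ * (nH p G ^ (1 - σ) * nD p G ^ σ) := by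
        rw [ENNReal.mul_rpow_of_nonneg _ _ hσ]
        ring
    _ ≤ ENNReal.ofReal C * (nH p G ^ (1 - σ) * nD p G ^ σ) := by gcongr

/-- bounds on a set of small measure -/
theorem EE_supp {p σ a b μ : ℝ} (hp : 1 < p) (hσ : 0 ≤ σ) (hσ1 : σ < 1) (ha : 0 ≤ a) (hb : 0 ≤ b)
    (hμ : 0 ≤ μ) {G : Eu (n + n) → ℝ} {S : Set (Eu (n + n))} (hS : MeasurableSet S)
    (h1 : ∀ x, |G x| ≤ a) (h2 : ∀ x, ‖fderiv ℝ G x‖ ≤ b)
    (h3 : ∀ x ∉ S, G x = 0 ∧ fderiv ℝ G x = 0) (h4 : volume (S ∩ cube (n + n)) ≤ ENNReal.ofReal μ) :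
    EE p σ G ≤ ENNReal.ofReal (a ^ (1 - σ) * b ^ σ * μ ^ (1 / p)) := by
  have hH : nH p G ≤ ENNReal.ofReal (μ ^ (1 / p)) * ENNReal.ofReal a := by
    rw [mul_comm]
    exact EE_aux_supp hp hμ hS h1 (fun x hx => (h3 x hx).1) h4
  have hD : nD p G ≤ ENNReal.ofReal (μ ^ (1 / p)) * ENNReal.ofReal b := by
    rw [mul_comm]
    exact EE_aux_supp hp hμ hS h2 (fun x hx => (h3 x hx).2) h4
  unfold EE
  have hs : 0 ≤ 1 - σ := by linarith
  calc nH p G ^ (1 - σ) * nD p G ^ σ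
      ≤ (ENNReal.ofReal (μ ^ (1 / p)) * ENNReal.ofReal a) ^ (1 - σ) *
          (ENNReal.ofReal (μ ^ (1 / p)) * ENNReal.ofReal b) ^ σ := by gcongr
    _ = ENNReal.ofReal (μ ^ (1 / p)) * (ENNReal.ofReal a ^ (1 - σ) * ENNReal.ofReal b ^ σ) :=
        EE_aux_pow hσ hσ1 _ _ _
    _ = ENNReal.ofReal (a ^ (1 - σ) * b ^ σ * μ ^ (1 / p)) := by
        rw [ENNReal.ofReal_rpow_of_nonneg ha hs, ENNReal.ofReal_rpow_of_nonneg hb hσ,
          ← ENNReal.ofReal_mul (by positivity), ← ENNReal.ofReal_mul (by positivity), mul_comm]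

theorem EE_small {p σ a : ℝ} (hp : 1 < p) (hσ : 0 ≤ σ) (hσ1 : σ < 1) (ha : 0 ≤ a)
    {G : Eu (n + n) → ℝ} (h1 : ∀ x, |G x| ≤ a) (h2 : ∀ x, ‖fderiv ℝ G x‖ ≤ a) :
    EE p σ G ≤ ENNReal.ofReal a := by
  have h := EE_supp hp hσ hσ1 ha ha zero_le_one MeasurableSet.univ h1 h2
    (fun x hx => absurd (mem_univ x) hx) (by rw [univ_inter, WPosA.cube_vol, ENNReal.ofReal_one])
  rwa [Real.one_rpow, mul_one, ← Real.rpow_add_of_nonneg ha (by linarith) hσ, sub_add_cancel,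
    Real.rpow_one] at h

theorem EE_meas {p σ : ℝ} {H : ℝ → Eu (n + n) → ℝ}
    (hH : ContDiff ℝ ∞ (fun z : ℝ × Eu (n + n) => H z.1 z.2)) :
    Measurable (fun t => EE p σ (H t)) := by
  have hf : Continuous (fun z : ℝ × Eu (n + n) => fderiv ℝ (H z.1) z.2) := by
    have e : (fun z : ℝ × Eu (n + n) => fderiv ℝ (H z.1) z.2) = fun z =>
        (fderiv ℝ (fun z : ℝ × Eu (n + n) => H z.1 z.2) z).comp
          (ContinuousLinearMap.inr ℝ ℝ (Eu (n + n))) := by
      funext z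
      have h1 : HasFDerivAt (fun z : ℝ × Eu (n + n) => H z.1 z.2)
          (fderiv ℝ (fun z : ℝ × Eu (n + n) => H z.1 z.2) (z.1, z.2)) (z.1, z.2) :=
        (hH.differentiable (by simp) _).hasFDerivAt
      have h2 : HasFDerivAt (fun x : Eu (n + n) => (z.1, x))
          (ContinuousLinearMap.inr ℝ ℝ (Eu (n + n))) z.2 := hasFDerivAt_prodMk_right z.1 z.2
      exact (h1.comp z.2 h2).fderiv
    rw [e]
    exact (hH.continuous_fderiv (by simp)).clm_comp continuous_const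
  have h1 : Measurable fun t => nH p (H t) := by
    unfold nH
    exact (Measurable.lintegral_prod_right' (f := fun z : ℝ × Eu (n + n) => ‖H z.1 z.2‖ₑ ^ p)
      (hH.continuous.enorm.measurable.pow_const p)).pow_const _
  have h2 : Measurable fun t => nD p (H t) := by
    unfold nD
    exact (Measurable.lintegral_prod_right'
      (f := fun z : ℝ × Eu (n + n) => ‖fderiv ℝ (H z.1) z.2‖ₑ ^ p)
      (hf.enorm.measurable.pow_const p)).pow_const _
  exact (h1.pow_const _).mul (h2.pow_const _)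

end

end SVT
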