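import Pool.Agent.SVT.Defs

/-!
# Project SVT: the cut-off function of the grid (MP_b0bf68_gt)
-/

set_option autoImplicit false

open MeasureTheory Set Pool.Agent.H68.VD TN
open scoped ENNReal ContDiff

namespace SVT

noncomputable section

variable {n : ℕ}

/-- the profile of the cut-off function -/
def grd_g (s : ℝ) : ℝ := Real.smoothTransition ((256 - s ^ 2) / (256 - 16 * Real.pi ^ 2))

private theorem grd_c : 0 < 256 - 16 * Real.pi ^ 2 := by
  have h1 : Real.pi < 3.15 := Real.pi_lt_d2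
  have h2 : 0 < Real.pi := Real.pi_pos
  nlinarith

private theorem grd_g_smooth : ContDiff ℝ ∞ grd_g := by
  unfold grd_g
  apply Real.smoothTransition.contDiff.comp
  exact (contDiff_const.sub (contDiff_id.pow 2)).div_const _

private theorem grd_g_mem (s : ℝ) : 0 ≤ grd_g s ∧ grd_g s ≤ 1 :=
  ⟨Real.smoothTransition.nonneg _, Real.smoothTransition.le_one _⟩

private theorem grd_g_one {s : ℝ} (h : |s| ≤ 4 * Real.pi) : grd_g s = 1 := by
  unfold grd_g
  apply Real.smoothTransition.one_of_one_le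
  rw [le_div_iff₀ grd_c]
  have h1 : s ^ 2 ≤ (4 * Real.pi) ^ 2 := by
    rw [← sq_abs s]
    exact pow_le_pow_left₀ (abs_nonneg s) h 2
  nlinarith

private theorem grd_g_zero {s : ℝ} (h : 16 ≤ |s|) : grd_g s = 0 := by
  unfold grd_g
  apply Real.smoothTransition.zero_of_nonpos
  apply div_nonpos_of_nonpos_of_nonneg _ grd_c.le
  have h1 : (16 : ℝ) ^ 2 ≤ s ^ 2 := by
    rw [← sq_abs s]
    exact pow_le_pow_left₀ (by norm_num) h 2
  linarith

private theorem grd_g_cpt : HasCompactSupport grd_g := by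
  apply HasCompactSupport.intro (isCompact_Icc (a := (-16 : ℝ)) (b := 16))
  intro x hx
  apply grd_g_zero
  by_contra hc
  push Not at hc
  exact hx ⟨by linarith [neg_abs_le x], by linarith [le_abs_self x]⟩

private theorem grd_g_deriv : ∃ B : ℝ, 0 ≤ B ∧ ∀ s, |deriv grd_g s| ≤ B := by
  have hc : Continuous (deriv grd_g) := grd_g_smooth.continuous_deriv (by norm_cast)
  obtain ⟨B, hB⟩ := hc.bounded_above_of_compact_support grd_g_cpt.deriv
  refine ⟨B, ?_, fun s => ?_⟩
  · exact le_trans (norm_nonneg _) (hB 0)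
  · exact hB s

/-- the cut-off function of one variable -/
def grd_z (η y : ℝ) : ℝ := grd_g (Real.sin (2 * Real.pi * y) / η)

private theorem grd_z_smooth (η : ℝ) : ContDiff ℝ ∞ (grd_z η) := by
  unfold grd_z
  apply grd_g_smooth.comp
  exact (Real.contDiff_sin.comp (contDiff_const.mul contDiff_id)).div_const _

private theorem grd_z_per (η y : ℝ) (k : ℤ) : grd_z η (y + k) = grd_z η y := by
  unfold grd_z
  have : 2 * Real.pi * (y + k) = 2 * Real.pi * y + k * (2 * Real.pi) := by ring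
  rw [this, Real.sin_add_int_mul_two_pi]

private theorem grd_z_deriv {B : ℝ} (hB : ∀ s, |deriv grd_g s| ≤ B) {η : ℝ} (hη : 0 < η) (y : ℝ) :
    ∃ d : ℝ, HasDerivAt (grd_z η) d y ∧ |d| ≤ B * (2 * Real.pi) / η := by
  have h1 : HasDerivAt (fun y : ℝ => Real.sin (2 * Real.pi * y) / η)
      (Real.cos (2 * Real.pi * y) * (2 * Real.pi * 1) / η) y :=
    (((hasDerivAt_id y).const_mul (2 * Real.pi)).sin).div_const η
  have h2 : HasDerivAt grd_g (deriv grd_g (Real.sin (2 * Real.pi * y) / η))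
      (Real.sin (2 * Real.pi * y) / η) :=
    ((grd_g_smooth.differentiable (by norm_cast)) _).hasDerivAt
  refine ⟨_, h2.comp y h1, ?_⟩
  rw [abs_mul, abs_div, abs_mul, abs_of_pos hη, mul_one, abs_of_pos Real.two_pi_pos, mul_div_assoc]
  have hB0 : 0 ≤ B := le_trans (abs_nonneg _) (hB 0)
  have hp := Real.two_pi_pos
  calc _ ≤ B * (|Real.cos (2 * Real.pi * y)| * ((2 * Real.pi) / η)) := by
        rw [mul_div_assoc]
        exact mul_le_mul_of_nonneg_right (hB _) (by positivity)
    _ ≤ B * (1 * ((2 * Real.pi) / η)) := by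
        apply mul_le_mul_of_nonneg_left _ hB0
        apply mul_le_mul_of_nonneg_right (Real.abs_cos_le_one _) (by positivity)
    _ = _ := by rw [one_mul]; ring

private theorem grd_z_mem (η y : ℝ) : 0 ≤ grd_z η y ∧ grd_z η y ≤ 1 := grd_g_mem _

private theorem grd_sin (y : ℝ) (m : ℤ) : |Real.sin (2 * Real.pi * y)| =
    |Real.sin (2 * Real.pi * (y - m / 2))| := by
  have : 2 * Real.pi * (y - m / 2) = 2 * Real.pi * y - m * Real.pi := by ring
  rw [this, Real.sin_sub_int_mul_pi, abs_mul]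
  rcases Int.even_or_odd m with h | h
  · rw [h.neg_one_zpow]; simp
  · rw [h.neg_one_zpow]; simp

private theorem grd_sin_le {y η : ℝ} (m : ℤ) (h : |y - m / 2| < η) :
    |Real.sin (2 * Real.pi * y)| < 4 * Real.pi * η := by
  rw [grd_sin y m]
  have hp := Real.pi_pos
  have hη : 0 < η := lt_of_le_of_lt (abs_nonneg _) h
  calc _ ≤ |2 * Real.pi * (y - m / 2)| := Real.abs_sin_le_abs
    _ = 2 * Real.pi * |y - m / 2| := by rw [abs_mul, abs_of_pos Real.two_pi_pos]
    _ ≤ 2 * Real.pi * η := mul_le_mul_of_nonneg_left h.le Real.two_pi_pos.le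
    _ < 4 * Real.pi * η := by nlinarith [mul_pos hp hη]

private theorem grd_sin_ge {y δ : ℝ} (h : ∀ m : ℤ, δ ≤ |y - m / 2|) :
    4 * δ ≤ |Real.sin (2 * Real.pi * y)| := by
  set m : ℤ := round (2 * y)
  have h1 : |2 * y - m| ≤ 1 / 2 := abs_sub_round (2 * y)
  have h2 : |y - m / 2| ≤ 1 / 4 := by
    have : 2 * y - m = 2 * (y - m / 2) := by ring
    rw [this, abs_mul, abs_two] at h1
    linarith
  rw [grd_sin y m]
  have hp := Real.pi_pos
  have h3 : |Real.sin (2 * Real.pi * (y - m / 2))| = Real.sin (2 * Real.pi * |y - m / 2|) := by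
    have h5 : 0 ≤ Real.sin (2 * Real.pi * |y - m / 2|) := by
      apply Real.sin_nonneg_of_nonneg_of_le_pi
      · positivity
      · nlinarith [abs_nonneg (y - m / 2)]
    rcases abs_cases (y - m / 2) with ⟨h4, -⟩ | ⟨h4, -⟩
    · rw [h4] at h5 ⊢
      exact abs_of_nonneg h5
    · rw [h4] at h5 ⊢
      rw [mul_neg, Real.sin_neg] at h5 ⊢
      exact abs_of_nonpos (by linarith)
  rw [h3]
  have h6 := Real.mul_le_sin (x := 2 * Real.pi * |y - m / 2|) (by positivity)
    (by nlinarith [abs_nonneg (y - m / 2)])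
  have h7 : 2 / Real.pi * (2 * Real.pi * |y - m / 2|) = 4 * |y - m / 2| := by
    field_simp
    ring
  rw [h7] at h6
  linarith [h m]

/-- the momentum number `i`, as a continuous linear form -/
def grd_p (i : Fin n) : Eu (n + n) →L[ℝ] ℝ := (EuclideanSpace.proj i).comp (pL n)

private theorem grd_p_apply (i : Fin n) (x : Eu (n + n)) : grd_p i x = pp x i := rfl

private theorem grd_p_norm (i : Fin n) : ‖(grd_p i : Eu (n + n) →L[ℝ] ℝ)‖ ≤ 1 := by
  apply ContinuousLinearMap.opNorm_le_bound _ zero_le_one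
  intro x
  rw [grd_p_apply, one_mul]
  have h : pp x i = x (Fin.natAdd n i) := rfl
  rw [h]
  exact PiLp.norm_apply_le x _

/-- the cut-off function -/
def grd_X (M : ℕ) (η : ℝ) (x : Eu (n + n)) : ℝ := ∏ i : Fin n, grd_z η (M * pp x i)

private theorem grd_X_smooth (M : ℕ) (η : ℝ) : ContDiff ℝ ∞ (grd_X M η : Eu (n + n) → ℝ) := by
  unfold grd_X
  apply contDiff_prod
  intro i _
  apply (grd_z_smooth η).comp
  exact contDiff_const.mul (grd_p i).contDiff

private theorem grd_X_per (M : ℕ) (η : ℝ) : Per (grd_X M η : Eu (n + n) → ℝ) := by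
  intro x k
  unfold grd_X
  apply Finset.prod_congr rfl
  intro i _
  have h : (M : ℝ) * pp (x + iv k) i = M * pp x i + ((M * k (Fin.natAdd n i) : ℤ) : ℝ) := by
    have h2 : pp (x + iv k) i = pp x i + k (Fin.natAdd n i) := rfl
    rw [h2]; push_cast; ring
  rw [h, grd_z_per]

private theorem grd_X_mem (M : ℕ) (η : ℝ) (x : Eu (n + n)) : 0 ≤ grd_X M η x ∧ grd_X M η x ≤ 1 := by
  unfold grd_X
  exact ⟨Finset.prod_nonneg fun i _ => (grd_g_mem _).1,
    Finset.prod_le_one (fun i _ => (grd_g_mem _).1) fun i _ => (grd_g_mem _).2⟩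

private theorem grd_X_deriv {B : ℝ} (hB : ∀ s, |deriv grd_g s| ≤ B) (M : ℕ) {η : ℝ} (hη : 0 < η)
    (x : Eu (n + n)) : ‖fderiv ℝ (grd_X M η) x‖ ≤ n * (B * (2 * Real.pi)) * M / η := by
  have hB0 : 0 ≤ B := le_trans (abs_nonneg _) (hB 0)
  have hp := Real.two_pi_pos
  choose d hd hd2 using fun i : Fin n => grd_z_deriv hB hη (M * pp x i)
  have h1 : ∀ i : Fin n, HasFDerivAt (fun x : Eu (n + n) => grd_z η (M * pp x i))
      (d i • ((M : ℝ) • (grd_p i : Eu (n + n) →L[ℝ] ℝ))) x := by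
    intro i
    have h2 : HasFDerivAt (fun x : Eu (n + n) => (M : ℝ) * pp x i)
        ((M : ℝ) • (grd_p i : Eu (n + n) →L[ℝ] ℝ)) x :=
      ((grd_p i).hasFDerivAt).const_mul (M : ℝ)
    exact HasDerivAt.comp_hasFDerivAt (h₂ := grd_z η) (f := fun x : Eu (n + n) => (M : ℝ) * pp x i) x
      (hd i) h2
  have h3 := HasFDerivAt.finsetProd (u := Finset.univ) (fun i _ => h1 i)
  have h4 : fderiv ℝ (grd_X M η) x = _ := h3.fderiv
  rw [h4]
  calc _ ≤ ∑ i : Fin n, (B * (2 * Real.pi) / η) * M := by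
        apply norm_sum_le_of_le
        intro i _
        rw [norm_smul, norm_smul, norm_smul]
        have e1 : ‖∏ j ∈ Finset.univ.erase i, grd_z η (M * pp x j)‖ ≤ 1 := by
          rw [Real.norm_eq_abs, abs_of_nonneg (Finset.prod_nonneg fun i _ => (grd_z_mem _ _).1)]
          exact Finset.prod_le_one (fun i _ => (grd_z_mem _ _).1) fun i _ => (grd_z_mem _ _).2
        have e2 : ‖(M : ℝ)‖ = M := by simp
        rw [e2, Real.norm_eq_abs (d i)]
        calc _ ≤ 1 * ((B * (2 * Real.pi) / η) * (M * 1)) := by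
              apply mul_le_mul e1 _ (by positivity) zero_le_one
              apply mul_le_mul (hd2 i) _ (by positivity) (by positivity)
              exact mul_le_mul_of_nonneg_left (grd_p_norm i) (by positivity)
          _ = _ := by ring
    _ = _ := by
        rw [Finset.sum_const, Finset.card_univ, Fintype.card_fin, nsmul_eq_mul]
        ring

/-- the support of the cut-off function -/
def grd_S (M : ℕ) (η : ℝ) : Set (Eu (n + n)) :=
  {x | ∀ i : Fin n, ∃ m : ℤ, |M * pp x i - m / 2| < 5 * η}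

private theorem grd_S_meas (M : ℕ) (η : ℝ) : MeasurableSet (grd_S M η : Set (Eu (n + n))) := by
  have h : (grd_S M η : Set (Eu (n + n))) =
      ⋂ i : Fin n, ⋃ m : ℤ, {x | |M * pp x i - m / 2| < 5 * η} := by
    ext x; simp [grd_S]
  rw [h]
  refine MeasurableSet.iInter fun i => MeasurableSet.iUnion fun m => ?_
  apply IsOpen.measurableSet
  apply isOpen_lt _ continuous_const
  have h2 : Continuous fun x : Eu (n + n) => pp x i := (grd_p i).continuous
  exact ((continuous_const.mul h2).sub continuous_const).abs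

private theorem grd_S_per (M : ℕ) (η : ℝ) (x : Eu (n + n)) (k : Fin (n + n) → ℤ) :
    x ∈ grd_S M η → x + iv k ∈ grd_S M η := by
  intro h i
  obtain ⟨m, hm⟩ := h i
  refine ⟨m + 2 * M * k (Fin.natAdd n i), ?_⟩
  have h2 : pp (x + iv k) i = pp x i + k (Fin.natAdd n i) := rfl
  have h3 : (M : ℝ) * pp (x + iv k) i - ((m + 2 * M * k (Fin.natAdd n i) : ℤ) : ℝ) / 2 =
      M * pp x i - m / 2 := by
    rw [h2]; push_cast; ring
  rw [h3]
  exact hm

private theorem grd_iv_neg (x : Eu (n + n)) (k : Fin (n + n) → ℤ) : x + iv k + iv (-k) = x := by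
  ext i
  simp [iv]

/-- the measure of the set of one variable -/
private theorem grd_A {M : ℕ} (hM : 0 < M) {η : ℝ} (hη : 0 < η) (hη2 : η < 1 / 16) :
    volume {t : ℝ | t ∈ Ico (0 : ℝ) 1 ∧ ∃ m : ℤ, |M * t - m / 2| < 5 * η} ≤
      ENNReal.ofReal (30 * η) := by
  have hM' : (1 : ℝ) ≤ M := by exact_mod_cast hM
  have hM0 : (0 : ℝ) < M := by linarith
  have h1 : {t : ℝ | t ∈ Ico (0 : ℝ) 1 ∧ ∃ m : ℤ, |M * t - m / 2| < 5 * η} ⊆
      ⋃ m ∈ Finset.range (2 * M + 1), Ioo (((m : ℝ) / 2 - 5 * η) / M) (((m : ℝ) / 2 + 5 * η) / M) := by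
    rintro t ⟨⟨ht0, ht1⟩, m, hm⟩
    rw [abs_lt] at hm
    have a1 : (M : ℝ) * t < M := by nlinarith
    have a2 : 0 ≤ (M : ℝ) * t := by positivity
    have a3 : (-1 : ℝ) < m := by linarith
    have a4 : (m : ℝ) < 2 * M + 1 := by linarith
    have a5 : -1 < m := by exact_mod_cast a3
    have a6 : m < 2 * M + 1 := by exact_mod_cast a4
    obtain ⟨l, rfl⟩ : ∃ l : ℕ, m = l := ⟨m.toNat, by omega⟩
    simp only [mem_iUnion, Finset.mem_range, mem_Ioo, exists_prop]
    refine ⟨l, by omega, ?_, ?_⟩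
    · rw [div_lt_iff₀ hM0]
      push_cast at hm
      linarith
    · rw [lt_div_iff₀ hM0]
      push_cast at hm
      linarith
  calc _ ≤ volume (⋃ m ∈ Finset.range (2 * M + 1),
        Ioo (((m : ℝ) / 2 - 5 * η) / M) (((m : ℝ) / 2 + 5 * η) / M)) := measure_mono h1
    _ ≤ ∑ m ∈ Finset.range (2 * M + 1),
        volume (Ioo (((m : ℝ) / 2 - 5 * η) / M) (((m : ℝ) / 2 + 5 * η) / M)) :=
        measure_biUnion_finset_le _ _
    _ = ∑ m ∈ Finset.range (2 * M + 1), ENNReal.ofReal (10 * η / M) := by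
        apply Finset.sum_congr rfl
        intro m _
        rw [Real.volume_Ioo]
        congr 1
        field_simp
        ring
    _ = ENNReal.ofReal ((2 * M + 1 : ℕ) * (10 * η / M)) := by
        rw [Finset.sum_const, Finset.card_range, nsmul_eq_mul, ENNReal.ofReal_mul (by positivity),
          ENNReal.ofReal_natCast]
    _ ≤ _ := by
        apply ENNReal.ofReal_le_ofReal
        push_cast
        rw [← mul_div_assoc, div_le_iff₀ hM0]
        nlinarith

private theorem grd_vol {M : ℕ} (hM : 0 < M) {η : ℝ} (hη : 0 < η) (hη2 : η < 1 / 16) :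
    volume (grd_S M η ∩ cube (n + n)) ≤ ENNReal.ofReal (30 ^ n * η ^ n) := by
  set A : Set ℝ := {t : ℝ | t ∈ Ico (0 : ℝ) 1 ∧ ∃ m : ℤ, |M * t - m / 2| < 5 * η} with hA
  set s : Fin (n + n) → Set ℝ := fun j => Fin.addCases (fun _ => Ico (0 : ℝ) 1) (fun _ => A) j
    with hs
  have h1 : grd_S M η ∩ cube (n + n) ⊆
      (MeasurableEquiv.toLp 2 (Fin (n + n) → ℝ)).symm ⁻¹' (univ.pi s) := by
    rintro x ⟨hx, hc⟩
    rw [mem_preimage, mem_univ_pi]
    intro j
    refine Fin.addCases (fun i => ?_) (fun i => ?_) j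
    · simp only [hs, Fin.addCases_left]
      exact hc _
    · simp only [hs, Fin.addCases_right]
      exact ⟨hc _, hx i⟩
  have h2 : volume (univ.pi s) ≤ ENNReal.ofReal (30 ^ n * η ^ n) := by
    rw [volume_pi, Measure.pi_pi, Fin.prod_univ_add]
    simp only [hs, Fin.addCases_left, Fin.addCases_right]
    rw [Real.volume_Ico]
    simp only [sub_zero, ENNReal.ofReal_one, Finset.prod_const_one, one_mul, Finset.prod_const,
      Finset.card_univ, Fintype.card_fin]
    rw [← mul_pow, ENNReal.ofReal_pow (by positivity)]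
    exact pow_le_pow_left₀ zero_le (grd_A hM hη hη2) n
  refine (measure_mono h1).trans (le_trans (le_of_eq ?_) h2)
  exact (EuclideanSpace.volume_preserving_symm_measurableEquiv_toLp (Fin (n + n))).measure_preimage_equiv _

theorem grid : ∃ C : ℝ, 0 ≤ C ∧ ∀ M : ℕ, 0 < M → ∀ η : ℝ, 0 < η → η < 1 / 16 →
    ∃ (X : Eu (n + n) → ℝ) (S : Set (Eu (n + n))), ContDiff ℝ ∞ X ∧ Per X ∧
      (∀ x, 0 ≤ X x ∧ X x ≤ 1) ∧ (∀ x, ‖fderiv ℝ X x‖ ≤ C * M / η) ∧
      (∀ x ∈ RR M η, ∀ᶠ y in nhds x, X y = 1) ∧ MeasurableSet S ∧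
      (∀ x (k : Fin (n + n) → ℤ), x + iv k ∈ S ↔ x ∈ S) ∧
      (∀ x ∉ S, ∀ᶠ y in nhds x, X y = 0) ∧
      volume (S ∩ cube (n + n)) ≤ ENNReal.ofReal (C * η ^ n) := by
  obtain ⟨B, hB0, hB⟩ := grd_g_deriv
  have hp := Real.two_pi_pos
  refine ⟨n * (B * (2 * Real.pi)) + 30 ^ n, by positivity, ?_⟩
  intro M hM η hη hη2
  have hsin : ∀ i : Fin n, Continuous fun y : Eu (n + n) =>
      |Real.sin (2 * Real.pi * (M * pp y i))| := by
    intro i
    have h2 : Continuous fun x : Eu (n + n) => pp x i := (grd_p i).continuous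
    exact (Real.continuous_sin.comp (continuous_const.mul (continuous_const.mul h2))).abs
  refine ⟨grd_X M η, grd_S M η, grd_X_smooth M η, grd_X_per M η, grd_X_mem M η, ?_, ?_,
    grd_S_meas M η, ?_, ?_, ?_⟩
  · intro x
    refine (grd_X_deriv hB M hη x).trans ?_
    apply div_le_div_of_nonneg_right _ hη.le
    apply mul_le_mul_of_nonneg_right _ (by positivity)
    have : (0 : ℝ) ≤ 30 ^ n := by positivity
    linarith
  · intro x hx
    have h1 : ∀ i : Fin n, ∀ᶠ y in nhds x,
        |Real.sin (2 * Real.pi * (M * pp y i))| < 4 * Real.pi * η := by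
      intro i
      obtain ⟨m, hm⟩ := hx i
      exact (hsin i).continuousAt.eventually_lt continuousAt_const (grd_sin_le m hm)
    have h2 := Filter.eventually_all.2 h1
    filter_upwards [h2] with y hy
    unfold grd_X
    apply Finset.prod_eq_one
    intro i _
    apply grd_g_one
    rw [abs_div, abs_of_pos hη, div_le_iff₀ hη]
    exact (hy i).le
  · intro x k
    refine ⟨fun h => ?_, grd_S_per M η x k⟩
    have h2 := grd_S_per M η _ (-k) h
    rwa [grd_iv_neg] at h2
  · intro x hx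
    have h1 : ∃ i : Fin n, ∀ m : ℤ, 5 * η ≤ |M * pp x i - m / 2| := by
      by_contra hc
      push Not at hc
      exact hx hc
    obtain ⟨i, hi⟩ := h1
    have h3 := grd_sin_ge hi
    have h4 : ∀ᶠ y in nhds x, 16 * η < |Real.sin (2 * Real.pi * (M * pp y i))| := by
      apply (continuousAt_const).eventually_lt (hsin i).continuousAt
      linarith
    filter_upwards [h4] with y hy
    unfold grd_X
    apply Finset.prod_eq_zero (Finset.mem_univ i)
    apply grd_g_zero
    rw [abs_div, abs_of_pos hη, le_div_iff₀ hη]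
    exact hy.le
  · refine (grd_vol hM hη hη2).trans ?_
    apply ENNReal.ofReal_le_ofReal
    apply mul_le_mul_of_nonneg_right _ (by positivity)
    have : 0 ≤ (n : ℝ) * (B * (2 * Real.pi)) := by positivity
    linarith

end

end SVT
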