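import Pool.Agent.SVT.Hp
import Pool.Agent.SVT.EE
import Pool.Agent.SVT.Grd

/-!
# SVT-9: neighbourhoods of the grid are cheap to move
-/

set_option autoImplicit false

open MeasureTheory Set Pool.Agent.H68.VD TN
open scoped ENNReal ContDiff

namespace SVT

noncomputable section

variable {n : ℕ}

/-- choice of the small parameter -/
theorem cut_small {K e ε : ℝ} (hK : 0 ≤ K) (he : 0 < e) (hε : 0 < ε) :
    ∃ η₀ > (0 : ℝ), η₀ < 1 / 16 ∧ ∀ η : ℝ, 0 < η → η ≤ η₀ → K * η ^ e ≤ ε := by
  have hq : 0 < ε / (K + 1) := by positivity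
  refine ⟨min (1 / 17) ((ε / (K + 1)) ^ (1 / e)), ?_, ?_, ?_⟩
  · exact lt_min (by norm_num) (Real.rpow_pos_of_pos hq _)
  · exact lt_of_le_of_lt (min_le_left _ _) (by norm_num)
  · intro η h1 h2
    have h3 : η ≤ (ε / (K + 1)) ^ (1 / e) := h2.trans (min_le_right _ _)
    have h4 : η ^ e ≤ ε / (K + 1) := by
      calc η ^ e ≤ ((ε / (K + 1)) ^ (1 / e)) ^ e := Real.rpow_le_rpow h1.le h3 he.le
        _ = ε / (K + 1) := by
          rw [← Real.rpow_mul hq.le, one_div_mul_cancel he.ne', Real.rpow_one]
    calc K * η ^ e ≤ K * (ε / (K + 1)) := mul_le_mul_of_nonneg_left h4 hK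
      _ ≤ ε := by
        rw [mul_div_assoc', div_le_iff₀ (by positivity)]
        nlinarith

/-- the numerical bound -/
theorem cut_num {B L C D σ p η : ℝ} (hB : 0 ≤ B) (hL : 0 ≤ L) (hC : 0 ≤ C) (hD : 0 ≤ D)
    (hσ : 0 ≤ σ) (h0 : 0 < η) (h1 : η ≤ 1) :
    B ^ (1 - σ) * (B + B * (D / η) * L) ^ σ * (C * η ^ n) ^ (1 / p) ≤
      B ^ (1 - σ) * (B + B * D * L) ^ σ * C ^ (1 / p) * η ^ ((n : ℝ) / p - σ) := by
  have hBDL : 0 ≤ B + B * D * L := by positivity
  have e1 : B + B * (D / η) * L ≤ (B + B * D * L) * η⁻¹ := by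
    have h2 : B ≤ B * η⁻¹ := le_mul_of_one_le_right hB ((one_le_inv₀ h0).2 h1)
    calc B + B * (D / η) * L ≤ B * η⁻¹ + B * (D / η) * L := by gcongr
      _ = (B + B * D * L) * η⁻¹ := by rw [div_eq_mul_inv]; ring
  have e2 : (B + B * (D / η) * L) ^ σ ≤ (B + B * D * L) ^ σ * η ^ (-σ) := by
    calc (B + B * (D / η) * L) ^ σ ≤ ((B + B * D * L) * η⁻¹) ^ σ :=
          Real.rpow_le_rpow (by positivity) e1 hσ
      _ = (B + B * D * L) ^ σ * η ^ (-σ) := by
          rw [Real.mul_rpow hBDL (by positivity), Real.inv_rpow h0.le, Real.rpow_neg h0.le]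
  have e3 : (C * η ^ n) ^ (1 / p) = C ^ (1 / p) * η ^ ((n : ℝ) / p) := by
    rw [Real.mul_rpow hC (by positivity), ← Real.rpow_natCast η n, ← Real.rpow_mul h0.le,
      mul_one_div]
  rw [e3]
  calc B ^ (1 - σ) * (B + B * (D / η) * L) ^ σ * (C ^ (1 / p) * η ^ ((n : ℝ) / p))
      ≤ B ^ (1 - σ) * ((B + B * D * L) ^ σ * η ^ (-σ)) * (C ^ (1 / p) * η ^ ((n : ℝ) / p)) := by
        gcongr
    _ = B ^ (1 - σ) * (B + B * D * L) ^ σ * C ^ (1 / p) * (η ^ ((n : ℝ) / p) * η ^ (-σ)) := by
        ring
    _ = _ := by rw [← Real.rpow_add h0, ← sub_eq_add_neg]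

/-- points off a box are far from a smaller box -/
theorem cut_far {x : Eu (n + n)} (hx : x ∉ PB (n := n) (1 / 8)) :
    ∀ᶠ y in nhds x, y ∉ PB (n := n) (1 / 9) := by
  filter_upwards [Metric.ball_mem_nhds x (show (0 : ℝ) < 1 / 72 by norm_num)] with y hy hyP
  obtain ⟨k, hk⟩ := hyP
  refine hx ⟨k, fun j => ?_⟩
  have h1 : |(x - y) j| ≤ ‖x - y‖ := by
    have := PiLp.norm_apply_le (x - y) j
    simpa [Real.norm_eq_abs] using this
  have h2 : ‖x - y‖ < 1 / 72 := by
    rw [Metric.mem_ball, dist_comm, dist_eq_norm] at hy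
    exact hy
  have h3 : (x + iv k) j = (y + iv k) j + (x - y) j := by
    simp only [PiLp.add_apply, PiLp.sub_apply]
    ring
  rw [h3]
  calc |(y + iv k) j + (x - y) j| ≤ |(y + iv k) j| + |(x - y) j| := abs_add_le _ _
    _ < 1 / 9 + 1 / 72 := add_lt_add (hk j) (h1.trans_lt h2)
    _ = 1 / 8 := by norm_num

theorem cut {p σ : ℝ} (hp : 1 < p) (hσ : 0 ≤ σ) (hσ1 : σ < 1) (hσn : σ < n / p)
    {f : ℝ → Eu (n + n) → Eu (n + n)} {F : ℝ → Eu (n + n) → ℝ} (h : HP f F) (h0 : f 0 = id)
    (hs : ∀ t x, x ∉ PB (1 / 9) → F t x = 0) (M : ℕ) (hM : 0 < M) {ε : ℝ} (hε : 0 < ε) :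
    ∃ η₀ > (0 : ℝ), ∀ η : ℝ, 0 < η → η ≤ η₀ → ∃ g : Equiv.Perm (Eu (n + n)), SG ⇑g ∧
      rho p σ ⇑g ≤ ENNReal.ofReal ε ∧ (∀ x ∈ RR M η, g x = f 1 x) ∧
      ∀ x ∉ PB (1 / 8), g x = x := by
  obtain ⟨C, hC, hgrid⟩ := grid (n := n)
  have hi := h.inv
  obtain ⟨L, hL1, hL⟩ := path_bd hi.sp
  obtain ⟨B, hB0, hB⟩ := ham_bd h.Hs h.Hp
  have hL0 : 0 ≤ L := by linarith
  have hsg : ∀ t, SG (f t) := fun t => h.sg h0 t
  have hinv : ∀ t, SG (Function.invFun (f t)) := fun t => sg_inv (hsg t)
  have he : 0 < (n : ℝ) / p - σ := by linarith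
  obtain ⟨η₀, hη0, hη1, hsm⟩ := cut_small
    (K := B ^ (1 - σ) * (B + B * (C * M) * L) ^ σ * C ^ (1 / p)) (by positivity) he hε
  refine ⟨η₀, hη0, fun η h1 h2 => ?_⟩
  obtain ⟨X, S, hX, hXp, hX01, hXd, hXR, hS, hSp, hS0, hSv⟩ := hgrid M hM η h1 (by linarith)
  set G : ℝ → Eu (n + n) → ℝ := fun t y => F t y * X (Function.invFun (f t) y) with hG
  have hGs : ContDiff ℝ ∞ (fun z : ℝ × Eu (n + n) => G z.1 z.2) :=
    h.Hs.mul (hX.comp (inv_smooth h.sp))
  have hGp : ∀ t, Per (G t) := by
    intro t x k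
    simp only [hG]
    rw [h.Hp t x k, sg_equi (hinv t) x k, hXp]
  obtain ⟨φ, hφ, hφ0⟩ := exists_hp hGs hGp
  have hφsg : SG (φ 1) := hφ.sg hφ0 1
  refine ⟨Equiv.ofBijective (φ 1) (sg_bij hφsg), hφsg, ?_, ?_, ?_⟩
  · show rho p σ (φ 1) ≤ _
    have hle : rho p σ (φ 1) ≤ cst p σ G :=
      iInf_le_of_le φ (iInf_le_of_le G (iInf_le_of_le ⟨hφ, hφ0, rfl⟩ le_rfl))
    refine hle.trans ?_
    have hE : ∀ t ∈ Icc (0 : ℝ) 1, EE p σ (G t) ≤ ENNReal.ofReal ε := by
      intro t ht
      have hsi : ContDiff ℝ ∞ (Function.invFun (f t)) := sg_smooth (hinv t)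
      have hXi : ContDiff ℝ ∞ (fun y => X (Function.invFun (f t) y)) := hX.comp hsi
      have hFt : ContDiff ℝ ∞ (F t) := h.Hs.comp (contDiff_const.prodMk contDiff_id)
      have hmS : MeasurableSet {y | Function.invFun (f t) y ∈ S} :=
        hsi.continuous.measurable hS
      have e1 : EE p σ (G t) ≤ ENNReal.ofReal
          (B ^ (1 - σ) * (B + B * (C * M / η) * L) ^ σ * (C * η ^ n) ^ (1 / p)) := by
        refine EE_supp hp hσ hσ1 hB0 (by positivity) (by positivity) hmS ?_ ?_ ?_ ?_
        · intro y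
          simp only [hG]
          rw [abs_mul]
          have a1 := (hB t ht y).1
          have a2 : |X (Function.invFun (f t) y)| ≤ 1 := by
            rw [abs_of_nonneg (hX01 _).1]
            exact (hX01 _).2
          calc |F t y| * |X (Function.invFun (f t) y)| ≤ B * 1 :=
                mul_le_mul a1 a2 (abs_nonneg _) hB0
            _ = B := mul_one B
        · intro y
          have d1 : DifferentiableAt ℝ (F t) y := hFt.differentiable (by simp) y
          have d2 : DifferentiableAt ℝ (fun y => X (Function.invFun (f t) y)) y :=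
            hXi.differentiable (by simp) y
          have d3 : fderiv ℝ (G t) y = F t y • fderiv ℝ (fun y => X (Function.invFun (f t) y)) y +
              X (Function.invFun (f t) y) • fderiv ℝ (F t) y := fderiv_fun_mul d1 d2
          have d4 : fderiv ℝ (fun y => X (Function.invFun (f t) y)) y =
              (fderiv ℝ X (Function.invFun (f t) y)).comp (fderiv ℝ (Function.invFun (f t)) y) :=
            fderiv_comp' y (hX.differentiable (by simp) _) (hsi.differentiable (by simp) y)
          have d5 : ‖fderiv ℝ (fun y => X (Function.invFun (f t) y)) y‖ ≤ C * M / η * L := by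
            rw [d4]
            refine (ContinuousLinearMap.opNorm_comp_le _ _).trans ?_
            exact mul_le_mul (hXd _) (hL t ht y) (norm_nonneg _) (by positivity)
          have a1 := (hB t ht y).1
          have a2 := (hB t ht y).2
          have a3 : |X (Function.invFun (f t) y)| ≤ 1 := by
            rw [abs_of_nonneg (hX01 _).1]
            exact (hX01 _).2
          rw [d3]
          calc ‖F t y • fderiv ℝ (fun y => X (Function.invFun (f t) y)) y +
                X (Function.invFun (f t) y) • fderiv ℝ (F t) y‖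
              ≤ |F t y| * ‖fderiv ℝ (fun y => X (Function.invFun (f t) y)) y‖ +
                |X (Function.invFun (f t) y)| * ‖fderiv ℝ (F t) y‖ := by
                refine (norm_add_le _ _).trans ?_
                rw [norm_smul, norm_smul, Real.norm_eq_abs, Real.norm_eq_abs]
            _ ≤ B * (C * M / η * L) + 1 * B := by
                gcongr
            _ = B + B * (C * M / η) * L := by ring
        · intro y hy
          have hy' : Function.invFun (f t) y ∉ S := hy
          have ev : ∀ᶠ y' in nhds y, G t y' = 0 := by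
            have ht' : Filter.Tendsto (Function.invFun (f t)) (nhds y)
                (nhds (Function.invFun (f t) y)) := hsi.continuous.continuousAt
            filter_upwards [ht'.eventually (hS0 _ hy')] with y' hy'
            simp only [hG]
            rw [hy', mul_zero]
          refine ⟨ev.self_of_nhds, ?_⟩
          have ev' : G t =ᶠ[nhds y] fun _ => (0 : ℝ) := ev
          rw [ev'.fderiv_eq]
          simp
        · have c1 := sg_cov (hinv t) (F := S.indicator 1)
            (measurable_one.indicator hS) (by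
              intro x k
              by_cases hx : x ∈ S
              · rw [indicator_of_mem hx, indicator_of_mem ((hSp x k).2 hx)]
                rfl
              · rw [indicator_of_notMem hx, indicator_of_notMem (fun hh => hx ((hSp x k).1 hh))])
          have c2 : ∫⁻ x in cube (n + n), S.indicator 1 x = volume (S ∩ cube (n + n)) := by
            rw [lintegral_indicator_one hS, Measure.restrict_apply hS]
          have c3 : ∫⁻ x in cube (n + n), S.indicator 1 (Function.invFun (f t) x) =
              volume ({y | Function.invFun (f t) y ∈ S} ∩ cube (n + n)) := by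
            have c4 : (fun x => S.indicator (1 : Eu (n + n) → ℝ≥0∞) (Function.invFun (f t) x)) =
                {y | Function.invFun (f t) y ∈ S}.indicator 1 := by
              funext x
              by_cases hx : Function.invFun (f t) x ∈ S
              · rw [indicator_of_mem hx, indicator_of_mem (show x ∈ {y | Function.invFun (f t) y ∈ S} from hx)]
                rfl
              · rw [indicator_of_notMem hx, indicator_of_notMem (show x ∉ {y | Function.invFun (f t) y ∈ S} from hx)]
            rw [c4, lintegral_indicator_one hmS, Measure.restrict_apply hmS]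
          rw [← c3, c1, c2]
          exact hSv
      refine e1.trans (ENNReal.ofReal_le_ofReal ?_)
      exact (cut_num (n := n) hB0 hL0 hC (by positivity) hσ h1 (by linarith)).trans
        (hsm η h1 h2)
    calc cst p σ G ≤ ∫⁻ _ in Icc (0 : ℝ) 1, ENNReal.ofReal ε :=
          setLIntegral_mono' measurableSet_Icc hE
      _ = ENNReal.ofReal ε := by simp
  · intro x hx
    show φ 1 x = f 1 x
    refine HP.agree h hφ (x := x) (by rw [h0, hφ0]) (fun t => ?_) 1
    have hl : Function.invFun (f t) (f t x) = x :=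
      Function.leftInverse_invFun (sg_bij (hsg t)).injective x
    have ht' : Filter.Tendsto (Function.invFun (f t)) (nhds (f t x)) (nhds x) := by
      have := (sg_smooth (hinv t)).continuous.continuousAt (x := f t x)
      rw [ContinuousAt, hl] at this
      exact this
    filter_upwards [ht'.eventually (hXR x hx)] with y hy
    simp only [hG]
    rw [hy, mul_one]
  · intro x hx
    show φ 1 x = x
    have := HP.agree (HP.cst sg_id) hφ (x := x) (by rw [hφ0]) (fun t => ?_) 1
    · exact this
    · filter_upwards [cut_far hx] with y hy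
      simp only [hG]
      rw [hs t y hy, zero_mul]

end

end SVT
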