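import Pool.Agent.SVT.Defs
import Pool.Agent.H68.VD.Fam
import Pool.Agent.H68.VD.Flux
import Pool.Agent.H68.VD.PerDiv

/-!
# Project SVT: pairing of a Hamiltonian field with a test field (MP_b0bf68_gt)
-/

set_option autoImplicit false
set_option linter.all false

open MeasureTheory Set Pool.Agent.H68.VD TN
open scoped ENNReal ContDiff

namespace SVT

noncomputable section

variable {n : ℕ}

theorem ibp_fin : IsFiniteMeasure (volume.restrict (cube (n + n))) :=
  ⟨by simpa using PerDivA.cube_finite (n := n + n)⟩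

/-- continuous functions are integrable on the cube -/
theorem ibp_int {F : Type*} [NormedAddCommGroup F] {f : Eu (n + n) → F} (hf : Continuous f) :
    Integrable f (volume.restrict (cube (n + n))) := by
  have := ibp_fin (n := n)
  obtain ⟨B, hB⟩ : ∃ B : ℝ, ∀ y ∈ Metric.closedBall (0 : Eu (n + n)) (((n + n : ℕ) : ℝ) + 1),
      ‖f y‖ ≤ B := (isCompact_closedBall _ _).exists_bound_of_continuousOn hf.continuousOn
  refine Integrable.of_bound (C := B) hf.aestronglyMeasurable ?_
  refine (ae_restrict_iff' PerDivA.cube_measurable).mpr (Filter.Eventually.of_forall (fun x hx => ?_))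
  refine hB _ ?_
  rw [Metric.mem_closedBall, dist_zero_right]
  exact PerDivA.norm_le_of_mem hx

/-- Hoelder on the cube -/
theorem ibp_hol {p : ℝ} (hp : 1 < p) {f g : Eu (n + n) → ℝ≥0∞} (hf : Measurable f)
    (hg : Measurable g) : ∫⁻ x in cube (n + n), f x * g x ≤
      (∫⁻ x in cube (n + n), f x ^ p) ^ (1 / p) *
        (∫⁻ x in cube (n + n), g x ^ (p / (p - 1))) ^ (1 / (p / (p - 1))) := by
  have h := ENNReal.lintegral_mul_le_Lp_mul_Lq (volume.restrict (cube (n + n)))
    ((Real.holderConjugate_iff_eq_conjExponent hp).2 rfl) hf.aemeasurable hg.aemeasurable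
  simpa using h

theorem ibp_J (x y : Eu (n + n)) : inner ℝ (Jm x) (Jm y) = inner ℝ x y := by
  rw [inner_qp, inner_qp x y]
  simp [Jm, inner_neg_left]
  ring

theorem ibp_norm {H : Eu (n + n) → ℝ} {V : Eu (n + n) → Eu (n + n)}
    (hd : ∀ x, HasFDerivAt H (innerSL ℝ (Jm (V x))) x) (x : Eu (n + n)) :
    ‖fderiv ℝ H x‖ = ‖V x‖ := by
  rw [(hd x).fderiv, innerSL_apply_norm, norm_Jm]

theorem ibp_en {F G : Type*} [SeminormedAddCommGroup F] [SeminormedAddCommGroup G] {a : F} {b : G}
    (h : ‖a‖ = ‖b‖) : ‖a‖ₑ = ‖b‖ₑ := by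
  rw [← ofReal_norm, ← ofReal_norm, h]

theorem pair_D {p : ℝ} (hp : 1 < p) {H : Eu (n + n) → ℝ} {V v : Eu (n + n) → Eu (n + n)}
    (hH : ContDiff ℝ ∞ H) (hV : Continuous V) (hd : ∀ x, HasFDerivAt H (innerSL ℝ (Jm (V x))) x)
    (hv : Continuous v) : ENNReal.ofReal |∫ x in cube (n + n), inner ℝ (V x) (v x)| ≤
      nD p H * (∫⁻ x in cube (n + n), ‖v x‖ₑ ^ (p / (p - 1))) ^ (1 / (p / (p - 1))) := by
  have h1 : ENNReal.ofReal |∫ x in cube (n + n), inner ℝ (V x) (v x)| ≤
      ∫⁻ x in cube (n + n), ‖V x‖ₑ * ‖v x‖ₑ := by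
    rw [← Real.norm_eq_abs, ofReal_norm]
    refine (enorm_integral_le_lintegral_enorm _).trans ?_
    refine lintegral_mono fun x => ?_
    rw [← ofReal_norm, ← ofReal_norm, ← ofReal_norm, ← ENNReal.ofReal_mul (norm_nonneg _)]
    exact ENNReal.ofReal_le_ofReal (norm_inner_le_norm _ _)
  refine h1.trans ?_
  have h2 := ibp_hol (n := n) hp (f := fun x => ‖V x‖ₑ) (g := fun x => ‖v x‖ₑ)
    hV.enorm.measurable hv.enorm.measurable
  refine h2.trans (le_of_eq ?_)
  have h3 : nD p H = (∫⁻ x in cube (n + n), ‖V x‖ₑ ^ p) ^ (1 / p) := by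
    unfold nD
    congr 1
    exact lintegral_congr fun x => by rw [ibp_en (ibp_norm hd x)]
  rw [h3]

/-- the sum of the coordinates -/
theorem ibp_sum {m : ℕ} (L : Eu m →L[ℝ] ℝ) (w : Eu m) :
    L w = ∑ j, L (ev j) * inner ℝ w (ev j) := by
  have hw : w = ∑ j, (inner ℝ w (ev j)) • (ev j : Eu m) := by
    have := (EuclideanSpace.basisFun (Fin m) ℝ).sum_repr' w
    conv_lhs => rw [← this]
    refine Finset.sum_congr rfl fun j _ => ?_
    rw [EuclideanSpace.basisFun_apply, real_inner_comm]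
    rfl
  conv_lhs => rw [hw]
  rw [map_sum]
  refine Finset.sum_congr rfl fun j _ => ?_
  rw [map_smul, smul_eq_mul, mul_comm]

/-- integration by parts -/
theorem ibp_parts {H : Eu (n + n) → ℝ} {w : Eu (n + n) → Eu (n + n)} (hH : ContDiff ℝ ∞ H)
    (hHp : Per H) (hw : ContDiff ℝ ∞ w) (hwp : Per w) :
    ∫ x in cube (n + n), fderiv ℝ H x (w x) =
      -∫ x in cube (n + n), H x * ∑ j, inner ℝ (fderiv ℝ w x (ev j)) (ev j) := by
  have hdw : Continuous (fderiv ℝ w) := hw.continuous_fderiv (by simp)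
  have hdH : Continuous (fderiv ℝ H) := hH.continuous_fderiv (by simp)
  have key : ∀ j : Fin (n + n), ∫ x in cube (n + n), (fderiv ℝ H x (ev j) * inner ℝ (w x) (ev j) +
      H x * inner ℝ (fderiv ℝ w x (ev j)) (ev j)) = 0 := by
    intro j
    have h0 := PerDivA.integral_deriv_eq_zero (fluxKit famKit) (fun x => H x • w x)
      (hH.smul hw) (fun x k => by simp only [hHp x k, hwp x k]) j
    have h1 : ∀ x, fderiv ℝ (fun x => H x • w x) x (ev j) =
        H x • fderiv ℝ w x (ev j) + (fderiv ℝ H x (ev j)) • w x := by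
      intro x
      have h2 := ((hH.differentiable (by simp) x).hasFDerivAt).smul
        ((hw.differentiable (by simp) x).hasFDerivAt)
      have h3 : HasFDerivAt (fun x => H x • w x)
          (H x • fderiv ℝ w x + (fderiv ℝ H x).smulRight (w x)) x := h2
      rw [h3.fderiv]
      simp
    simp only [h1] at h0
    have h4 : Integrable (fun x => H x • fderiv ℝ w x (ev j) + (fderiv ℝ H x (ev j)) • w x)
        (volume.restrict (cube (n + n))) :=
      ibp_int ((hH.continuous.smul (hdw.clm_apply continuous_const)).add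
        ((hdH.clm_apply continuous_const).smul hw.continuous))
    have h5 := integral_inner h4 (ev j : Eu (n + n)) (𝕜 := ℝ)
    rw [h0, inner_zero_right] at h5
    rw [← h5]
    refine integral_congr_ae (Filter.Eventually.of_forall fun x => ?_)
    simp only [inner_add_right, inner_smul_right]
    rw [real_inner_comm (w x), real_inner_comm (fderiv ℝ w x (ev j))]
    ring
  have hs : ∫ x in cube (n + n), (fderiv ℝ H x (w x) +
      H x * ∑ j, inner ℝ (fderiv ℝ w x (ev j)) (ev j)) = 0 := by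
    have h1 : ∀ x, fderiv ℝ H x (w x) + H x * ∑ j, inner ℝ (fderiv ℝ w x (ev j)) (ev j) =
        ∑ j, (fderiv ℝ H x (ev j) * inner ℝ (w x) (ev j) +
          H x * inner ℝ (fderiv ℝ w x (ev j)) (ev j)) := by
      intro x
      rw [Finset.sum_add_distrib, ← Finset.mul_sum, ← ibp_sum]
    simp only [h1]
    rw [integral_finsetSum]
    · exact Finset.sum_eq_zero fun j _ => key j
    · intro j _
      exact ibp_int (((hdH.clm_apply continuous_const).mul
        (hw.continuous.inner continuous_const)).add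
        (hH.continuous.mul ((hdw.clm_apply continuous_const).inner continuous_const)))
  have hi1 : Integrable (fun x => fderiv ℝ H x (w x)) (volume.restrict (cube (n + n))) :=
    ibp_int (hdH.clm_apply hw.continuous)
  have hi2 : Integrable (fun x => H x * ∑ j, (inner ℝ (fderiv ℝ w x (ev j)) (ev j) : ℝ))
      (volume.restrict (cube (n + n))) :=
    ibp_int (hH.continuous.mul (continuous_finsetSum _ fun j _ =>
      (hdw.clm_apply continuous_const).inner continuous_const))
  rw [integral_add hi1 hi2] at hs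
  linarith

theorem pair_H {p : ℝ} (hp : 1 < p) : ∃ C : ℝ, 0 ≤ C ∧
    ∀ (H : Eu (n + n) → ℝ) (V v : Eu (n + n) → Eu (n + n)), ContDiff ℝ ∞ H → Per H →
      Continuous V → (∀ x, HasFDerivAt H (innerSL ℝ (Jm (V x))) x) → ContDiff ℝ ∞ v → Per v →
      ENNReal.ofReal |∫ x in cube (n + n), inner ℝ (V x) (v x)| ≤ ENNReal.ofReal C * (nH p H *
        (∫⁻ x in cube (n + n), ‖fderiv ℝ v x‖ₑ ^ (p / (p - 1))) ^ (1 / (p / (p - 1)))) := by
  refine ⟨((n + n : ℕ) : ℝ), by positivity, ?_⟩
  intro H V v hH hHp hV hd hv hvp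
  have hJ : ContDiff ℝ ∞ (fun x => Jm (v x)) := contDiff_Jm.comp hv
  have hJp : Per (fun x => Jm (v x)) := fun x k => by simp only [hvp x k]
  have e1 : ∫ x in cube (n + n), inner ℝ (V x) (v x) =
      ∫ x in cube (n + n), fderiv ℝ H x (Jm (v x)) := by
    refine integral_congr_ae (Filter.Eventually.of_forall fun x => ?_)
    simp only
    rw [(hd x).fderiv, innerSL_apply_apply, ibp_J]
  have hdv : Continuous (fderiv ℝ v) := hv.continuous_fderiv (by simp)
  have h1 : ENNReal.ofReal |∫ x in cube (n + n), inner ℝ (V x) (v x)| ≤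
      ∫⁻ x in cube (n + n), ENNReal.ofReal ((n + n : ℕ) : ℝ) * (‖H x‖ₑ * ‖fderiv ℝ v x‖ₑ) := by
    rw [e1, ibp_parts hH hHp hJ hJp, abs_neg, ← Real.norm_eq_abs, ofReal_norm]
    refine (enorm_integral_le_lintegral_enorm _).trans ?_
    refine lintegral_mono fun x => ?_
    rw [← ofReal_norm, ← ofReal_norm, ← ofReal_norm, ← ENNReal.ofReal_mul (norm_nonneg _),
      ← ENNReal.ofReal_mul (Nat.cast_nonneg _)]
    refine ENNReal.ofReal_le_ofReal ?_
    rw [norm_mul]
    have h2 : ∀ j : Fin (n + n), ‖(inner ℝ (fderiv ℝ (fun x => Jm (v x)) x (ev j)) (ev j) : ℝ)‖ ≤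
        ‖fderiv ℝ v x‖ := by
      intro j
      have h3 : HasFDerivAt (fun x => Jm (v x)) ((JL n).comp (fderiv ℝ v x)) x :=
        (JL n).hasFDerivAt.comp x (hv.differentiable (by simp) x).hasFDerivAt
      rw [h3.fderiv]
      refine (norm_inner_le_norm _ _).trans ?_
      rw [PerDivA.ev_norm, mul_one, ContinuousLinearMap.comp_apply, JL_apply, norm_Jm]
      have h4 := (fderiv ℝ v x).le_opNorm (ev j)
      rwa [PerDivA.ev_norm, mul_one] at h4
    have h5 : ‖∑ j, (inner ℝ (fderiv ℝ (fun x => Jm (v x)) x (ev j)) (ev j) : ℝ)‖ ≤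
        ((n + n : ℕ) : ℝ) * ‖fderiv ℝ v x‖ := by
      refine (norm_sum_le _ _).trans ?_
      refine (Finset.sum_le_sum fun j _ => h2 j).trans (le_of_eq ?_)
      rw [Finset.sum_const, Finset.card_univ, Fintype.card_fin, nsmul_eq_mul]
    calc ‖H x‖ * ‖∑ j, (inner ℝ (fderiv ℝ (fun x => Jm (v x)) x (ev j)) (ev j) : ℝ)‖
        ≤ ‖H x‖ * (((n + n : ℕ) : ℝ) * ‖fderiv ℝ v x‖) :=
          mul_le_mul_of_nonneg_left h5 (norm_nonneg _)
      _ = _ := by ring
  refine h1.trans ?_
  have h6 : Measurable (fun x => ‖H x‖ₑ * ‖fderiv ℝ v x‖ₑ) :=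
    hH.continuous.enorm.measurable.mul hdv.enorm.measurable
  rw [lintegral_const_mul _ h6]
  exact mul_le_mul_right (ibp_hol (n := n) hp (f := fun x => ‖H x‖ₑ) (g := fun x => ‖fderiv ℝ v x‖ₑ)
    hH.continuous.enorm.measurable hdv.enorm.measurable) _

end

end SVT
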