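import Pool.Agent.SVT.Defs
import Pool.Agent.H68.VD.Tr

/-!
# Project SVT: mollification of periodic test fields (MP_b0bf68_gt)
-/

set_option autoImplicit false

open MeasureTheory Set Pool.Agent.H68.VD TN
open scoped ENNReal ContDiff

namespace SVT

noncomputable section

/-- Hoelder on a ball -/
theorem mol_hol {m : ℕ} {q ρ : ℝ} (hq : 1 < q) {a : Eu m → ℝ≥0∞} (ha : Measurable a) :
    (∫⁻ t in Metric.ball (0 : Eu m) ρ, a t) ^ q ≤
      (volume (Metric.ball (0 : Eu m) ρ)) ^ (q - 1) *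
        ∫⁻ t in Metric.ball (0 : Eu m) ρ, a t ^ q := by
  have hq0 : 0 < q := by linarith
  have h := ENNReal.lintegral_mul_le_Lp_mul_Lq (volume.restrict (Metric.ball (0 : Eu m) ρ))
    ((Real.holderConjugate_iff_eq_conjExponent hq).2 rfl) (f := a) (g := fun _ => (1 : ℝ≥0∞))
    ha.aemeasurable aemeasurable_const
  simp only [Pi.mul_apply, mul_one, ENNReal.one_rpow, lintegral_const, one_mul,
    Measure.restrict_apply MeasurableSet.univ, univ_inter] at h
  calc (∫⁻ t in Metric.ball (0 : Eu m) ρ, a t) ^ q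
      ≤ ((∫⁻ t in Metric.ball (0 : Eu m) ρ, a t ^ q) ^ (1 / q) *
          volume (Metric.ball (0 : Eu m) ρ) ^ (1 / (q / (q - 1)))) ^ q :=
        ENNReal.rpow_le_rpow h hq0.le
    _ = (∫⁻ t in Metric.ball (0 : Eu m) ρ, a t ^ q) *
          volume (Metric.ball (0 : Eu m) ρ) ^ (q - 1) := by
        rw [ENNReal.mul_rpow_of_nonneg _ _ hq0.le, ← ENNReal.rpow_mul, ← ENNReal.rpow_mul]
        have h1 : 1 / q * q = 1 := by field_simp
        have h2 : 1 / (q / (q - 1)) * q = q - 1 := by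
          have : q - 1 ≠ 0 := by linarith
          field_simp
        rw [h1, h2, ENNReal.rpow_one]
    _ = _ := mul_comm _ _

/-- the inner integral -/
theorem mol_in {m : ℕ} {τ q ρ : ℝ} (hτ : 0 < τ) (hq : 1 < q) (hρ1 : ρ ≤ 1)
    (v : Eu m → Eu m) (x : Eu m) :
    ∫⁻ t in Metric.ball (0 : Eu m) ρ, ‖v (x - t) - v x‖ₑ ^ q ≤
      ENNReal.ofReal ρ ^ ((m : ℝ) + τ * q) *
        ∫⁻ h in Metric.ball (0 : Eu m) 1,
          dnorm 0 (fun y => v (y + h) - v y) x ^ q / ‖h‖ₑ ^ ((m : ℝ) + τ * q) := by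
  have hE : 0 < (m : ℝ) + τ * q := by positivity
  have h1 : ∫⁻ t in Metric.ball (0 : Eu m) ρ, ‖v (x - t) - v x‖ₑ ^ q =
      ∫⁻ t in Metric.ball (0 : Eu m) ρ, ‖v (x + t) - v x‖ₑ ^ q := by
    have h2 := (Measure.measurePreserving_neg (volume : Measure (Eu m))).setLIntegral_comp_preimage_emb
      (MeasurableEquiv.neg (Eu m)).measurableEmbedding (fun t => ‖v (x + t) - v x‖ₑ ^ q)
      (Metric.ball (0 : Eu m) ρ)
    have h3 : (Neg.neg : Eu m → Eu m) ⁻¹' Metric.ball (0 : Eu m) ρ = Metric.ball (0 : Eu m) ρ := by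
      ext y
      simp
    rw [h3] at h2
    rw [← h2]
    refine lintegral_congr fun t => ?_
    simp only [sub_eq_add_neg x t]
  rw [h1, ← lintegral_const_mul' _ _ (ENNReal.rpow_ne_top_of_nonneg hE.le ENNReal.ofReal_ne_top)]
  refine (setLIntegral_mono' measurableSet_ball fun t ht => ?_).trans
    (lintegral_mono_set (Metric.ball_subset_ball hρ1))
  have hd : dnorm 0 (fun y => v (y + t) - v y) x = ‖v (x + t) - v x‖ₑ := by
    rw [dnorm, ← ofReal_norm, norm_iteratedFDeriv_zero]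
  rw [hd]
  have htρ : ‖t‖ₑ ≤ ENNReal.ofReal ρ := by
    rw [← ofReal_norm]
    exact ENNReal.ofReal_le_ofReal (by simpa using (mem_ball_zero_iff.1 ht).le)
  rcases eq_or_ne t 0 with rfl | ht0
  · simp only [add_zero, sub_self, enorm_zero]
    rw [ENNReal.zero_rpow_of_pos (by linarith)]
    exact zero_le
  · have ht0' : ‖t‖ₑ ≠ 0 := by simpa using ht0
    have ha : ‖t‖ₑ ^ ((m : ℝ) + τ * q) ≠ 0 := by
      simp [ENNReal.rpow_eq_zero_iff, ht0, hE.not_gt]
    have hb : ‖t‖ₑ ^ ((m : ℝ) + τ * q) ≠ ⊤ := ENNReal.rpow_ne_top_of_nonneg hE.le enorm_ne_top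
    calc ‖v (x + t) - v x‖ₑ ^ q
        = ‖t‖ₑ ^ ((m : ℝ) + τ * q) * (‖v (x + t) - v x‖ₑ ^ q / ‖t‖ₑ ^ ((m : ℝ) + τ * q)) := by
          rw [ENNReal.mul_div_cancel ha hb]
      _ ≤ _ := by
          gcongr

/-- the estimate of an average of differences -/
theorem mol_est {m : ℕ} {τ q ρ B : ℝ} (hτ : 0 < τ) (hq : 1 < q) (hρ : 0 < ρ) (hρ1 : ρ ≤ 1)
    (hB : 0 ≤ B) {v : Eu m → Eu m} (hv : Continuous v) (hg : gag 0 τ q v ≤ 1)
    {F' : Type*} [NormedAddCommGroup F'] (F : Eu m → F')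
    (hF : ∀ x, ‖F x‖ₑ ≤ ENNReal.ofReal B *
      ∫⁻ t in Metric.ball (0 : Eu m) ρ, ‖v (x - t) - v x‖ₑ) :
    (∫⁻ x in cube m, ‖F x‖ₑ ^ q) ^ (1 / q) ≤
      ENNReal.ofReal (B * ((volume (Metric.ball (0 : Eu m) 1)).toReal ^ (q - 1)) ^ (1 / q) *
        ρ ^ ((m : ℝ) + τ)) := by
  have hq0 : 0 < q := by linarith
  have hE : 0 < (m : ℝ) + τ * q := by positivity
  set c : ℝ := (volume (Metric.ball (0 : Eu m) 1)).toReal with hc
  have hc0 : 0 ≤ c := ENNReal.toReal_nonneg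
  have hvol : volume (Metric.ball (0 : Eu m) ρ) = ENNReal.ofReal (ρ ^ m * c) := by
    rw [Measure.addHaar_ball_of_pos _ _ hρ, ENNReal.ofReal_mul (by positivity), hc,
      ENNReal.ofReal_toReal measure_ball_lt_top.ne]
    simp
  set K : ℝ≥0∞ := ENNReal.ofReal B ^ q * (volume (Metric.ball (0 : Eu m) ρ) ^ (q - 1) *
    ENNReal.ofReal ρ ^ ((m : ℝ) + τ * q)) with hK
  have hK2 : K = ENNReal.ofReal (B ^ q * ((ρ ^ m * c) ^ (q - 1) * ρ ^ ((m : ℝ) + τ * q))) := by
    rw [hK, hvol, ENNReal.ofReal_rpow_of_nonneg hB hq0.le,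
      ENNReal.ofReal_rpow_of_nonneg (by positivity) (by linarith),
      ENNReal.ofReal_rpow_of_nonneg hρ.le hE.le, ← ENNReal.ofReal_mul (by positivity),
      ← ENNReal.ofReal_mul (by positivity)]
  have h1 : ∫⁻ x in cube m, ‖F x‖ₑ ^ q ≤ K := by
    calc ∫⁻ x in cube m, ‖F x‖ₑ ^ q ≤ ∫⁻ x in cube m, K * ∫⁻ h in Metric.ball (0 : Eu m) 1,
          dnorm 0 (fun y => v (y + h) - v y) x ^ q / ‖h‖ₑ ^ ((m : ℝ) + τ * q) := by
          refine lintegral_mono fun x => ?_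
          have h2 := ENNReal.rpow_le_rpow (hF x) hq0.le
          rw [ENNReal.mul_rpow_of_nonneg _ _ hq0.le] at h2
          refine h2.trans ?_
          have hc2 : Continuous fun t => v (x - t) - v x := by fun_prop
          have h3 := mol_hol (ρ := ρ) hq (a := fun t => ‖v (x - t) - v x‖ₑ) hc2.enorm.measurable
          have h4 := mol_in (ρ := ρ) hτ hq hρ1 v x
          calc ENNReal.ofReal B ^ q * (∫⁻ t in Metric.ball (0 : Eu m) ρ, ‖v (x - t) - v x‖ₑ) ^ q
              ≤ ENNReal.ofReal B ^ q * (volume (Metric.ball (0 : Eu m) ρ) ^ (q - 1) *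
                (ENNReal.ofReal ρ ^ ((m : ℝ) + τ * q) * ∫⁻ h in Metric.ball (0 : Eu m) 1,
          dnorm 0 (fun y => v (y + h) - v y) x ^ q / ‖h‖ₑ ^ ((m : ℝ) + τ * q))) := by
                gcongr
                exact h3.trans (by gcongr)
            _ = _ := by rw [hK]; ring
      _ = K * gag 0 τ q v := by
          rw [lintegral_const_mul' _ _ (by rw [hK2]; exact ENNReal.ofReal_ne_top)]
          rfl
      _ ≤ K * 1 := by gcongr
      _ = K := mul_one _
  refine (ENNReal.rpow_le_rpow h1 (by positivity)).trans (le_of_eq ?_)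
  rw [hK2, ENNReal.ofReal_rpow_of_nonneg (by positivity) (by positivity)]
  congr 1
  rw [Real.mul_rpow (by positivity) (by positivity), Real.mul_rpow (by positivity) (by positivity),
    Real.mul_rpow (x := ρ ^ m) (by positivity) hc0, Real.mul_rpow (by positivity) (by positivity),
    ← Real.rpow_mul hB, ← Real.rpow_mul hρ.le, ← Real.rpow_natCast ρ m, ← Real.rpow_mul hρ.le,
    ← Real.rpow_mul hρ.le]
  have e1 : q * (1 / q) = 1 := by field_simp
  have e2 : (m : ℝ) + τ = (m : ℝ) * (q - 1) * (1 / q) + ((m : ℝ) + τ * q) * (1 / q) := by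
    field_simp
    ring
  rw [e1, Real.rpow_one, e2, Real.rpow_add hρ]
  ring

/-- a kernel with support in a ball -/
theorem mol_ker {m : ℕ} {ρ B : ℝ} {G F : Type*} [NormedAddCommGroup G] [NormedAddCommGroup F]
    {L : Eu m → G} {u : Eu m → F} (hL : ∀ t, ‖L t‖ ≤ B) (h0 : ∀ t, ρ ≤ ‖t‖ → L t = 0) :
    ∫⁻ t, ‖L t‖ₑ * ‖u t‖ₑ ≤ ENNReal.ofReal B * ∫⁻ t in Metric.ball (0 : Eu m) ρ, ‖u t‖ₑ := by
  rw [← lintegral_const_mul' _ _ ENNReal.ofReal_ne_top, ← lintegral_indicator measurableSet_ball]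
  refine lintegral_mono fun t => ?_
  by_cases ht : t ∈ Metric.ball (0 : Eu m) ρ
  · rw [indicator_of_mem ht]
    have : ‖L t‖ₑ ≤ ENNReal.ofReal B := by
      rw [← ofReal_norm]
      exact ENNReal.ofReal_le_ofReal (hL t)
    gcongr
  · have h1 : L t = 0 := h0 t (by simpa using ht)
    simp [h1]

theorem mol {m : ℕ} {τ q : ℝ} (hτ : 0 < τ) (hτ1 : τ < 1) (hq : 1 < q) : ∃ C : ℝ, 0 ≤ C ∧
    ∀ v : Eu m → Eu m, ContDiff ℝ ∞ v → Per v → slobP τ q v ≤ 1 → ∀ ρ : ℝ, 0 < ρ → ρ ≤ 1 →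
    ∃ w : Eu m → Eu m, ContDiff ℝ ∞ w ∧ Per w ∧
      (∫⁻ x in cube m, ‖v x - w x‖ₑ ^ q) ^ (1 / q) ≤ ENNReal.ofReal (C * ρ ^ τ) ∧
      (∫⁻ x in cube m, ‖fderiv ℝ w x‖ₑ ^ q) ^ (1 / q) ≤ ENNReal.ofReal (C * ρ ^ (τ - 1)) := by
  have hq0 : 0 < q := by linarith
  let φ : ContDiffBump (0 : Eu m) := ⟨1 / 4, 1 / 2, by norm_num, by norm_num⟩
  set k : Eu m → ℝ := φ.normed volume with hk
  have ks : ContDiff ℝ ∞ k := φ.contDiff_normed
  have kc : HasCompactSupport k := φ.hasCompactSupport_normed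
  have ki : ∫ t, k t = 1 := φ.integral_normed
  have kt : tsupport k = Metric.closedBall 0 (1 / 2) := φ.tsupport_normed_eq
  have k0 : ∀ t, 1 ≤ ‖t‖ → k t = 0 := by
    intro t ht
    refine image_eq_zero_of_notMem_tsupport ?_
    rw [kt, mem_closedBall_zero_iff]
    linarith
  have kd0 : ∀ t, 1 ≤ ‖t‖ → fderiv ℝ k t = 0 := by
    intro t ht
    by_contra h
    have h1 := support_fderiv_subset ℝ (f := k) h
    rw [kt, mem_closedBall_zero_iff] at h1
    linarith
  obtain ⟨A, hA⟩ := ks.continuous.bounded_above_of_compact_support kc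
  obtain ⟨A', hA'⟩ := (ks.continuous_fderiv (by simp)).bounded_above_of_compact_support
    (kc.fderiv ℝ)
  have hA0 : 0 ≤ A := (norm_nonneg _).trans (hA 0)
  have hA0' : 0 ≤ A' := (norm_nonneg _).trans (hA' 0)
  set c : ℝ := ((volume (Metric.ball (0 : Eu m) 1)).toReal ^ (q - 1)) ^ (1 / q) with hc
  have hc0 : 0 ≤ c := by positivity
  refine ⟨(A + A') * c, by positivity, fun v hv hp hs ρ hρ hρ1 => ?_⟩
  have hg : gag 0 τ q v ≤ 1 := by
    have h1 : ⌊τ⌋₊ = 0 := Nat.floor_eq_zero.2 hτ1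
    refine le_trans ?_ hs
    unfold slobP
    rw [h1]
    simp only [Nat.cast_zero, sub_zero, hτ, if_true]
    exact le_add_self
  set K : Eu m → ℝ := fun t => (ρ ^ m)⁻¹ * k (ρ⁻¹ • t) with hK
  have hρm : 0 < ρ ^ m := by positivity
  have hbig : ∀ t : Eu m, ρ ≤ ‖t‖ → 1 ≤ ‖ρ⁻¹ • t‖ := by
    intro t ht
    rw [norm_smul, Real.norm_of_nonneg (by positivity), inv_mul_eq_div, le_div_iff₀ hρ]
    linarith
  have Ks : ContDiff ℝ ∞ K := by fun_prop
  have K0 : ∀ t, ρ ≤ ‖t‖ → K t = 0 := by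
    intro t ht
    rw [hK]
    simp only
    rw [k0 _ (hbig t ht), mul_zero]
  have Kc : HasCompactSupport K := by
    refine HasCompactSupport.intro (isCompact_closedBall 0 ρ) fun t ht => K0 t ?_
    rw [mem_closedBall_zero_iff, not_le] at ht
    exact ht.le
  have Ki : ∫ t, K t = 1 := by
    rw [hK, integral_const_mul, Measure.integral_comp_inv_smul_of_nonneg _ _ hρ.le, ki]
    simp
    field_simp
  have Kd : ∀ t, HasFDerivAt K ((ρ ^ m)⁻¹ • ρ⁻¹ • fderiv ℝ k (ρ⁻¹ • t)) t := by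
    intro t
    have h1 : HasFDerivAt k (fderiv ℝ k (ρ⁻¹ • t)) (ρ⁻¹ • t) :=
      ((ks.differentiable (by simp)) _).hasFDerivAt
    have h2 : HasFDerivAt (fun t : Eu m => ρ⁻¹ • t) (ρ⁻¹ • ContinuousLinearMap.id ℝ (Eu m)) t :=
      (hasFDerivAt_id t).const_smul ρ⁻¹
    have h3 := (h1.comp t h2).const_mul ((ρ ^ m)⁻¹)
    refine h3.congr_fderiv ?_
    ext z
    simp
  have KB : ∀ t, ‖K t‖ ≤ A * (ρ ^ m)⁻¹ := by
    intro t
    rw [hK]
    simp only [norm_mul]
    rw [Real.norm_of_nonneg (inv_nonneg.2 hρm.le), mul_comm]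
    exact mul_le_mul_of_nonneg_right (hA _) (inv_nonneg.2 hρm.le)
  have KdB : ∀ t, ‖fderiv ℝ K t‖ ≤ A' * ((ρ ^ m)⁻¹ * ρ⁻¹) := by
    intro t
    rw [(Kd t).fderiv, norm_smul, norm_smul, Real.norm_of_nonneg (inv_nonneg.2 hρm.le),
      Real.norm_of_nonneg (inv_nonneg.2 hρ.le), ← mul_assoc, mul_comm]
    exact mul_le_mul_of_nonneg_right (hA' _) (by positivity)
  have Kd0 : ∀ t, ρ ≤ ‖t‖ → fderiv ℝ K t = 0 := by
    intro t ht
    rw [(Kd t).fderiv, kd0 _ (hbig t ht)]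
    simp
  have hvc : Continuous v := hv.continuous
  set w : Eu m → Eu m := fun x => ∫ t, K t • v (x - t) with hw
  have hwc : w = convolution K v (ContinuousLinearMap.lsmul ℝ ℝ) volume := by
    ext1 x
    rfl
  have hint : ∀ u : Eu m → Eu m, Continuous u → Integrable (fun t => K t • u t) := fun u hu =>
    (Ks.continuous.smul hu).integrable_of_hasCompactSupport Kc.smul_right
  have hw1 : ∀ x c, w x = c + ∫ t, K t • (v (x - t) - c) := by
    intro x c
    have h1 : ∫ t, K t • (v (x - t) - c) = (∫ t, K t • v (x - t)) - ∫ t, K t • c := by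
      rw [← integral_sub (hint _ (by fun_prop)) (hint _ continuous_const)]
      refine integral_congr_ae (Filter.Eventually.of_forall fun t => ?_)
      simp only [smul_sub]
    rw [h1, integral_smul_const, Ki, one_smul]
    simp [hw]
  refine ⟨w, ?_, ?_, ?_, ?_⟩
  · rw [hwc]
    exact Kc.contDiff_convolution_left _ Ks hvc.locallyIntegrable
  · intro x l
    simp only [hw]
    refine integral_congr_ae (Filter.Eventually.of_forall fun t => ?_)
    simp only
    rw [add_sub_right_comm, hp]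
  · have h1 := mol_est (B := A * (ρ ^ m)⁻¹) hτ hq hρ hρ1 (by positivity) hvc hg
      (fun x => v x - w x) (fun x => ?_)
    · refine h1.trans (ENNReal.ofReal_le_ofReal ?_)
      rw [← hc, Real.rpow_add hρ, Real.rpow_natCast]
      have h2 : A * (ρ ^ m)⁻¹ * c * (ρ ^ m * ρ ^ τ) = A * c * ρ ^ τ := by
        field_simp
      rw [h2]
      have h3 : 0 ≤ A' * c * ρ ^ τ := by positivity
      nlinarith
    · rw [hw1 x (v x), sub_add_cancel_left, enorm_neg]
      refine (enorm_integral_le_lintegral_enorm _).trans ?_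
      simp only [enorm_smul]
      exact mol_ker KB K0
  · have hd : ∀ x, ‖fderiv ℝ w x‖ₑ ≤ ∫⁻ t, ‖fderiv ℝ K t‖ₑ * ‖v (x - t) - v x‖ₑ := by
      intro x
      have h1 := Kc.hasFDerivAt_convolution_left (μ := volume) (ContinuousLinearMap.lsmul ℝ ℝ)
        (g := fun z => v z - v x) (Ks.of_le (by simp)) (by fun_prop : Continuous _).locallyIntegrable x
      have h2 : w = fun y => v x + convolution K (fun z => v z - v x)
          (ContinuousLinearMap.lsmul ℝ ℝ) volume y := by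
        ext1 y
        rw [hw1 y (v x)]
        rfl
      have h3 := h1.const_add (v x)
      rw [← h2] at h3
      rw [h3.fderiv, convolution_def]
      refine (enorm_integral_le_lintegral_enorm _).trans (lintegral_mono fun t => ?_)
      rw [← ofReal_norm, ← ofReal_norm, ← ofReal_norm, ← ENNReal.ofReal_mul (norm_nonneg _)]
      refine ENNReal.ofReal_le_ofReal ?_
      refine (ContinuousLinearMap.le_opNorm₂ _ _ _).trans ?_
      have h4 : ‖ContinuousLinearMap.precompL (Eu m)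
          (ContinuousLinearMap.lsmul ℝ ℝ : ℝ →L[ℝ] Eu m →L[ℝ] Eu m)‖ ≤ 1 :=
        (ContinuousLinearMap.norm_precompL_le (Eu m) _).trans ContinuousLinearMap.opNorm_lsmul_le
      calc _ ≤ 1 * ‖fderiv ℝ K t‖ * ‖v (x - t) - v x‖ := by gcongr
        _ = _ := by ring
    have h1 := mol_est (B := A' * ((ρ ^ m)⁻¹ * ρ⁻¹)) hτ hq hρ hρ1 (by positivity) hvc hg
      (fun x => fderiv ℝ w x) (fun x => (hd x).trans (mol_ker KdB Kd0))
    refine h1.trans (ENNReal.ofReal_le_ofReal ?_)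
    rw [← hc, Real.rpow_add hρ, Real.rpow_natCast, Real.rpow_sub hρ, Real.rpow_one]
    have h2 : A' * ((ρ ^ m)⁻¹ * ρ⁻¹) * c * (ρ ^ m * ρ ^ τ) = A' * c * (ρ ^ τ / ρ) := by
      field_simp
    rw [h2]
    have h3 : 0 ≤ A * c * (ρ ^ τ / ρ) := by positivity
    nlinarith

end

end SVT
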