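import Pool.Agent.SVT.Defs
import Pool.Agent.SVT.Mol
import Pool.Agent.SVT.Ibp
import Pool.Agent.H68.VD.Tr
import Pool.Agent.H68.VD.InfD

/-!
# Project SVT: the norm of `W^{s,p}` of a Hamiltonian field (MP_b0bf68_gt)
-/

set_option autoImplicit false

open MeasureTheory Set Pool.Agent.H68.VD TN
open scoped ENNReal ContDiff

namespace SVT

noncomputable section

variable {n : ℕ}

theorem intw_meas (m : ℕ) : MeasurableSet (cube m) := by
  have h : cube m = (WithLp.ofLp (p := 2)) ⁻¹'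
      (Set.pi Set.univ fun _ : Fin m => Set.Ico (0 : ℝ) 1) := by
    ext x; simp [cube]
  rw [h]
  exact (MeasurableSet.univ_pi fun _ => measurableSet_Ico).preimage (by fun_prop)

theorem intw_sub (m : ℕ) : cube m ⊆ Metric.closedBall (0 : Eu m) (Real.sqrt m) := by
  intro x hx
  rw [mem_closedBall_zero_iff, EuclideanSpace.norm_eq]
  refine Real.sqrt_le_sqrt ?_
  calc ∑ i, ‖x i‖ ^ 2 ≤ ∑ _i : Fin m, (1 : ℝ) := by
        refine Finset.sum_le_sum fun i _ => ?_
        have h := hx i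
        rw [Real.norm_of_nonneg h.1]
        exact pow_le_one₀ h.1 h.2.le
    _ = m := by simp

theorem intw_fin {m : ℕ} {F : Type*} [NormedAddCommGroup F] {u : Eu m → F} (hu : Continuous u)
    {p : ℝ} (hp : 1 < p) : (∫⁻ x in cube m, ‖u x‖ₑ ^ p) ^ (1 / p) < ⊤ := by
  obtain ⟨C, hC⟩ := (isCompact_closedBall (0 : Eu m) (Real.sqrt m)).exists_bound_of_continuousOn
    hu.continuousOn
  refine ENNReal.rpow_lt_top_of_nonneg (by positivity) (ne_of_lt ?_)
  calc ∫⁻ x in cube m, ‖u x‖ₑ ^ p ≤ ∫⁻ _ in cube m, (ENNReal.ofReal C) ^ p := by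
        refine setLIntegral_mono' (intw_meas m) fun x hx => ?_
        refine ENNReal.rpow_le_rpow ?_ (by linarith)
        rw [← ofReal_norm]
        exact ENNReal.ofReal_le_ofReal (hC x (intw_sub m hx))
    _ = ENNReal.ofReal C ^ p * volume (cube m) := by
        rw [setLIntegral_const]
    _ < ⊤ := by
        refine ENNReal.mul_lt_top
          (ENNReal.rpow_lt_top_of_nonneg (by linarith) ENNReal.ofReal_ne_top) ?_
        exact (measure_mono (intw_sub m)).trans_lt
          (isCompact_closedBall (0 : Eu m) (Real.sqrt m)).measure_lt_top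

theorem intw_int {m : ℕ} {u v : Eu m → Eu m} (hu : Continuous u) (hv : Continuous v) :
    IntegrableOn (fun x => inner ℝ (u x) (v x)) (cube m) :=
  ((hu.inner hv).continuousOn.integrableOn_compact
    (isCompact_closedBall (0 : Eu m) (Real.sqrt m))).mono_set (intw_sub m)

theorem intw_L0 {m : ℕ} {r q : ℝ} {v : Eu m → Eu m} (h : slobP r q v ≤ 1) :
    ∫⁻ x in cube m, ‖v x‖ₑ ^ q ≤ 1 := by
  refine le_trans ?_ h
  unfold slobP
  refine le_trans ?_ le_self_add
  refine le_trans ?_ (Finset.single_le_sum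
    (f := fun k => ∫⁻ x in cube m, dnorm k v x ^ q) (fun _ _ => zero_le)
    (Finset.mem_range.mpr (Nat.succ_pos _) : 0 ∈ Finset.range (⌊r⌋₊ + 1)))
  apply le_of_eq
  apply lintegral_congr
  intro x
  congr 1
  rw [dnorm, ← ofReal_norm, norm_iteratedFDeriv_zero]

theorem intw_L1 {m : ℕ} {r q : ℝ} (hr : 1 ≤ r) {v : Eu m → Eu m} (h : slobP r q v ≤ 1) :
    ∫⁻ x in cube m, ‖fderiv ℝ v x‖ₑ ^ q ≤ 1 := by
  refine le_trans ?_ h
  unfold slobP
  refine le_trans ?_ le_self_add
  have h1 : 1 ≤ ⌊r⌋₊ := by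
    rw [Nat.le_floor_iff (by linarith)]
    exact_mod_cast hr
  refine le_trans ?_ (Finset.single_le_sum
    (f := fun k => ∫⁻ x in cube m, dnorm k v x ^ q) (fun _ _ => zero_le)
    (Finset.mem_range.mpr (by omega) : 1 ∈ Finset.range (⌊r⌋₊ + 1)))
  apply le_of_eq
  apply lintegral_congr
  intro x
  congr 1
  rw [dnorm, ← ofReal_norm, norm_iteratedFDeriv_one]

theorem intw_q {a : ℝ≥0∞} {q : ℝ} (hq : 0 < q) (h : a ≤ 1) : a ^ (1 / q) ≤ 1 :=
  (ENNReal.rpow_le_rpow h (by positivity)).trans (by simp)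

/-- the estimate for one scale -/
theorem intw_one {p s C1 C2 : ℝ} (hp : 1 < p)
    (hm : ∀ v : Eu (n + n) → Eu (n + n), ContDiff ℝ ∞ v → Per v → slobP (-s) (p / (p - 1)) v ≤ 1 →
      ∀ ρ : ℝ, 0 < ρ → ρ ≤ 1 → ∃ w : Eu (n + n) → Eu (n + n), ContDiff ℝ ∞ w ∧ Per w ∧
      (∫⁻ x in cube (n + n), ‖v x - w x‖ₑ ^ (p / (p - 1))) ^ (1 / (p / (p - 1))) ≤
        ENNReal.ofReal (C1 * ρ ^ (-s)) ∧
      (∫⁻ x in cube (n + n), ‖fderiv ℝ w x‖ₑ ^ (p / (p - 1))) ^ (1 / (p / (p - 1))) ≤
        ENNReal.ofReal (C1 * ρ ^ (-s - 1)))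
    (h2 : ∀ (H : Eu (n + n) → ℝ) (V v : Eu (n + n) → Eu (n + n)), ContDiff ℝ ∞ H → Per H →
      Continuous V → (∀ x, HasFDerivAt H (innerSL ℝ (Jm (V x))) x) → ContDiff ℝ ∞ v → Per v →
      ENNReal.ofReal |∫ x in cube (n + n), inner ℝ (V x) (v x)| ≤ ENNReal.ofReal C2 * (nH p H *
        (∫⁻ x in cube (n + n), ‖fderiv ℝ v x‖ₑ ^ (p / (p - 1))) ^ (1 / (p / (p - 1)))))
    {H : Eu (n + n) → ℝ} {V v : Eu (n + n) → Eu (n + n)} (hH : ContDiff ℝ ∞ H) (hHp : Per H)
    (hV : Continuous V) (hd : ∀ x, HasFDerivAt H (innerSL ℝ (Jm (V x))) x) (hv : ContDiff ℝ ∞ v)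
    (hvp : Per v) (hv1 : slobP (-s) (p / (p - 1)) v ≤ 1) {ρ : ℝ} (hρ : 0 < ρ) (hρ1 : ρ ≤ 1) :
    ENNReal.ofReal |∫ x in cube (n + n), inner ℝ (V x) (v x)| ≤
      nD p H * ENNReal.ofReal (C1 * ρ ^ (-s)) +
        ENNReal.ofReal C2 * (nH p H * ENNReal.ofReal (C1 * ρ ^ (-s - 1))) := by
  obtain ⟨w, hw, hwp, hw1, hw2⟩ := hm v hv hvp hv1 ρ hρ hρ1
  have e1 : ∫ x in cube (n + n), inner ℝ (V x) (v x) =
      (∫ x in cube (n + n), inner ℝ (V x) (v x - w x)) +
        ∫ x in cube (n + n), inner ℝ (V x) (w x) := by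
    have i1 : IntegrableOn (fun x => inner ℝ (V x) (v x - w x)) (cube (n + n)) :=
      intw_int hV (hv.continuous.sub hw.continuous)
    rw [← integral_add i1 (intw_int hV hw.continuous)]
    refine integral_congr_ae (Filter.Eventually.of_forall fun x => ?_)
    simp only [inner_sub_right]
    ring
  calc ENNReal.ofReal |∫ x in cube (n + n), inner ℝ (V x) (v x)| ≤
        ENNReal.ofReal (|∫ x in cube (n + n), inner ℝ (V x) (v x - w x)| +
          |∫ x in cube (n + n), inner ℝ (V x) (w x)|) := by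
        rw [e1]
        exact ENNReal.ofReal_le_ofReal (abs_add_le _ _)
    _ ≤ ENNReal.ofReal |∫ x in cube (n + n), inner ℝ (V x) (v x - w x)| +
          ENNReal.ofReal |∫ x in cube (n + n), inner ℝ (V x) (w x)| := ENNReal.ofReal_add_le
    _ ≤ _ := by
        refine add_le_add ?_ ?_
        · refine (pair_D hp hH hV hd (hv.continuous.sub hw.continuous)).trans ?_
          exact mul_le_mul' le_rfl hw1
        · refine (h2 H V w hH hHp hV hd hw hwp).trans ?_
          exact mul_le_mul' le_rfl (mul_le_mul' le_rfl hw2)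

theorem intw_alg {τ h g : ℝ} (hh : 0 < h) (hg : 0 < g) (C : ℝ) :
    g * (C * (h / g) ^ τ) = C * (h ^ τ * g ^ (1 - τ)) ∧
      h * (C * (h / g) ^ (τ - 1)) = C * (h ^ τ * g ^ (1 - τ)) := by
  constructor
  · rw [Real.div_rpow hh.le hg.le, Real.rpow_sub hg, Real.rpow_one]
    field_simp
  · rw [Real.div_rpow hh.le hg.le, Real.rpow_sub hg, Real.rpow_sub hg, Real.rpow_sub hh,
      Real.rpow_one, Real.rpow_one]
    have := Real.rpow_pos_of_pos hg τ
    field_simp

theorem interp_w {s p : ℝ} (hp : 1 < p) (hs : s < 0) : ∃ C : ℝ, 0 ≤ C ∧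
    ∀ (H : Eu (n + n) → ℝ) (V : Eu (n + n) → Eu (n + n)), ContDiff ℝ ∞ H → Per H → Continuous V →
      (∀ x, HasFDerivAt H (innerSL ℝ (Jm (V x))) x) →
      wspP s p V ≤ ENNReal.ofReal C * EE p (max (s + 1) 0) H := by
  obtain ⟨C2, hC2, h2⟩ := pair_H (n := n) hp
  have hq1 : 1 < p / (p - 1) := by
    rw [lt_div_iff₀ (by linarith)]
    linarith
  rcases le_or_gt s (-1) with h1 | h1
  · refine ⟨C2, hC2, fun H V hH hHp hV hd => ?_⟩
    rw [max_eq_right (by linarith)]
    unfold wspP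
    rw [if_neg (not_le.2 hs)]
    refine iSup₂_le fun v hv => ?_
    obtain ⟨hv, hvp, hv1⟩ := hv
    refine (h2 H V v hH hHp hV hd hv hvp).trans ?_
    gcongr
    unfold EE
    simp only [sub_zero, ENNReal.rpow_one, ENNReal.rpow_zero, mul_one]
    calc nH p H * (∫⁻ x in cube (n + n), ‖fderiv ℝ v x‖ₑ ^ (p / (p - 1))) ^ (1 / (p / (p - 1))) ≤
          nH p H * 1 := by
          gcongr
          exact intw_q (by linarith) (intw_L1 (by linarith) hv1)
      _ = nH p H := mul_one _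
  · obtain ⟨C1, hC1, hm⟩ := mol (m := n + n) (τ := -s) (q := p / (p - 1)) (by linarith)
      (by linarith) hq1
    refine ⟨1 + C1 + C2 * C1, by positivity, fun H V hH hHp hV hd => ?_⟩
    rw [max_eq_left (by linarith)]
    have hhf : nH p H < ⊤ := intw_fin hH.continuous hp
    have hgf : nD p H < ⊤ := intw_fin (hH.continuous_fderiv (by simp)) hp
    unfold wspP
    rw [if_neg (not_le.2 hs)]
    refine iSup₂_le fun v hv => ?_
    obtain ⟨hv, hvp, hv1⟩ := hv
    have key : ∀ ρ : ℝ, 0 < ρ → ρ ≤ 1 →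
        ENNReal.ofReal |∫ x in cube (n + n), inner ℝ (V x) (v x)| ≤
        nD p H * ENNReal.ofReal (C1 * ρ ^ (-s)) +
          ENNReal.ofReal C2 * (nH p H * ENNReal.ofReal (C1 * ρ ^ (-s - 1))) :=
      fun ρ hρ hρ1 => intw_one hp hm h2 hH hHp hV hd hv hvp hv1 hρ hρ1
    unfold EE
    rw [show 1 - (s + 1) = -s by ring]
    rcases le_or_gt (nD p H) (nH p H) with hgh | hgh
    · -- the derivative is small
      have h3 : ENNReal.ofReal |∫ x in cube (n + n), inner ℝ (V x) (v x)| ≤ nD p H := by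
        refine (pair_D hp hH hV hd hv.continuous).trans ?_
        calc nD p H * (∫⁻ x in cube (n + n), ‖v x‖ₑ ^ (p / (p - 1))) ^ (1 / (p / (p - 1))) ≤
              nD p H * 1 := by
              gcongr
              exact intw_q (by linarith) (intw_L0 hv1)
          _ = nD p H := mul_one _
      refine h3.trans ?_
      calc nD p H = nD p H ^ (-s) * nD p H ^ (s + 1) := by
            rw [← ENNReal.rpow_add_of_nonneg _ _ (by linarith) (by linarith)]
            simp
        _ ≤ nH p H ^ (-s) * nD p H ^ (s + 1) := by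
            gcongr
            linarith
        _ ≤ ENNReal.ofReal (1 + C1 + C2 * C1) * (nH p H ^ (-s) * nD p H ^ (s + 1)) := by
            refine le_mul_of_one_le_left zero_le ?_
            rw [ENNReal.one_le_ofReal]
            have := mul_nonneg hC2 hC1
            linarith
    · rcases eq_or_ne (nH p H) 0 with h0 | h0
      · -- the function vanishes
        have h4 : ENNReal.ofReal |∫ x in cube (n + n), inner ℝ (V x) (v x)| ≤ 0 := by
          have hlim : Filter.Tendsto (fun ρ : ℝ => nD p H * ENNReal.ofReal (C1 * ρ ^ (-s)))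
              (nhdsWithin 0 (Ioi 0)) (nhds (nD p H * ENNReal.ofReal (C1 * 0 ^ (-s)))) := by
            refine ENNReal.Tendsto.const_mul ?_ (Or.inr hgf.ne)
            refine ENNReal.tendsto_ofReal ?_
            refine Filter.Tendsto.const_mul _ ?_
            exact ((Real.continuousAt_rpow_const 0 (-s) (Or.inr (by linarith))).tendsto).mono_left
              nhdsWithin_le_nhds
          rw [Real.zero_rpow (by linarith), mul_zero, ENNReal.ofReal_zero, mul_zero] at hlim
          refine ge_of_tendsto hlim ?_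
          have h5 : Ioc (0 : ℝ) 1 ∈ nhdsWithin (0 : ℝ) (Ioi 0) := Ioc_mem_nhdsGT one_pos
          filter_upwards [h5] with ρ hρ
          have h6 := key ρ hρ.1 hρ.2
          rwa [h0, zero_mul, mul_zero, add_zero] at h6
        exact h4.trans zero_le
      · obtain ⟨h, hh⟩ : ∃ h : ℝ, nH p H = ENNReal.ofReal h :=
          ⟨(nH p H).toReal, (ENNReal.ofReal_toReal hhf.ne).symm⟩
        obtain ⟨g, hg⟩ : ∃ g : ℝ, nD p H = ENNReal.ofReal g :=
          ⟨(nD p H).toReal, (ENNReal.ofReal_toReal hgf.ne).symm⟩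
        have hh0 : 0 < h := by
          rw [hh] at h0
          by_contra hc
          exact h0 (ENNReal.ofReal_of_nonpos (not_lt.1 hc))
        have hhg : h < g := by
          rw [hh, hg] at hgh
          exact (ENNReal.ofReal_lt_ofReal_iff_of_nonneg hh0.le).1 hgh
        have hg0 : 0 < g := hh0.trans hhg
        have h7 := key (h / g) (div_pos hh0 hg0) ((div_le_one hg0).2 hhg.le)
        refine h7.trans ?_
        obtain ⟨e1, e2⟩ := intw_alg (τ := -s) hh0 hg0 C1
        have hA : 0 < h ^ (-s) * g ^ (s + 1) :=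
          mul_pos (Real.rpow_pos_of_pos hh0 _) (Real.rpow_pos_of_pos hg0 _)
        rw [show 1 - -s = s + 1 by ring] at e1 e2
        rw [hh, hg, ENNReal.ofReal_rpow_of_pos hh0, ENNReal.ofReal_rpow_of_pos hg0,
          ← ENNReal.ofReal_mul hg0.le, ← ENNReal.ofReal_mul hh0.le, e1, e2,
          ← ENNReal.ofReal_mul hC2, ← ENNReal.ofReal_mul (Real.rpow_pos_of_pos hh0 _).le,
          ← ENNReal.ofReal_add (by positivity) (by positivity),
          ← ENNReal.ofReal_mul (by positivity)]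
        refine ENNReal.ofReal_le_ofReal ?_
        linarith [hA.le]

end

end SVT
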