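import Pool.Agent.SVT.Defs
import Pool.Agent.TN.Bas
import Pool.Agent.H68.VD.Flux

/-!
# Project SVT (MP_b0bf68_gt), row SVT-1: the group of symplectic maps of the torus
-/

set_option autoImplicit false

open MeasureTheory Set Pool.Agent.H68.VD TN
open scoped ENNReal ContDiff

namespace SVT

noncomputable section

variable {n : ℕ}

private theorem Sg_ip {φ : ℝ → Eu (n + n) → Eu (n + n)} (h : SPath φ) :
    IsPath (TrA.sub (lat_deck (n + n))) φ :=
  (TrA.path_iff (lat_deck (n + n)) φ).1 h.path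

theorem sg_trans (z : Eu (n + n)) : SG (fun x => x + z) := by
  have hfd : ∀ (t : ℝ) (x : Eu (n + n)), fderiv ℝ (fun x : Eu (n + n) => x + t • z) x =
      ContinuousLinearMap.id ℝ (Eu (n + n)) := by
    intro t x
    rw [fderiv_add_const]
    exact fderiv_fun_id
  refine ⟨fun t x => x + t • z, ⟨⟨?_, ?_, ?_, ?_⟩, ?_⟩, ?_, ?_⟩
  · exact contDiff_snd.add (contDiff_fst.smul contDiff_const)
  · intro t
    constructor
    · intro x y hxy
      exact add_right_cancel hxy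
    · intro y
      exact ⟨y - t • z, sub_add_cancel _ _⟩
  · intro t x
    show (fderiv ℝ (fun x : Eu (n + n) => x + t • z) x).det = 1
    rw [hfd]
    exact LinearMap.det_id
  · rintro t _ ⟨k, rfl⟩ x
    show x + iv k + t • z = x + t • z + iv k
    abel
  · intro t x v w
    show om (fderiv ℝ (fun x : Eu (n + n) => x + t • z) x v)
      (fderiv ℝ (fun x : Eu (n + n) => x + t • z) x w) = om v w
    rw [hfd]
    rfl
  · funext x
    show x + (0 : ℝ) • z = x
    rw [zero_smul, add_zero]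
  · funext x
    show x + (1 : ℝ) • z = x + z
    rw [one_smul]

theorem sg_id : SG (n := n) id := by
  have h := sg_trans (n := n) 0
  have h1 : (fun x : Eu (n + n) => x + 0) = id := by
    funext x
    exact add_zero x
  rw [h1] at h
  exact h

theorem sg_bij {f : Eu (n + n) → Eu (n + n)} (hf : SG f) : Function.Bijective f := by
  obtain ⟨φ, hφ, -, rfl⟩ := hf
  exact hφ.path.bij 1

theorem sg_smooth {f : Eu (n + n) → Eu (n + n)} (hf : SG f) : ContDiff ℝ ∞ f := by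
  obtain ⟨φ, hφ, -, rfl⟩ := hf
  exact hφ.path.smooth.comp (contDiff_const.prodMk contDiff_id)

theorem sg_equi {f : Eu (n + n) → Eu (n + n)} (hf : SG f) (x : Eu (n + n)) (k : Fin (n + n) → ℤ) :
    f (x + iv k) = f x + iv k := by
  obtain ⟨φ, hφ, -, rfl⟩ := hf
  exact hφ.path.equi 1 _ ⟨k, rfl⟩ x

theorem sg_inv {f : Eu (n + n) → Eu (n + n)} (hf : SG f) : SG (Function.invFun f) := by
  obtain ⟨k, hk, -, h2, -⟩ := right_div hf hf
  have h3 : Function.invFun f = k := by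
    funext x
    have h4 : Function.invFun f (f (k x)) = k x := Function.leftInverse_invFun (sg_bij hf).1 (k x)
    rw [h2] at h4
    exact h4
  rw [h3]
  exact hk

theorem sg_comp {f g : Eu (n + n) → Eu (n + n)} (hf : SG f) (hg : SG g) :
    SG (fun x => f (g x)) := by
  obtain ⟨k, hk, h1, h2, -⟩ := right_div hg hg
  obtain ⟨l, -, h3, -, h4, -⟩ := right_div hk hf
  have h5 : l = g := by
    funext x
    have h6 := h3 (g x)
    rw [h1] at h6
    exact h6
  rw [h5] at h4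
  exact h4

theorem inv_smooth {φ : ℝ → Eu (n + n) → Eu (n + n)} (h : SPath φ) :
    ContDiff ℝ ∞ (fun z : ℝ × Eu (n + n) => Function.invFun (φ z.1) z.2) :=
  (FamA.isFamInv (Sg_ip h)).smooth

/-- a continuous function which is periodic in space is bounded -/
private theorem Sg_bdd {g : ℝ × Eu (n + n) → ℝ} (hg : Continuous g)
    (hp : ∀ t x (k : Fin (n + n) → ℤ), g (t, x + iv k) = g (t, x)) :
    ∃ C : ℝ, 0 ≤ C ∧ ∀ t ∈ Icc (0 : ℝ) 1, ∀ x, |g (t, x)| ≤ C := by
  have hK : IsCompact ((Set.Icc (0 : ℝ) 1) ×ˢ {x : Eu (n + n) | ∀ i, x i ∈ Set.Icc (0 : ℝ) 1}) :=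
    isCompact_Icc.prod HsA.closed_compact
  obtain ⟨C, hC⟩ := hK.exists_bound_of_continuousOn hg.continuousOn
  refine ⟨max C 0, le_max_right _ _, fun t ht x => ?_⟩
  set y : Eu (n + n) := WithLp.toLp 2 (fun j => Int.fract (x j)) with hy
  have hxy : x = y + iv (fun j => ⌊x j⌋) := by
    ext j
    simp [hy, iv]
  rw [hxy, hp]
  have h1 := hC (t, y) ⟨ht, fun i => ⟨Int.fract_nonneg _, (Int.fract_lt_one _).le⟩⟩
  exact (le_of_eq (Real.norm_eq_abs _).symm).trans (h1.trans (le_max_left _ _))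

private theorem Sg_fd {F' : Type} [NormedAddCommGroup F'] [NormedSpace ℝ F']
    {g : ℝ → Eu (n + n) → F'} (hg : ContDiff ℝ ∞ (fun z : ℝ × Eu (n + n) => g z.1 z.2)) :
    Continuous (fun z : ℝ × Eu (n + n) => ‖fderiv ℝ (g z.1) z.2‖) := by
  have h1 : (fun z : ℝ × Eu (n + n) => fderiv ℝ (g z.1) z.2) = fun z : ℝ × Eu (n + n) =>
      (fderiv ℝ (fun z : ℝ × Eu (n + n) => g z.1 z.2) z).comp
        (ContinuousLinearMap.inr ℝ ℝ (Eu (n + n))) := by
    funext z
    have h2 : HasFDerivAt (fun x : Eu (n + n) => ((z.1, x) : ℝ × Eu (n + n)))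
        (ContinuousLinearMap.inr ℝ ℝ (Eu (n + n))) z.2 := hasFDerivAt_prodMk_right z.1 z.2
    have h3 : HasFDerivAt (fun z : ℝ × Eu (n + n) => g z.1 z.2)
        (fderiv ℝ (fun z : ℝ × Eu (n + n) => g z.1 z.2) (z.1, z.2)) (z.1, z.2) :=
      (hg.differentiable (by simp) _).hasFDerivAt
    exact (h3.comp z.2 h2).fderiv
  have h4 : Continuous (fun z : ℝ × Eu (n + n) => fderiv ℝ (g z.1) z.2) := by
    rw [h1]
    exact (hg.continuous_fderiv (by simp)).clm_comp continuous_const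
  exact h4.norm

theorem path_bd {φ : ℝ → Eu (n + n) → Eu (n + n)} (h : SPath φ) :
    ∃ C : ℝ, 1 ≤ C ∧ ∀ t ∈ Icc (0 : ℝ) 1, ∀ x, ‖fderiv ℝ (φ t) x‖ ≤ C := by
  obtain ⟨C, hC, h1⟩ := Sg_bdd (n := n) (Sg_fd h.path.smooth) (fun t x k => by
    show ‖fderiv ℝ (φ t) (x + iv k)‖ = ‖fderiv ℝ (φ t) x‖
    rw [← fderiv_comp_add_right]
    have h2 : (fun y => φ t (y + iv k)) = fun y => φ t y + iv k := by
      funext y
      exact h.path.equi t _ ⟨k, rfl⟩ y
    rw [h2, fderiv_add_const])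
  refine ⟨max C 1, le_max_right _ _, fun t ht x => ?_⟩
  have h3 := h1 t ht x
  rw [abs_of_nonneg (norm_nonneg _)] at h3
  exact h3.trans (le_max_left _ _)

theorem sg_bd {f : Eu (n + n) → Eu (n + n)} (hf : SG f) :
    ∃ C : ℝ, 1 ≤ C ∧ ∀ x, ‖fderiv ℝ f x‖ ≤ C := by
  obtain ⟨φ, hφ, -, rfl⟩ := hf
  obtain ⟨C, hC, h⟩ := path_bd hφ
  exact ⟨C, hC, h 1 ⟨zero_le_one, le_rfl⟩⟩

theorem ham_bd {H : ℝ → Eu (n + n) → ℝ}
    (hH : ContDiff ℝ ∞ (fun z : ℝ × Eu (n + n) => H z.1 z.2)) (hp : ∀ t, Per (H t)) :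
    ∃ C : ℝ, 0 ≤ C ∧ ∀ t ∈ Icc (0 : ℝ) 1, ∀ x, |H t x| ≤ C ∧ ‖fderiv ℝ (H t) x‖ ≤ C := by
  obtain ⟨C, hC, h1⟩ := Sg_bdd (n := n) hH.continuous (fun t x k => hp t x k)
  obtain ⟨C', hC', h1'⟩ := Sg_bdd (n := n) (Sg_fd hH) (fun t x k => by
    show ‖fderiv ℝ (H t) (x + iv k)‖ = ‖fderiv ℝ (H t) x‖
    rw [← fderiv_comp_add_right]
    have h2 : (fun y => H t (y + iv k)) = fun y => H t y := by
      funext y
      exact hp t y k
    rw [h2])
  refine ⟨max C C', hC.trans (le_max_left _ _), fun t ht x => ⟨(h1 t ht x).trans (le_max_left _ _), ?_⟩⟩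
  have h3 := h1' t ht x
  rw [abs_of_nonneg (norm_nonneg _)] at h3
  exact h3.trans (le_max_right _ _)

/-- the maps preserve the integral of periodic functions -/
theorem sg_cov {f : Eu (n + n) → Eu (n + n)} (hf : SG f) {F : Eu (n + n) → ℝ≥0∞} (hF : Measurable F)
    (hp : Per F) : ∫⁻ x in cube (n + n), F (f x) = ∫⁻ x in cube (n + n), F x := by
  obtain ⟨φ, hφ, -, rfl⟩ := hf
  have hf : ContDiff ℝ ∞ (φ 1) := hφ.path.smooth.comp (contDiff_const.prodMk contDiff_id)
  have hb := hφ.path.bij 1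
  have hd : ∀ x, |(fderiv ℝ (φ 1) x).det| = 1 := fun x => by rw [hφ.path.det 1 x, abs_one]
  have hσ : ∀ (x : Eu (n + n)) (k : Fin (n + n) → ℤ), φ 1 (x + iv k) = φ 1 x + iv k :=
    fun x k => hφ.path.equi 1 _ ⟨k, rfl⟩ x
  have hemb : MeasurableEmbedding (φ 1) := hf.continuous.measurableEmbedding hb.1
  have hmp : MeasurePreserving (φ 1) (volume : Measure (Eu (n + n))) volume := by
    refine ⟨hf.continuous.measurable, ?_⟩
    have h1 := map_withDensity_abs_det_fderiv_eq_addHaar (volume : Measure (Eu (n + n)))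
      (f := φ 1) (s := Set.univ) (f' := fun x => fderiv ℝ (φ 1) x) MeasurableSet.univ.nullMeasurableSet
      (fun x _ => (hf.differentiable (by simp) x).hasFDerivAt.hasFDerivWithinAt) hb.1.injOn
    simp only [hd, ENNReal.ofReal_one, Measure.restrict_univ, Set.image_univ,
      hb.2.range_eq] at h1
    have h2 : (volume : Measure (Eu (n + n))).withDensity (fun _ => (1 : ℝ≥0∞)) = volume :=
      withDensity_one
    rwa [h2] at h1
  have hfd : IsAddFundamentalDomain (FluxA.Lt (n + n)) (φ 1 ⁻¹' cube (n + n))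
      (volume : Measure (Eu (n + n))) := by
    refine HsA.cube_dom.preimage_of_equiv hmp.quasiMeasurePreserving
      (e := fun g => g) Function.bijective_id ?_
    intro g x
    obtain ⟨k, rfl⟩ := (FluxA.eqv (n + n)).surjective g
    show φ 1 ((iv k : Eu (n + n)) + x) = (iv k : Eu (n + n)) + φ 1 x
    rw [add_comm (iv k : Eu (n + n)) x, hσ, add_comm (φ 1 x) (iv k : Eu (n + n))]
  have hinv : VAddInvariantMeasure (FluxA.Lt (n + n)) (Eu (n + n)) volume :=
    inferInstanceAs (VAddInvariantMeasure (FluxA.Lt (n + n)).toAddSubgroup (Eu (n + n)) volume)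
  have hper : Per (fun x => F (φ 1 x)) := by
    intro x k
    show F (φ 1 (x + iv k)) = F (φ 1 x)
    rw [hσ, hp]
  have h3 : ∫⁻ x in cube (n + n), F (φ 1 x) = ∫⁻ x in φ 1 ⁻¹' cube (n + n), F (φ 1 x) :=
    HsA.cube_dom.setLIntegral_eq hfd _ fun g x => HsA.per_vadd (fun x => F (φ 1 x)) hper g x
  rw [h3]
  exact hmp.setLIntegral_comp_preimage HsA.cube_meas hF

end

end SVT
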