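import Pool.Agent.SVT.Defs
import Pool.Agent.TN.Bas
import Pool.Agent.SFl.Symp

/-!
# Project SVT, row SVT-2: calculus of Hamiltonian paths
-/

set_option autoImplicit false

open MeasureTheory Set Pool.Agent.H68.VD TN
open scoped ENNReal ContDiff

namespace SVT

noncomputable section

variable {n : ℕ}

/-! ### paths -/

private theorem hp_ip {φ : ℝ → Eu (n + n) → Eu (n + n)} (h : SPath φ) :
    IsPath (TrA.sub (lat_deck (n + n))) φ :=
  (TrA.path_iff (lat_deck (n + n)) φ).1 h.path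

private theorem hp_sp_comp {f g : Eu (n + n) → Eu (n + n)} (hf : Differentiable ℝ f)
    (hg : Differentiable ℝ g)
    (sf : ∀ x v w, om (fderiv ℝ f x v) (fderiv ℝ f x w) = om v w)
    (sg : ∀ x v w, om (fderiv ℝ g x v) (fderiv ℝ g x w) = om v w) (x v w : Eu (n + n)) :
    om (fderiv ℝ (fun x => f (g x)) x v) (fderiv ℝ (fun x => f (g x)) x w) = om v w := by
  have h1 : fderiv ℝ (fun x => f (g x)) x = (fderiv ℝ f (g x)).comp (fderiv ℝ g x) :=
    fderiv_comp x (hf _) (hg _)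
  rw [h1]
  show om (fderiv ℝ f (g x) (fderiv ℝ g x v)) (fderiv ℝ f (g x) (fderiv ℝ g x w)) = om v w
  rw [sf, sg]

/-- the derivative of a right inverse -/
private theorem hp_fg {f g : Eu (n + n) → Eu (n + n)} (hf : Differentiable ℝ f)
    (hg : Differentiable ℝ g) (hfg : ∀ x, f (g x) = x) (x v : Eu (n + n)) :
    fderiv ℝ f (g x) (fderiv ℝ g x v) = v := by
  have h1 : fderiv ℝ (fun x => f (g x)) x = (fderiv ℝ f (g x)).comp (fderiv ℝ g x) :=
    fderiv_comp x (hf _) (hg _)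
  have h2 : (fun x => f (g x)) = fun x => x := funext hfg
  rw [h2] at h1
  have h4 := congrArg (fun L : Eu (n + n) →L[ℝ] Eu (n + n) => L v) h1
  have h5 : fderiv ℝ (fun x : Eu (n + n) => x) x v = v := by
    rw [fderiv_fun_id]; rfl
  exact h4.symm.trans h5

private theorem hp_smooth_at {φ : ℝ → Eu (n + n) → Eu (n + n)}
    (h : ContDiff ℝ ∞ (fun q : ℝ × Eu (n + n) => φ q.1 q.2)) (t : ℝ) : ContDiff ℝ ∞ (φ t) :=
  h.comp (contDiff_const.prodMk contDiff_id)

private theorem hp_diff_at {φ : ℝ → Eu (n + n) → Eu (n + n)}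
    (h : ContDiff ℝ ∞ (fun q : ℝ × Eu (n + n) => φ q.1 q.2)) (t : ℝ) : Differentiable ℝ (φ t) :=
  (hp_smooth_at h t).differentiable (by simp)

private theorem hp_right {φ : ℝ → Eu (n + n) → Eu (n + n)} (h : SPath φ) (t : ℝ) (x : Eu (n + n)) :
    φ t (Function.invFun (φ t) x) = x := Function.rightInverse_invFun (h.path.bij t).2 x

private theorem hp_left {φ : ℝ → Eu (n + n) → Eu (n + n)} (h : SPath φ) (t : ℝ) (x : Eu (n + n)) :
    Function.invFun (φ t) (φ t x) = x := Function.leftInverse_invFun (h.path.bij t).1 x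

private theorem hp_inv_path {φ : ℝ → Eu (n + n) → Eu (n + n)} (h : SPath φ) :
    FPath (lat (n + n)) (fun t => Function.invFun (φ t)) :=
  (TrA.path_iff (lat_deck (n + n)) _).2 (FamA.isFamInv (hp_ip h))

private theorem hp_dinv {φ : ℝ → Eu (n + n) → Eu (n + n)} (h : SPath φ) (t : ℝ) :
    Differentiable ℝ (Function.invFun (φ t)) :=
  hp_diff_at (φ := fun t => Function.invFun (φ t)) (hp_inv_path h).smooth t

/-- the derivatives of the map and of its inverse -/
private theorem hp_dd {φ : ℝ → Eu (n + n) → Eu (n + n)} (h : SPath φ) (t : ℝ) (x v : Eu (n + n)) :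
    fderiv ℝ (φ t) (Function.invFun (φ t) x) (fderiv ℝ (Function.invFun (φ t)) x v) = v :=
  hp_fg (hp_diff_at h.path.smooth t) (hp_dinv h t) (hp_right h t) x v

private theorem hp_sinv {φ : ℝ → Eu (n + n) → Eu (n + n)} (h : SPath φ) :
    SPath (fun t => Function.invFun (φ t)) := by
  refine ⟨hp_inv_path h, fun t x v w => ?_⟩
  rw [← h.symp t (Function.invFun (φ t) x), hp_dd h, hp_dd h]

private theorem hp_scomp {φ ψ : ℝ → Eu (n + n) → Eu (n + n)} (h : SPath φ) (k : SPath ψ) :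
    SPath (fun t x => φ t (ψ t x)) :=
  ⟨(TrA.path_iff (lat_deck (n + n)) _).2 (FamA.isFamComp (hp_ip h) (hp_ip k)), fun t =>
    hp_sp_comp (hp_diff_at h.path.smooth t) (hp_diff_at k.path.smooth t) (h.symp t) (k.symp t)⟩

private theorem hp_sre {φ : ℝ → Eu (n + n) → Eu (n + n)} (h : SPath φ) {τ : ℝ → ℝ}
    (hτ : ContDiff ℝ ∞ τ) : SPath (fun t => φ (τ t)) :=
  ⟨(TrA.path_iff (lat_deck (n + n)) _).2 (FamA.isFamRe (E' := ℝ) (hp_ip h) hτ),
    fun t => h.symp (τ t)⟩

private theorem hp_sconst {f : Eu (n + n) → Eu (n + n)} (hf : SG f) : SPath (fun _ : ℝ => f) := by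
  obtain ⟨φ, hφ, -, h1⟩ := hf
  have h2 := hp_sre hφ (τ := fun _ => (1 : ℝ)) contDiff_const
  simp only [h1] at h2
  exact h2

private theorem hp_sg_inv {f : Eu (n + n) → Eu (n + n)} (hf : SG f) : SG (Function.invFun f) := by
  obtain ⟨φ, hφ, h0, h1⟩ := hf
  refine ⟨fun t => Function.invFun (φ t), hp_sinv hφ, ?_, ?_⟩
  · show Function.invFun (φ 0) = id
    rw [h0]
    funext x
    exact Function.leftInverse_invFun (f := (id : Eu (n + n) → Eu (n + n))) Function.injective_id x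
  · show Function.invFun (φ 1) = Function.invFun f
    rw [h1]

private theorem hp_ii {φ : ℝ → Eu (n + n) → Eu (n + n)} (h : SPath φ) (t : ℝ) :
    Function.invFun (Function.invFun (φ t)) = φ t := by
  funext x
  apply ((hp_sinv h).path.bij t).1
  show Function.invFun (φ t) (Function.invFun (Function.invFun (φ t)) x) =
    Function.invFun (φ t) (φ t x)
  rw [hp_left h]
  exact hp_right (hp_sinv h) t x

/-- the adjoint relation -/
private theorem hp_om {φ : ℝ → Eu (n + n) → Eu (n + n)} (h : SPath φ) (t : ℝ)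
    (x v w : Eu (n + n)) : om w (fderiv ℝ (Function.invFun (φ t)) x v) =
      om (fderiv ℝ (φ t) (Function.invFun (φ t) x) w) v := by
  rw [← h.symp t (Function.invFun (φ t) x) w, hp_dd h]

/-! ### linear algebra -/

private theorem hp_Jadd (x y : Eu (n + n)) : Jm (x + y) = Jm x + Jm y := map_add (JL n) x y

private theorem hp_Jsmul (c : ℝ) (x : Eu (n + n)) : Jm (c • x) = c • Jm x := map_smul (JL n) c x

private theorem hp_Jzero : Jm (0 : Eu (n + n)) = 0 := map_zero (JL n)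

private theorem hp_inj {a b : Eu (n + n)} (h : innerSL ℝ (Jm a) = innerSL ℝ (Jm b)) : a = b := by
  have h1 : Jm a = Jm b := by
    refine ext_inner_right ℝ fun v => ?_
    exact congrArg (fun L : Eu (n + n) →L[ℝ] ℝ => L v) h
  have h2 : Jm (a - b) = 0 := by
    have h3 : Jm (a - b) = Jm a - Jm b := map_sub (JL n) a b
    rw [h3, h1, sub_self]
  have h3 := norm_Jm (a - b)
  rw [h2, norm_zero] at h3
  exact sub_eq_zero.1 (norm_eq_zero.1 h3.symm)

/-! ### the calculus -/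

theorem HP.inv {φ : ℝ → Eu (n + n) → Eu (n + n)} {H : ℝ → Eu (n + n) → ℝ} (h : HP φ H) :
    HP (fun t => Function.invFun (φ t)) (fun t x => -H t (φ t x)) := by
  have hi := hp_sinv h.sp
  refine ⟨hi, (h.Hs.comp (contDiff_fst.prodMk h.sp.path.smooth)).neg, ?_, ?_⟩
  · intro t x k
    show -H t (φ t (x + iv k)) = -H t (φ t x)
    have h1 : φ t (x + iv k) = φ t x + iv k := h.sp.path.equi t _ ⟨k, rfl⟩ x
    rw [h1, h.Hp t]
  · intro t x
    -- the velocity of the inverse path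
    have hv : vel (fun t => Function.invFun (φ t)) t x =
        -(fderiv ℝ (Function.invFun (φ t)) (φ t x) (vel φ t (φ t x))) := by
      have h1 := FamA.velComp (hp_ip hi) (hp_ip h.sp) t (φ t x)
      have h2 : (fun (t : ℝ) (x : Eu (n + n)) => Function.invFun (φ t) (φ t x)) = fun _ x => x := by
        funext t x
        exact hp_left h.sp t x
      have h3 : vel (fun (_ : ℝ) (x : Eu (n + n)) => x) t (Function.invFun (φ t) (φ t x)) = 0 := by
        unfold vel
        exact deriv_const _ _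
      simp only [h2] at h1
      rw [h3, hp_left h.sp] at h1
      exact eq_neg_of_add_eq_zero_left h1.symm
    have h1 : HasFDerivAt (φ t) (fderiv ℝ (φ t) x) x := (hp_diff_at h.sp.path.smooth t x).hasFDerivAt
    refine ((h.Hd t (φ t x)).comp x h1).neg.congr_fderiv ?_
    ext v
    show -(inner ℝ (Jm (vel φ t (φ t x))) (fderiv ℝ (φ t) x v) : ℝ) =
      inner ℝ (Jm (vel (fun t => Function.invFun (φ t)) t x)) v
    rw [← om_J, ← om_J, hv]
    have h2 := hp_om hi t x v (vel φ t (φ t x))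
    simp only [hp_ii h.sp] at h2
    rw [h2, om_J, om_J]
    have h3 : ∀ y : Eu (n + n), Jm (-y) = -(Jm y) := fun y => map_neg (JL n) y
    rw [h3, inner_neg_left]

theorem HP.comp {φ ψ : ℝ → Eu (n + n) → Eu (n + n)} {H K : ℝ → Eu (n + n) → ℝ} (h : HP φ H)
    (k : HP ψ K) : HP (fun t x => φ t (ψ t x)) (fun t x => H t x + K t (Function.invFun (φ t) x)) := by
  have hi := hp_sinv h.sp
  refine ⟨hp_scomp h.sp k.sp, h.Hs.add (k.Hs.comp (contDiff_fst.prodMk hi.path.smooth)), ?_, ?_⟩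
  · intro t x m
    show H t (x + iv m) + K t (Function.invFun (φ t) (x + iv m)) =
      H t x + K t (Function.invFun (φ t) x)
    have h1 : Function.invFun (φ t) (x + iv m) = Function.invFun (φ t) x + iv m :=
      hi.path.equi t _ ⟨m, rfl⟩ x
    rw [h1, h.Hp t, k.Hp t]
  · intro t x
    have hv : vel (fun t x => φ t (ψ t x)) t x = vel φ t x +
        fderiv ℝ (φ t) (Function.invFun (φ t) x) (vel ψ t (Function.invFun (φ t) x)) := by
      have h1 := FamA.velComp (hp_ip h.sp) (hp_ip k.sp) t (Function.invFun (φ t) x)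
      rw [hp_right h.sp] at h1
      exact h1
    have h1 : HasFDerivAt (Function.invFun (φ t)) (fderiv ℝ (Function.invFun (φ t)) x) x :=
      (hp_dinv h.sp t x).hasFDerivAt
    refine ((h.Hd t x).add ((k.Hd t (Function.invFun (φ t) x)).comp x h1)).congr_fderiv ?_
    ext v
    show (inner ℝ (Jm (vel φ t x)) v : ℝ) + inner ℝ (Jm (vel ψ t (Function.invFun (φ t) x)))
      (fderiv ℝ (Function.invFun (φ t)) x v) = inner ℝ (Jm (vel (fun t x => φ t (ψ t x)) t x)) v
    rw [hv, hp_Jadd, inner_add_left, ← om_J (vel ψ t (Function.invFun (φ t) x)), hp_om h.sp, om_J]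

theorem HP.time {φ : ℝ → Eu (n + n) → Eu (n + n)} {H : ℝ → Eu (n + n) → ℝ} (h : HP φ H) {τ : ℝ → ℝ}
    (hτ : ContDiff ℝ ∞ τ) : HP (fun t => φ (τ t)) (fun t x => deriv τ t * H (τ t) x) := by
  have hd : ContDiff ℝ ∞ (deriv τ) := (contDiff_infty_iff_deriv.1 hτ).2
  refine ⟨hp_sre h.sp hτ, (hd.comp contDiff_fst).mul
    (h.Hs.comp ((hτ.comp contDiff_fst).prodMk contDiff_snd)), ?_, ?_⟩
  · intro t x k
    show deriv τ t * H (τ t) (x + iv k) = deriv τ t * H (τ t) x
    rw [h.Hp (τ t)]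
  · intro t x
    have hv : vel (fun t => φ (τ t)) t x = deriv τ t • vel φ (τ t) x :=
      FamA.velRe (hp_ip h.sp) τ t (hτ.differentiable (by simp) t) x
    refine ((h.Hd (τ t) x).const_mul (deriv τ t)).congr_fderiv ?_
    ext v
    show deriv τ t • (inner ℝ (Jm (vel φ (τ t) x)) v : ℝ) =
      inner ℝ (Jm (vel (fun t => φ (τ t)) t x)) v
    rw [hv, hp_Jsmul, real_inner_smul_left]
    rfl

theorem HP.addc {φ : ℝ → Eu (n + n) → Eu (n + n)} {H : ℝ → Eu (n + n) → ℝ} (h : HP φ H) {c : ℝ → ℝ}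
    (hc : ContDiff ℝ ∞ c) : HP φ (fun t x => H t x + c t) := by
  refine ⟨h.sp, h.Hs.add (hc.comp contDiff_fst), ?_, fun t x => (h.Hd t x).add_const (c t)⟩
  intro t x k
  show H t (x + iv k) + c t = H t x + c t
  rw [h.Hp t]

theorem HP.cst {f : Eu (n + n) → Eu (n + n)} (hf : SG f) : HP (fun _ => f) (fun _ _ => 0) := by
  refine ⟨hp_sconst hf, contDiff_const, fun t x k => rfl, fun t x => ?_⟩
  have hv : vel (fun _ => f) t x = 0 := by
    unfold vel
    exact deriv_const _ _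
  rw [hv, hp_Jzero, map_zero]
  exact hasFDerivAt_const (0 : ℝ) x

theorem HP.left {φ : ℝ → Eu (n + n) → Eu (n + n)} {H : ℝ → Eu (n + n) → ℝ} (h : HP φ H)
    {f : Eu (n + n) → Eu (n + n)} (hf : SG f) :
    HP (fun t x => f (φ t (Function.invFun f x))) (fun t x => H t (Function.invFun f x)) := by
  have h1 := ((HP.cst hf).comp h).comp (HP.cst (hp_sg_inv hf))
  simpa only [zero_add, add_zero] using h1

theorem HP.sg {φ : ℝ → Eu (n + n) → Eu (n + n)} {H : ℝ → Eu (n + n) → ℝ} (h : HP φ H) (h0 : φ 0 = id)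
    (t : ℝ) : SG (φ t) := by
  refine ⟨fun s => φ (s * t), hp_sre h.sp (contDiff_id.mul contDiff_const), ?_, ?_⟩
  · show φ (0 * t) = id
    rw [zero_mul, h0]
  · show φ (1 * t) = φ t
    rw [one_mul]

/-- the orbit of a point -/
private theorem hp_curve {φ : ℝ → Eu (n + n) → Eu (n + n)} (h : SPath φ) {T : ℝ}
    {γ : ℝ → Eu (n + n)} {x : Eu (n + n)} (h0 : φ 0 x = γ 0)
    (hγ : ∀ t ∈ Ioo (-T) T, HasDerivAt γ (vel φ t (γ t)) t) :
    ∀ t ∈ Ioo (-T) T, φ t x = γ t :=
  SFl.flow_unique (u := fun z : ℝ × Eu (n + n) => vel φ z.1 z.2) (vel_smooth h)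
    (γ := fun t => φ t x) (γ' := γ) h0 (fun t _ => vel_eq h t x) hγ

/-- two Hamiltonian paths whose Hamiltonians agree near the orbit of a point -/
theorem HP.agree {φ ψ : ℝ → Eu (n + n) → Eu (n + n)} {H K : ℝ → Eu (n + n) → ℝ} (h : HP φ H)
    (k : HP ψ K) {x : Eu (n + n)} (h0 : φ 0 x = ψ 0 x)
    (hx : ∀ t, ∀ᶠ y in nhds (φ t x), K t y = H t y) : ∀ t, ψ t x = φ t x := by
  intro t
  have hv : ∀ s, vel ψ s (φ s x) = vel φ s (φ s x) := by
    intro s
    apply hp_inj
    exact (k.Hd s (φ s x)).unique ((h.Hd s (φ s x)).congr_of_eventuallyEq (hx s))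
  refine hp_curve k.sp (T := |t| + 1) (γ := fun s => φ s x) h0.symm (fun s _ => ?_) t ⟨?_, ?_⟩
  · rw [hv s]
    exact vel_eq h.sp s x
  · have := neg_abs_le t
    linarith
  · have := le_abs_self t
    linarith

/-- a curve with the velocity given by the Hamiltonian is an orbit -/
theorem HP.orbit {φ : ℝ → Eu (n + n) → Eu (n + n)} {H : ℝ → Eu (n + n) → ℝ} (h : HP φ H) {T : ℝ}
    {γ γ' : ℝ → Eu (n + n)} {x : Eu (n + n)} (h0 : φ 0 x = γ 0)
    (hγ : ∀ t ∈ Ioo (-T) T, HasDerivAt γ (γ' t) t)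
    (hH : ∀ t ∈ Ioo (-T) T, HasFDerivAt (H t) (innerSL ℝ (Jm (γ' t))) (γ t)) :
    ∀ t ∈ Ioo (-T) T, φ t x = γ t := by
  refine hp_curve h.sp h0 fun t ht => ?_
  have hv : vel φ t (γ t) = γ' t := hp_inj ((h.Hd t (γ t)).unique (hH t ht))
  rw [hv]
  exact hγ t ht

/-- existence (from the rows on smooth flows) -/
theorem exists_hp {H : ℝ → Eu (n + n) → ℝ}
    (hH : ContDiff ℝ ∞ (fun z : ℝ × Eu (n + n) => H z.1 z.2)) (hp : ∀ t, Per (H t)) :
    ∃ φ : ℝ → Eu (n + n) → Eu (n + n), HP φ H ∧ φ 0 = id := by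
  obtain ⟨φ, h1, h2, h3⟩ := SFl.exists_ham_flow hH hp
  exact ⟨φ, ⟨h1, hH, hp, h3⟩, h2⟩

end

end SVT
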