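import Pool.Agent.SVT.Defs

/-!
# SVT-4: smooth steps
-/

set_option autoImplicit false

open MeasureTheory Set Pool.Agent.H68.VD TN
open scoped ENNReal ContDiff

namespace SVT

private theorem step_int {a : ℝ → ℝ} (ha : ContDiff ℝ ∞ a) (hm : Monotone a) (h0 : a 0 = 0)
    (h1 : a 1 = 1) (F : ℝ → ℝ≥0∞) :
    (∫⁻ t in Icc (0 : ℝ) 1, ENNReal.ofReal (deriv a t) * F (a t)) = ∫⁻ t in Icc (0 : ℝ) 1, F t := by
  have hd : ∀ x ∈ Icc (0 : ℝ) 1, HasDerivWithinAt a (deriv a x) (Icc (0 : ℝ) 1) x := by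
    intro x _
    exact ((ha.differentiable (by simp)) x).hasDerivAt.hasDerivWithinAt
  have himg : a '' Icc (0 : ℝ) 1 = Icc (0 : ℝ) 1 := by
    apply Subset.antisymm
    · rintro _ ⟨x, hx, rfl⟩
      exact ⟨h0 ▸ hm hx.1, h1 ▸ hm hx.2⟩
    · have h := intermediate_value_Icc (zero_le_one' ℝ) (f := a) ha.continuous.continuousOn
      rwa [h0, h1] at h
  rw [← lintegral_image_eq_lintegral_deriv_mul_of_monotoneOn measurableSet_Icc hd
    (hm.monotoneOn _) F, himg]

theorem steps : ∃ a b : ℝ → ℝ, ContDiff ℝ ∞ a ∧ ContDiff ℝ ∞ b ∧ a 0 = 0 ∧ a 1 = 1 ∧ b 0 = 0 ∧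
    b 1 = 1 ∧ (∀ t, 0 ≤ deriv a t) ∧ (∀ t, 0 ≤ deriv b t) ∧
    (∀ t ≤ (1 / 2 : ℝ), a t = 0 ∧ deriv a t = 0) ∧ (∀ t, 1 / 2 ≤ t → b t = 1 ∧ deriv b t = 0) ∧
    ∀ F : ℝ → ℝ≥0∞, Measurable F →
      (∫⁻ t in Icc (0 : ℝ) 1, ENNReal.ofReal (deriv a t) * F (a t)) = ∫⁻ t in Icc (0 : ℝ) 1, F t ∧
      (∫⁻ t in Icc (0 : ℝ) 1, ENNReal.ofReal (deriv b t) * F (b t)) = ∫⁻ t in Icc (0 : ℝ) 1, F t := by
  set a : ℝ → ℝ := fun t => Real.smoothTransition (2 * t - 1) with ha
  set b : ℝ → ℝ := fun t => Real.smoothTransition (2 * t) with hb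
  have ca : ContDiff ℝ ∞ a := Real.smoothTransition.contDiff.comp (by fun_prop)
  have cb : ContDiff ℝ ∞ b := Real.smoothTransition.contDiff.comp (by fun_prop)
  have ma : Monotone a := fun s t hst => Real.smoothTransition.monotone (by linarith)
  have mb : Monotone b := fun s t hst => Real.smoothTransition.monotone (by linarith)
  have a0 : a 0 = 0 := Real.smoothTransition.zero_of_nonpos (by norm_num)
  have a1 : a 1 = 1 := Real.smoothTransition.one_of_one_le (by norm_num)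
  have b0 : b 0 = 0 := Real.smoothTransition.zero_of_nonpos (by norm_num)
  have b1 : b 1 = 1 := Real.smoothTransition.one_of_one_le (by norm_num)
  refine ⟨a, b, ca, cb, a0, a1, b0, b1, fun t => ma.deriv_nonneg, fun t => mb.deriv_nonneg,
    ?_, ?_, fun F _ => ⟨step_int ca ma a0 a1 F, step_int cb mb b0 b1 F⟩⟩
  · intro t ht
    have h : a t = 0 := Real.smoothTransition.zero_of_nonpos (by linarith)
    refine ⟨h, ?_⟩
    have hmin : IsLocalMin a t := by
      refine Filter.Eventually.of_forall (fun s => ?_)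
      change a t ≤ a s
      rw [h]
      exact Real.smoothTransition.nonneg _
    exact hmin.deriv_eq_zero
  · intro t ht
    have h : b t = 1 := Real.smoothTransition.one_of_one_le (by linarith)
    refine ⟨h, ?_⟩
    have hmax : IsLocalMax b t := by
      refine Filter.Eventually.of_forall (fun s => ?_)
      change b s ≤ b t
      rw [h]
      exact Real.smoothTransition.le_one _
    exact hmax.deriv_eq_zero

end SVT
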