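import Pool.Agent.SVT.Sg
import Pool.Agent.SVT.Hp
import Pool.Agent.SVT.EE
import Pool.Agent.H68.VD.WPos

/-! # Project SVT: the sawtooth -/

set_option autoImplicit false

open MeasureTheory Set Pool.Agent.H68.VD TN
open scoped ENNReal ContDiff

namespace SVT

noncomputable section

variable {n : ℕ}

/-- a smooth odd function, equal to the sign for `4 η ≤ |y|` -/
def saw_auxg (η y : ℝ) : ℝ := 2 * Real.smoothTransition ((y / (4 * η) + 1) / 2) - 1

theorem saw_auxg_smooth (η : ℝ) : ContDiff ℝ ∞ (saw_auxg η) := by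
  unfold saw_auxg
  have h : ContDiff ℝ ∞ (fun y : ℝ => (y / (4 * η) + 1) / 2) := by
    exact ((contDiff_id.div_const _).add contDiff_const).div_const _
  exact (contDiff_const.mul (Real.smoothTransition.contDiff.comp h)).sub contDiff_const

theorem saw_auxg_neg (η y : ℝ) : saw_auxg η (-y) = -saw_auxg η y := by
  unfold saw_auxg
  have h : ∀ x : ℝ, Real.smoothTransition (1 - x) = 1 - Real.smoothTransition x := by
    intro x
    have hd := Real.smoothTransition.pos_denom x
    have hd' := Real.smoothTransition.pos_denom (1 - x)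
    unfold Real.smoothTransition
    rw [sub_sub_cancel] at hd' ⊢
    rw [div_eq_iff hd'.ne', sub_mul, div_mul_eq_mul_div, add_comm (expNegInvGlue (1 - x)),
      mul_div_assoc, div_self hd.ne']
    ring
  have h2 : (-y / (4 * η) + 1) / 2 = 1 - (y / (4 * η) + 1) / 2 := by ring
  rw [h2, h]
  ring

theorem saw_auxg_abs (η y : ℝ) : |saw_auxg η y| ≤ 1 := by
  unfold saw_auxg
  have h1 := Real.smoothTransition.nonneg ((y / (4 * η) + 1) / 2)
  have h2 := Real.smoothTransition.le_one ((y / (4 * η) + 1) / 2)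
  rw [abs_le]
  constructor <;> linarith

theorem saw_auxg_one {η y : ℝ} (hη : 0 < η) (hy : 4 * η ≤ |y|) : |saw_auxg η y| = 1 := by
  have h1 : ∀ z : ℝ, 4 * η ≤ z → saw_auxg η z = 1 := by
    intro z hz
    unfold saw_auxg
    rw [Real.smoothTransition.one_of_one_le]
    · norm_num
    · have : 1 ≤ z / (4 * η) := by rwa [le_div_iff₀ (by positivity), one_mul]
      linarith
  rcases le_abs.1 hy with h | h
  · rw [h1 y h, abs_one]
  · have := h1 (-y) h
    rw [saw_auxg_neg] at this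
    rw [← abs_neg, this, abs_one]

/-- the slope of the sawtooth -/
def saw_auxt (η t : ℝ) : ℝ := saw_auxg η (Real.sin (2 * Real.pi * t)) / 4

theorem saw_auxt_smooth (η : ℝ) : ContDiff ℝ ∞ (saw_auxt η) := by
  unfold saw_auxt
  exact ((saw_auxg_smooth η).comp (Real.contDiff_sin.comp (contDiff_const.mul contDiff_id))).div_const _

theorem saw_auxt_half (η t : ℝ) : saw_auxt η (t + 1 / 2) = -saw_auxt η t := by
  unfold saw_auxt
  rw [show 2 * Real.pi * (t + 1 / 2) = 2 * Real.pi * t + Real.pi by ring, Real.sin_add_pi,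
    saw_auxg_neg]
  ring

theorem saw_auxt_per (η : ℝ) : Function.Periodic (saw_auxt η) 1 := by
  intro t
  rw [show t + 1 = (t + 1 / 2) + 1 / 2 by ring, saw_auxt_half, saw_auxt_half, neg_neg]

theorem saw_auxt_abs (η t : ℝ) : |saw_auxt η t| ≤ 1 / 4 := by
  unfold saw_auxt
  rw [abs_div, abs_of_pos (by norm_num : (0 : ℝ) < 4)]
  have := saw_auxg_abs η (Real.sin (2 * Real.pi * t))
  linarith

theorem saw_auxt_one {η t : ℝ} (hη : 0 < η) (ht : ∀ m : ℤ, η ≤ |t - m / 2|) :
    |saw_auxt η t| = 1 / 4 := by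
  unfold saw_auxt
  rw [abs_div, abs_of_pos (by norm_num : (0 : ℝ) < 4), saw_auxg_one hη]
  set m : ℤ := round (2 * t) with hm
  have h1 : |2 * t - m| ≤ 1 / 2 := abs_sub_round (2 * t)
  have h2 : |t - m / 2| = |2 * t - m| / 2 := by
    rw [show t - m / 2 = (2 * t - m) / 2 by ring, abs_div, abs_of_pos (by norm_num : (0 : ℝ) < 2)]
  have h3 := ht m
  have hpi := Real.pi_pos
  have h4 : |2 * Real.pi * (t - m / 2)| = 2 * Real.pi * |t - m / 2| := by
    rw [abs_mul, abs_of_pos (by positivity)]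
  have h5 : |2 * Real.pi * (t - m / 2)| ≤ Real.pi / 2 := by
    rw [h4]
    nlinarith
  have h6 := Real.mul_abs_le_abs_sin h5
  rw [h4] at h6
  have h7 : 2 / Real.pi * (2 * Real.pi * |t - m / 2|) = 4 * |t - m / 2| := by
    field_simp
    ring
  rw [h7] at h6
  have h8 : |Real.sin (2 * Real.pi * (t - m / 2))| = |Real.sin (2 * Real.pi * t)| := by
    rw [show 2 * Real.pi * (t - m / 2) = 2 * Real.pi * t - m * Real.pi by ring,
      Real.sin_sub_int_mul_pi, abs_mul, abs_zpow, abs_neg, abs_one, one_zpow, one_mul]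
  rw [← h8]
  linarith

/-- the sawtooth -/
def saw_auxk (η t : ℝ) : ℝ := ∫ s in (0 : ℝ)..t, saw_auxt η s

theorem saw_auxk_deriv (η t : ℝ) : HasDerivAt (saw_auxk η) (saw_auxt η t) t := by
  unfold saw_auxk
  exact (saw_auxt_smooth η).continuous.integral_hasStrictDerivAt 0 t |>.hasDerivAt

theorem saw_auxk_smooth (η : ℝ) : ContDiff ℝ ∞ (saw_auxk η) := by
  rw [contDiff_infty_iff_deriv]
  refine ⟨fun t => (saw_auxk_deriv η t).differentiableAt, ?_⟩
  have : deriv (saw_auxk η) = saw_auxt η := funext fun t => (saw_auxk_deriv η t).deriv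
  rw [this]
  exact saw_auxt_smooth η

theorem saw_auxk_per (η : ℝ) : Function.Periodic (saw_auxk η) 1 := by
  have hc := (saw_auxt_smooth η).continuous
  have hi : ∀ a b : ℝ, IntervalIntegrable (saw_auxt η) volume a b := fun a b =>
    hc.intervalIntegrable a b
  have h0 : (∫ s in (0 : ℝ)..1, saw_auxt η s) = 0 := by
    rw [← intervalIntegral.integral_add_adjacent_intervals (hi 0 (1 / 2)) (hi (1 / 2) 1)]
    have h : (∫ s in (0 : ℝ)..(1 / 2), saw_auxt η (s + 1 / 2)) = ∫ s in (1 / 2 : ℝ)..1, saw_auxt η s := by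
      rw [intervalIntegral.integral_comp_add_right]
      norm_num
    rw [← h]
    simp only [saw_auxt_half, intervalIntegral.integral_neg]
    ring
  intro t
  unfold saw_auxk
  rw [← intervalIntegral.integral_add_adjacent_intervals (hi 0 t) (hi t (t + 1)),
    (saw_auxt_per η).intervalIntegral_add_eq t 0, zero_add, h0, add_zero]

theorem saw_auxk_abs (η t : ℝ) : |saw_auxk η t| ≤ 1 / 4 := by
  have h : saw_auxk η t = saw_auxk η (Int.fract t) := by
    have := (saw_auxk_per η).sub_zsmul_eq (x := t) ⌊t⌋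
    rw [← this, zsmul_eq_mul, mul_one]
    rfl
  rw [h]
  unfold saw_auxk
  have h1 : ‖∫ s in (0 : ℝ)..(Int.fract t), saw_auxt η s‖ ≤ 1 / 4 * |Int.fract t - 0| :=
    intervalIntegral.norm_integral_le_of_norm_le_const fun s _ => saw_auxt_abs η s
  rw [Real.norm_eq_abs, sub_zero, abs_of_nonneg (Int.fract_nonneg t)] at h1
  have h2 := (Int.fract_lt_one t).le
  linarith

/-- the direction of the motion -/
def saw_auxv (η : ℝ) (M : ℕ) (x : Eu (n + n)) : Eu n := WithLp.toLp 2 (fun i => saw_auxt η (M * pp x i))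

/-- the Hamiltonian -/
def saw_auxK (η : ℝ) (M : ℕ) (x : Eu (n + n)) : ℝ := (M : ℝ)⁻¹ * ∑ i : Fin n, saw_auxk η (M * pp x i)

theorem saw_auxp_smooth (i : Fin n) : ContDiff ℝ ∞ (fun x : Eu (n + n) => pp x i) := by
  have : (fun x : Eu (n + n) => pp x i) = fun x => x (Fin.natAdd n i) := rfl
  rw [this]
  exact (EuclideanSpace.proj (𝕜 := ℝ) (Fin.natAdd n i)).contDiff

theorem saw_auxK_smooth (η : ℝ) (M : ℕ) : ContDiff ℝ ∞ (saw_auxK (n := n) η M) := by
  unfold saw_auxK
  exact contDiff_const.mul (ContDiff.sum fun i _ =>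
    (saw_auxk_smooth η).comp (contDiff_const.mul (saw_auxp_smooth i)))

theorem saw_auxK_per (η : ℝ) (M : ℕ) : Per (saw_auxK (n := n) η M) := by
  intro x k
  unfold saw_auxK
  congr 1
  refine Finset.sum_congr rfl fun i _ => ?_
  have h : (M : ℝ) * pp (x + iv k) i = M * pp x i + ((M * k (Fin.natAdd n i) : ℤ) : ℝ) * 1 := by
    rw [pp_add, pp_iv]
    simp [iv]
    ring
  rw [h]
  exact (saw_auxk_per η).int_mul _ _

theorem saw_auxK_deriv (η : ℝ) {M : ℕ} (hM : 0 < M) (x : Eu (n + n)) :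
    HasFDerivAt (saw_auxK η M) (innerSL ℝ (pt 0 (saw_auxv η M x))) x := by
  have hM' : (M : ℝ) ≠ 0 := by positivity
  have h1 : ∀ i : Fin n, HasFDerivAt (fun y : Eu (n + n) => saw_auxk η (M * pp y i))
      (saw_auxt η (M * pp x i) • ((M : ℝ) • (EuclideanSpace.proj (𝕜 := ℝ) (Fin.natAdd n i) :
        Eu (n + n) →L[ℝ] ℝ))) x := by
    intro i
    have h2 : HasFDerivAt (fun y : Eu (n + n) => (M : ℝ) * pp y i)
        ((M : ℝ) • (EuclideanSpace.proj (𝕜 := ℝ) (Fin.natAdd n i) : Eu (n + n) →L[ℝ] ℝ)) x := by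
      have h3 := (EuclideanSpace.proj (𝕜 := ℝ) (Fin.natAdd n i) :
        Eu (n + n) →L[ℝ] ℝ).hasFDerivAt (x := x)
      exact h3.const_mul (M : ℝ)
    exact (saw_auxk_deriv η _).comp_hasFDerivAt x h2
  have h4 := (HasFDerivAt.fun_sum (u := Finset.univ) fun i _ => h1 i).const_mul (M : ℝ)⁻¹
  unfold saw_auxK
  refine h4.congr_fderiv ?_
  ext v
  rw [innerSL_apply_apply, inner_qp, qq_pt, pp_pt, inner_zero_left, zero_add, smul_apply, sum_apply,
    smul_eq_mul, PiLp.inner_apply, Finset.mul_sum]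
  refine Finset.sum_congr rfl fun i _ => ?_
  simp [saw_auxv, pp]
  field_simp

theorem saw_auxv_norm (η : ℝ) (M : ℕ) (x : Eu (n + n)) : ‖saw_auxv η M x‖ ≤ n / 4 := by
  have h0 : (0 : ℝ) ≤ n / 4 := by positivity
  refine le_of_sq_le_sq ?_ h0
  rw [EuclideanSpace.norm_sq_eq]
  have h : ∀ i : Fin n, ‖saw_auxv η M x i‖ ^ 2 ≤ (1 / 4) ^ 2 := by
    intro i
    have := saw_auxt_abs η (M * pp x i)
    refine pow_le_pow_left₀ (norm_nonneg _) ?_ 2
    simpa [saw_auxv] using this
  refine (Finset.sum_le_sum fun i _ => h i).trans ?_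
  simp only [Finset.sum_const, Finset.card_univ, Fintype.card_fin, nsmul_eq_mul]
  have hn : (n : ℝ) ≤ (n : ℝ) ^ 2 := by
    exact_mod_cast Nat.le_self_pow two_ne_zero n
  nlinarith

theorem saw_auxK_abs (η : ℝ) (M : ℕ) (x : Eu (n + n)) :
    |saw_auxK η M x| ≤ n / 4 * (M : ℝ)⁻¹ := by
  unfold saw_auxK
  rw [abs_mul, abs_of_nonneg (by positivity : (0 : ℝ) ≤ (M : ℝ)⁻¹), mul_comm]
  refine mul_le_mul_of_nonneg_right ?_ (by positivity)
  refine (Finset.abs_sum_le_sum_abs _ _).trans ?_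
  refine (Finset.sum_le_sum fun i _ => saw_auxk_abs η (M * pp x i)).trans ?_
  simp only [Finset.sum_const, Finset.card_univ, Fintype.card_fin, nsmul_eq_mul]
  linarith

theorem saw_auxE {p σ : ℝ} (hp : 1 < p) (hσ : 0 ≤ σ) (hσ1 : σ < 1) (η : ℝ) {M : ℕ} (hM : 0 < M) :
    EE p σ (saw_auxK (n := n) η M) ≤
      ENNReal.ofReal (((n / 4 : ℝ) ^ (1 - σ) * (n / 4 : ℝ) ^ σ) * (M : ℝ) ^ (-(1 - σ))) := by
  have h := EE_supp (n := n) (p := p) (σ := σ) (a := n / 4 * (M : ℝ)⁻¹) (b := n / 4) (μ := 1) hp hσ hσ1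
    (by positivity) (by positivity) zero_le_one (G := saw_auxK η M) (S := Set.univ)
    MeasurableSet.univ (saw_auxK_abs η M)
    (fun x => by
      rw [(saw_auxK_deriv η hM x).fderiv, innerSL_apply_norm]
      have h1 := norm_pt_le (0 : Eu n) (saw_auxv η M x)
      rw [norm_zero, zero_add] at h1
      exact h1.trans (saw_auxv_norm η M x))
    (fun x hx => absurd (Set.mem_univ x) hx)
    (by rw [Set.univ_inter, WPosA.cube_vol]; simp)
  refine h.trans (le_of_eq ?_)
  congr 1
  rw [Real.one_rpow, mul_one, Real.mul_rpow (by positivity) (by positivity),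
    Real.inv_rpow (by positivity), ← Real.rpow_neg (by positivity)]
  ring

/-! ## SVT-7 (Saw.lean): the sawtooth -/

theorem saw {p σ : ℝ} (hp : 1 < p) (hσ : 0 ≤ σ) (hσ1 : σ < 1) : ∃ C : ℝ, 0 ≤ C ∧
    ∀ η > (0 : ℝ), ∀ M : ℕ, 0 < M → ∃ ψ : Equiv.Perm (Eu (n + n)), SG ⇑ψ ∧
      rho p σ ⇑ψ ≤ ENNReal.ofReal (C * (M : ℝ) ^ (-(1 - σ))) ∧
      ∀ x ∈ PB (n := n) (1 / 8), x ∉ RR M η → ψ x ∉ PB (1 / 8) := by
  refine ⟨(n / 4 : ℝ) ^ (1 - σ) * (n / 4 : ℝ) ^ σ, by positivity, ?_⟩
  intro η hη M hM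
  have hs : ContDiff ℝ ∞ (fun z : ℝ × Eu (n + n) => (fun _ : ℝ => saw_auxK (n := n) η M) z.1 z.2) :=
    (saw_auxK_smooth η M).comp contDiff_snd
  obtain ⟨φ, hφ, h0⟩ := exists_hp (n := n) (H := fun _ => saw_auxK η M) hs fun _ => saw_auxK_per η M
  have hsg : SG (φ 1) := hφ.sg h0 1
  have hval : ∀ x, φ 1 x = x + pt (saw_auxv η M x) 0 := by
    intro x
    have hpp : ∀ t : ℝ, pp (x + t • pt (saw_auxv η M x) 0) = pp x := by
      intro t
      simp
    have h := hφ.orbit (T := 2) (γ := fun t => x + t • pt (saw_auxv η M x) 0)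
      (γ' := fun _ => pt (saw_auxv η M x) 0) (x := x) (by simp [h0])
      (fun t _ => by
        have h1 : HasDerivAt (fun t : ℝ => t • pt (saw_auxv η M x) 0)
            ((1 : ℝ) • pt (saw_auxv η M x) 0) t := (hasDerivAt_id t).smul_const _
        rw [one_smul] at h1
        exact h1.const_add x)
      (fun t _ => by
        have h1 := saw_auxK_deriv (n := n) η hM (x + t • pt (saw_auxv η M x) 0)
        have h2 : saw_auxv η M (x + t • pt (saw_auxv η M x) 0) = saw_auxv η M x := by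
          have h4 : ∀ y : Eu (n + n), pp y = pp x → saw_auxv η M y = saw_auxv η M x := by
            intro y hy
            unfold saw_auxv
            rw [hy]
          exact h4 _ (hpp t)
        rw [h2] at h1
        have h3 : Jm (pt (saw_auxv η M x) (0 : Eu n)) = pt 0 (saw_auxv η M x) := by
          unfold Jm
          simp
        rw [h3]
        exact h1)
      1 (by norm_num)
    simpa using h
  refine ⟨Equiv.ofBijective (φ 1) (sg_bij hsg), hsg, ?_, ?_⟩
  · have h1 : rho p σ (φ 1) ≤ cst p σ (fun _ => saw_auxK (n := n) η M) := by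
      unfold rho
      exact iInf_le_of_le φ (iInf_le_of_le (fun _ => saw_auxK η M)
        (iInf_le_of_le ⟨hφ, h0, rfl⟩ le_rfl))
    refine h1.trans ?_
    unfold cst
    rw [setLIntegral_const, Real.volume_Icc]
    simp only [sub_zero, ENNReal.ofReal_one, mul_one]
    exact saw_auxE hp hσ hσ1 η hM
  · intro x hx hR hx'
    have hx'' : φ 1 x ∈ PB (n := n) (1 / 8) := hx'
    rw [hval] at hx''
    simp only [RR, Set.mem_ofPred_eq, not_forall, not_exists, not_lt] at hR
    obtain ⟨i, hi⟩ := hR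
    obtain ⟨k, hk⟩ := hx
    obtain ⟨k', hk'⟩ := hx''
    have h1 := hk (Fin.castAdd n i)
    have h2 := hk' (Fin.castAdd n i)
    have h3 : |saw_auxt η (M * pp x i)| = 1 / 4 := saw_auxt_one hη hi
    have e1 : (x + iv k) (Fin.castAdd n i) = x (Fin.castAdd n i) + k (Fin.castAdd n i) := rfl
    have e2 : (x + pt (saw_auxv η M x) 0 + iv k') (Fin.castAdd n i) =
        x (Fin.castAdd n i) + saw_auxt η (M * pp x i) + k' (Fin.castAdd n i) := by
      have : (pt (saw_auxv η M x) (0 : Eu n)) (Fin.castAdd n i) = saw_auxt η (M * pp x i) := by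
        simp only [pt, Fin.addCases_left, saw_auxv]
      rw [← this]
      rfl
    rw [e1] at h1
    rw [e2] at h2
    set θ := saw_auxt η (M * pp x i) with hθ
    set l : ℤ := k' (Fin.castAdd n i) - k (Fin.castAdd n i) with hl
    have hl' : ((l : ℤ) : ℝ) = k' (Fin.castAdd n i) - k (Fin.castAdd n i) := by
      rw [hl]; push_cast; ring
    have h4 : |θ + l| < 1 / 4 := by
      rw [hl', abs_lt]
      rw [abs_lt] at h1 h2
      constructor <;> linarith [h1.1, h1.2, h2.1, h2.2]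
    rcases lt_trichotomy l 0 with h5 | h5 | h5
    · have h6 : (l : ℝ) ≤ -1 := by exact_mod_cast Int.le_sub_one_of_lt h5
      rw [abs_lt] at h4
      have := (abs_le.1 h3.le).2
      linarith [h4.1]
    · rw [h5, Int.cast_zero, add_zero, h3] at h4
      exact lt_irrefl _ h4
    · have h6 : (1 : ℝ) ≤ l := by exact_mod_cast h5
      rw [abs_lt] at h4
      have := (abs_le.1 h3.le).1
      linarith [h4.2]

end

end SVT
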