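import Pool.Agent.SVT.Defs

/-! # Project SVT: algebra of commutators -/

set_option autoImplicit false

open MeasureTheory Set Pool.Agent.H68.VD TN
open scoped ENNReal ContDiff

namespace SVT

noncomputable section

theorem alg {G : Type} [Group G] (r : G → ℝ≥0∞) (hm : ∀ a b, r (a * b) ≤ r a + r b)
    (hi : ∀ a, r a⁻¹ ≤ r a) (f h : G) (C : ℝ≥0∞) (hf : ∀ a, r (f * a * f⁻¹) ≤ C * r a)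
    (hh : ∀ a, r (h * a * h⁻¹) ≤ C * r a) (fZ hZ ψ : G)
    (hc : Commute (ψ * (fZ⁻¹ * f)⁻¹ * ψ⁻¹) (hZ⁻¹ * h)) :
    r (f * h * f⁻¹ * h⁻¹) ≤ (5 + 3 * C + C ^ 2) * (r fZ + r hZ + r ψ) := by
  have hf' : ∀ a, r ((fZ⁻¹ * f) * a * (fZ⁻¹ * f)⁻¹) ≤ r fZ + C * r a + r fZ := by
    intro a
    have e : (fZ⁻¹ * f) * a * (fZ⁻¹ * f)⁻¹ = fZ⁻¹ * (f * a * f⁻¹) * fZ := by group
    rw [e]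
    calc r (fZ⁻¹ * (f * a * f⁻¹) * fZ) ≤ r (fZ⁻¹ * (f * a * f⁻¹)) + r fZ := hm _ _
      _ ≤ (r fZ⁻¹ + r (f * a * f⁻¹)) + r fZ := by gcongr; exact hm _ _
      _ ≤ r fZ + C * r a + r fZ := by gcongr; exacts [hi _, hf _]
  have hh' : ∀ a, r ((hZ⁻¹ * h) * a * (hZ⁻¹ * h)⁻¹) ≤ r hZ + C * r a + r hZ := by
    intro a
    have e : (hZ⁻¹ * h) * a * (hZ⁻¹ * h)⁻¹ = hZ⁻¹ * (h * a * h⁻¹) * hZ := by group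
    rw [e]
    calc r (hZ⁻¹ * (h * a * h⁻¹) * hZ) ≤ r (hZ⁻¹ * (h * a * h⁻¹)) + r hZ := hm _ _
      _ ≤ (r hZ⁻¹ + r (h * a * h⁻¹)) + r hZ := by gcongr; exact hm _ _
      _ ≤ r hZ + C * r a + r hZ := by gcongr; exacts [hi _, hh _]
  have e1 : f * h * f⁻¹ * h⁻¹ = fZ * (((fZ⁻¹ * f) * hZ * (fZ⁻¹ * f)⁻¹) *
      ((fZ⁻¹ * f) * (hZ⁻¹ * h) * (fZ⁻¹ * f)⁻¹ * (hZ⁻¹ * h)⁻¹) * hZ⁻¹) * (h * fZ⁻¹ * h⁻¹) := by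
    group
  generalize hF : fZ⁻¹ * f = F at *
  generalize hH : hZ⁻¹ * h = H at *
  have e2 : F * H * F⁻¹ * H⁻¹ = (F * ψ * F⁻¹ * ψ⁻¹) * (H * (F * ψ * F⁻¹ * ψ⁻¹)⁻¹ * H⁻¹) := by
    have h1 : (ψ * F⁻¹ * ψ⁻¹) * H = H * (ψ * F⁻¹ * ψ⁻¹) := hc.eq
    have h2 : (F * ψ * F⁻¹ * ψ⁻¹) * (H * (F * ψ * F⁻¹ * ψ⁻¹)⁻¹ * H⁻¹) =
        F * ((ψ * F⁻¹ * ψ⁻¹) * H) * (ψ * F⁻¹ * ψ⁻¹)⁻¹ * F⁻¹ * H⁻¹ := by group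
    rw [h2, h1]
    group
  have h3 : r (F * ψ * F⁻¹ * ψ⁻¹) ≤ (r fZ + C * r ψ + r fZ) + r ψ := by
    calc r (F * ψ * F⁻¹ * ψ⁻¹) ≤ r (F * ψ * F⁻¹) + r ψ⁻¹ := hm _ _
      _ ≤ (r fZ + C * r ψ + r fZ) + r ψ := by gcongr; exacts [hf' _, hi _]
  have h4 : r (F * H * F⁻¹ * H⁻¹) ≤ ((r fZ + C * r ψ + r fZ) + r ψ) +
      (r hZ + C * ((r fZ + C * r ψ + r fZ) + r ψ) + r hZ) := by
    rw [e2]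
    calc r ((F * ψ * F⁻¹ * ψ⁻¹) * (H * (F * ψ * F⁻¹ * ψ⁻¹)⁻¹ * H⁻¹))
        ≤ r (F * ψ * F⁻¹ * ψ⁻¹) + r (H * (F * ψ * F⁻¹ * ψ⁻¹)⁻¹ * H⁻¹) := hm _ _
      _ ≤ r (F * ψ * F⁻¹ * ψ⁻¹) + (r hZ + C * r (F * ψ * F⁻¹ * ψ⁻¹)⁻¹ + r hZ) := by
          gcongr; exact hh' _
      _ ≤ r (F * ψ * F⁻¹ * ψ⁻¹) + (r hZ + C * r (F * ψ * F⁻¹ * ψ⁻¹) + r hZ) := by
          gcongr; exact hi _
      _ ≤ _ := by gcongr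
  rw [e1]
  calc r (fZ * (F * hZ * F⁻¹ * (F * H * F⁻¹ * H⁻¹) * hZ⁻¹) * (h * fZ⁻¹ * h⁻¹))
      ≤ r (fZ * (F * hZ * F⁻¹ * (F * H * F⁻¹ * H⁻¹) * hZ⁻¹)) + r (h * fZ⁻¹ * h⁻¹) := hm _ _
    _ ≤ (r fZ + r (F * hZ * F⁻¹ * (F * H * F⁻¹ * H⁻¹) * hZ⁻¹)) + C * r fZ⁻¹ := by
        gcongr; exacts [hm _ _, hh _]
    _ ≤ (r fZ + (r (F * hZ * F⁻¹ * (F * H * F⁻¹ * H⁻¹)) + r hZ⁻¹)) + C * r fZ := by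
        gcongr; exacts [hm _ _, hi _]
    _ ≤ (r fZ + ((r (F * hZ * F⁻¹) + r (F * H * F⁻¹ * H⁻¹)) + r hZ)) + C * r fZ := by
        gcongr; exacts [hm _ _, hi _]
    _ ≤ (r fZ + (((r fZ + C * r hZ + r fZ) + (((r fZ + C * r ψ + r fZ) + r ψ) +
      (r hZ + C * ((r fZ + C * r ψ + r fZ) + r ψ) + r hZ))) + r hZ)) + C * r fZ := by
        gcongr; exact hf' _
    _ ≤ ((r fZ + (((r fZ + C * r hZ + r fZ) + (((r fZ + C * r ψ + r fZ) + r ψ) +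
      (r hZ + C * ((r fZ + C * r ψ + r fZ) + r ψ) + r hZ))) + r hZ)) + C * r fZ) +
        (C ^ 2 * r fZ + (2 + 2 * C + C ^ 2) * r hZ + (4 + C) * r ψ) := le_self_add
    _ = (5 + 3 * C + C ^ 2) * (r fZ + r hZ + r ψ) := by ring

end

end SVT
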