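import Pool.Agent.SVT.Defs
import Pool.Agent.H68.VD.DensB

/-!
# Project SVT, row SVT-13: density of the sums of differences of translates of a bump
-/

set_option autoImplicit false
set_option linter.all false

open MeasureTheory Set Pool.Agent.H68.VD TN
open scoped ENNReal ContDiff

namespace SVT

noncomputable section

variable {n : ℕ}

private theorem den_fd {m : ℕ} {f : Eu m → ℝ} (hfp : Per f) : Per (fderiv ℝ f) := by
  intro x k
  rw [← fderiv_comp_add_right]
  congr 1
  funext y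
  exact hfp y k

private theorem den_ext {m : ℕ} {A B : Eu m →L[ℝ] ℝ} (h : ∀ j, A (ev j) = B (ev j)) : A = B := by
  ext x
  have hx : x = ∑ j, x j • (ev j : Eu m) := by
    ext i
    simp [ev, Pi.single_apply]
  rw [hx, map_sum, map_sum]
  refine Finset.sum_congr rfl fun j _ => ?_
  rw [map_smul, map_smul, h j]

open DensBA in
private theorem den_parts {m : ℕ} {f U : Eu m → ℝ} (hf : ContDiff ℝ ∞ f) (hfp : Per f)
    (hU : ContDiff ℝ ∞ U) (hUp : Per U) (x : Eu m) :
    ∫ y in cube m, U (x - y) • fderiv ℝ f y = ∫ y in cube m, f y • fderiv ℝ U (x - y) := by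
  have hUx : Continuous fun y : Eu m => U (x - y) := hU.continuous.comp (by fun_prop)
  have hfd : Continuous fun y : Eu m => fderiv ℝ f y := hf.continuous_fderiv (by simp)
  have hUd : Continuous fun y : Eu m => fderiv ℝ U (x - y) :=
    (hU.continuous_fderiv (by simp)).comp (by fun_prop)
  have i1 : IntegrableOn (fun y => U (x - y) • fderiv ℝ f y) (cube m) volume :=
    HsA.int_cube (hUx.smul hfd)
  have i2 : IntegrableOn (fun y => f y • fderiv ℝ U (x - y)) (cube m) volume :=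
    HsA.int_cube (hf.continuous.smul hUd)
  refine den_ext fun j => ?_
  rw [ContinuousLinearMap.integral_apply i1, ContinuousLinearMap.integral_apply i2]
  exact parts f U hf hfp hU hUp j x

open DensBA in
private theorem den_main {m : ℕ} {r : ℝ} (hr : 0 < r) {H : Eu m → ℝ} (hH : ContDiff ℝ ∞ H)
    (hp : Per H) (hm : ∫ x in cube m, H x = 0) {ε : ℝ} (hε : 0 < ε) :
    ∃ (β : Eu m → ℝ) (s : Finset (Eu m)) (c : Eu m → ℝ),
      (ContDiff ℝ ∞ β ∧ Per β ∧ ∀ x, (∀ k : Fin m → ℤ, r < ‖x + iv k‖) → β x = 0) ∧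
      ∀ x, |H x - ∑ v ∈ s, c v * (β (x - v) - β x)| ≤ ε ∧
        ‖fderiv ℝ (fun x => H x - ∑ v ∈ s, c v * (β (x - v) - β x)) x‖ ≤ ε := by
  have hDc : Continuous (fderiv ℝ H) := hH.continuous_fderiv (by simp)
  have hDp : Per (fderiv ℝ H) := den_fd hp
  obtain ⟨δ1, hδ1, hδ1'⟩ := per_unif hH.continuous hp (ε := ε / 3) (by positivity)
  obtain ⟨δ2, hδ2, hδ2'⟩ := per_unif hDc hDp (ε := ε / 3) (by positivity)
  obtain ⟨r', hr', hr1⟩ := exists_between (lt_min (lt_min (lt_min hδ1 hδ2) hr) one_pos)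
  have h1 : r' < δ1 := hr1.trans_le ((min_le_left _ _).trans ((min_le_left _ _).trans (min_le_left _ _)))
  have h2 : r' < δ2 := hr1.trans_le ((min_le_left _ _).trans ((min_le_left _ _).trans (min_le_right _ _)))
  have h3 : r' < r := hr1.trans_le ((min_le_left _ _).trans (min_le_right _ _))
  have h4 : r' < 1 := hr1.trans_le (min_le_right _ _)
  have hc := cb_pos (n := m) hr' h4
  set c := cb m r' with hcdef
  have hU := pu_smooth (n := m) hr' h4
  have hUp : Per (pz (bu (n := m) r')) := pz_per _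
  set U : Eu m → ℝ := pz (bu (n := m) r') with hUdef
  have hUc : Continuous U := hU.continuous
  have hUdc : Continuous (fderiv ℝ U) := hU.continuous_fderiv (by simp)
  have hUdp : Per (fderiv ℝ U) := den_fd hUp
  obtain ⟨M1, hM1, hM1'⟩ := per_bdd hUc hUp
  obtain ⟨M2, hM2, hM2'⟩ := per_bdd hUdc hUdp
  set J : Eu m → ℝ × (Eu m →L[ℝ] ℝ) × ℝ := fun x => (U x, fderiv ℝ U x, 1) with hJ
  have hJc : Continuous J := hUc.prodMk (hUdc.prodMk continuous_const)
  have hJp : Per J := by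
    intro x k
    show (U (x + iv k), fderiv ℝ U (x + iv k), (1 : ℝ)) = (U x, fderiv ℝ U x, 1)
    rw [hUp x k, hUdp x k]
  set e : ℝ := c * ε / (3 * (M1 + M2 + 1)) with he
  have he0 : 0 < e := by positivity
  obtain ⟨s, w, hs⟩ := riemann H hH.continuous hp J hJc hJp he0
  have hint : ∀ x : Eu m, IntegrableOn (fun y => H y • J (x - y)) (cube m) volume := fun x =>
    HsA.int_cube (hH.continuous.smul (hJc.comp (by fun_prop)))
  have hi : ∀ x : Eu m, (∫ y in cube m, H y • J (x - y)) =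
      (∫ y in cube m, H y • U (x - y), ∫ y in cube m, H y • fderiv ℝ U (x - y),
        ∫ y in cube m, H y) := by
    intro x
    have a1 : IntegrableOn (fun y => H y • U (x - y)) (cube m) volume :=
      HsA.int_cube (hH.continuous.smul (hUc.comp (by fun_prop)))
    have a2 : IntegrableOn (fun y => H y • fderiv ℝ U (x - y)) (cube m) volume :=
      HsA.int_cube (hH.continuous.smul (hUdc.comp (by fun_prop)))
    have a3 : IntegrableOn (fun y => H y) (cube m) volume := HsA.int_cube hH.continuous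
    have a4 : (fun y => H y • J (x - y)) =
        fun y => (H y • U (x - y), H y • fderiv ℝ U (x - y), H y) := by
      funext y
      show H y • (U (x - y), fderiv ℝ U (x - y), (1 : ℝ)) = _
      rw [Prod.smul_mk, Prod.smul_mk, smul_eq_mul (H y) (1 : ℝ), mul_one]
    rw [a4]
    rw [integral_pair a1 (a2.prodMk a3), integral_pair a2 a3]
  have hsum : ∀ x : Eu m, ∑ v ∈ s, (w v * H v) • J (x - v) =
      (∑ v ∈ s, (w v * H v) • U (x - v), ∑ v ∈ s, (w v * H v) • fderiv ℝ U (x - v),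
        ∑ v ∈ s, w v * H v) := by
    intro x
    ext1
    · rw [Prod.fst_sum]
      exact Finset.sum_congr rfl fun v _ => rfl
    · rw [Prod.snd_sum]
      ext1
      · rw [Prod.fst_sum]
        exact Finset.sum_congr rfl fun v _ => rfl
      · rw [Prod.snd_sum]
        refine Finset.sum_congr rfl fun v _ => ?_
        show (w v * H v) • (1 : ℝ) = w v * H v
        rw [smul_eq_mul, mul_one]
  have hA : ∀ x : Eu m, ‖(∫ y in cube m, H y • U (x - y)) - ∑ v ∈ s, (w v * H v) • U (x - v)‖ ≤ e := by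
    intro x
    have := hs x
    rw [hi, hsum] at this
    exact (norm_fst_le _).trans this
  have hB : ∀ x : Eu m, ‖(∫ y in cube m, H y • fderiv ℝ U (x - y)) -
      ∑ v ∈ s, (w v * H v) • fderiv ℝ U (x - v)‖ ≤ e := by
    intro x
    have := hs x
    rw [hi, hsum] at this
    exact (norm_fst_le _).trans ((norm_snd_le _).trans this)
  have hC : |∑ v ∈ s, w v * H v| ≤ e := by
    have := hs 0
    rw [hi, hsum, hm] at this
    have h5 := (norm_snd_le _).trans ((norm_snd_le _).trans this)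
    have h6 : ‖(0 : ℝ) - ∑ v ∈ s, w v * H v‖ ≤ e := h5
    rwa [zero_sub, norm_neg, Real.norm_eq_abs] at h6
  have hcM : c⁻¹ * e = ε / (3 * (M1 + M2 + 1)) := by
    rw [he]
    field_simp
  have hE : c⁻¹ * (c * (ε / 3)) + c⁻¹ * e + c⁻¹ * (e * (M1 + M2)) ≤ ε := by
    have e1 : c⁻¹ * (c * (ε / 3)) = ε / 3 := by field_simp
    have e2 : c⁻¹ * e + c⁻¹ * (e * (M1 + M2)) = (c⁻¹ * e) * (M1 + M2 + 1) := by ring
    have e3 : ε / (3 * (M1 + M2 + 1)) * (M1 + M2 + 1) = ε / 3 := by
      field_simp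
    rw [add_assoc, e1, e2, hcM, e3]
    linarith
  refine ⟨U, s, fun v => c⁻¹ * (w v * H v), ⟨hU, hUp, fun x hx => ?_⟩, fun x => ⟨?_, ?_⟩⟩
  · by_contra h0
    obtain ⟨l, hl⟩ := pu_supp hr' h0
    exact absurd (hl.trans h3) (not_lt.2 (hx l).le)
  · have a1 := avg_est hr' h4 hH.continuous hp (ε := ε / 3)
      (fun x y hxy => hδ1' x y (hxy.trans h1)) x
    have a2 : (∫ y in cube m, pz (bu (n := m) r') (x - y) • H y) =
        ∫ y in cube m, H y • U (x - y) := by
      refine integral_congr_ae (Filter.Eventually.of_forall fun y => ?_)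
      show U (x - y) * H y = H y * U (x - y)
      ring
    rw [a2] at a1
    have a3 := hA x
    have a4 : H x - ∑ v ∈ s, c⁻¹ * (w v * H v) * (U (x - v) - U x) =
        c⁻¹ * (c * H x - ∫ y in cube m, H y • U (x - y)) +
        c⁻¹ * ((∫ y in cube m, H y • U (x - y)) - ∑ v ∈ s, (w v * H v) • U (x - v)) +
        c⁻¹ * ((∑ v ∈ s, w v * H v) * U x) := by
      have b1 : ∑ v ∈ s, c⁻¹ * (w v * H v) * (U (x - v) - U x) =
          c⁻¹ * (∑ v ∈ s, (w v * H v) • U (x - v)) - c⁻¹ * ((∑ v ∈ s, w v * H v) * U x) := by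
        rw [Finset.mul_sum, Finset.sum_mul, Finset.mul_sum, ← Finset.sum_sub_distrib]
        refine Finset.sum_congr rfl fun v _ => ?_
        rw [smul_eq_mul]
        ring
      rw [b1]
      field_simp
      ring
    rw [a4]
    have c1 : |c⁻¹ * (c * H x - ∫ y in cube m, H y • U (x - y))| ≤ c⁻¹ * (c * (ε / 3)) := by
      rw [abs_mul, abs_of_pos (inv_pos.2 hc)]
      exact mul_le_mul_of_nonneg_left a1 (inv_pos.2 hc).le
    have c2 : |c⁻¹ * ((∫ y in cube m, H y • U (x - y)) - ∑ v ∈ s, (w v * H v) • U (x - v))| ≤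
        c⁻¹ * e := by
      rw [abs_mul, abs_of_pos (inv_pos.2 hc)]
      exact mul_le_mul_of_nonneg_left a3 (inv_pos.2 hc).le
    have c3 : |c⁻¹ * ((∑ v ∈ s, w v * H v) * U x)| ≤ c⁻¹ * (e * (M1 + M2)) := by
      rw [abs_mul, abs_of_pos (inv_pos.2 hc), abs_mul]
      refine mul_le_mul_of_nonneg_left ?_ (inv_pos.2 hc).le
      refine mul_le_mul hC ?_ (abs_nonneg _) he0.le
      have := hM1' x
      rw [Real.norm_eq_abs] at this
      linarith
    exact (abs_add_three _ _ _).trans (by linarith)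
  · have hUd : Differentiable ℝ U := hU.differentiable (by simp)
    have d1 : HasFDerivAt (fun x => H x - ∑ v ∈ s, c⁻¹ * (w v * H v) * (U (x - v) - U x))
        (fderiv ℝ H x - ∑ v ∈ s, (c⁻¹ * (w v * H v)) • (fderiv ℝ U (x - v) - fderiv ℝ U x)) x := by
      refine ((hH.differentiable (by simp)).differentiableAt.hasFDerivAt).sub ?_
      refine HasFDerivAt.fun_sum fun v _ => ?_
      refine HasFDerivAt.const_mul ?_ _
      refine HasFDerivAt.sub ?_ hUd.differentiableAt.hasFDerivAt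
      have q : HasFDerivAt (fun y : Eu m => y - v) (ContinuousLinearMap.id ℝ (Eu m)) x :=
        (hasFDerivAt_id x).sub_const v
      have q2 := (hUd (x - v)).hasFDerivAt.comp x q
      rw [ContinuousLinearMap.comp_id] at q2
      exact q2
    rw [d1.fderiv]
    have a1 := avg_est hr' h4 hDc hDp (ε := ε / 3)
      (fun x y hxy => hδ2' x y (hxy.trans h2)) x
    have a2 : (∫ y in cube m, pz (bu (n := m) r') (x - y) • fderiv ℝ H y) =
        ∫ y in cube m, H y • fderiv ℝ U (x - y) := den_parts hH hp hU hUp x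
    rw [a2] at a1
    have a3 := hB x
    have a4 : fderiv ℝ H x - ∑ v ∈ s, (c⁻¹ * (w v * H v)) • (fderiv ℝ U (x - v) - fderiv ℝ U x) =
        c⁻¹ • (c • fderiv ℝ H x - ∫ y in cube m, H y • fderiv ℝ U (x - y)) +
        c⁻¹ • ((∫ y in cube m, H y • fderiv ℝ U (x - y)) -
          ∑ v ∈ s, (w v * H v) • fderiv ℝ U (x - v)) +
        c⁻¹ • ((∑ v ∈ s, w v * H v) • fderiv ℝ U x) := by
      have b1 : ∑ v ∈ s, (c⁻¹ * (w v * H v)) • (fderiv ℝ U (x - v) - fderiv ℝ U x) =
          c⁻¹ • (∑ v ∈ s, (w v * H v) • fderiv ℝ U (x - v)) -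
            c⁻¹ • ((∑ v ∈ s, w v * H v) • fderiv ℝ U x) := by
        rw [Finset.smul_sum, Finset.sum_smul, Finset.smul_sum, ← Finset.sum_sub_distrib]
        refine Finset.sum_congr rfl fun v _ => ?_
        simp only [smul_sub, mul_smul]
      have b2 : c⁻¹ • (c • fderiv ℝ H x) = fderiv ℝ H x := by
        rw [smul_smul, inv_mul_cancel₀ hc.ne', one_smul]
      rw [b1, smul_sub, smul_sub, b2]
      abel
    rw [a4]
    have c1 : ‖c⁻¹ • (c • fderiv ℝ H x - ∫ y in cube m, H y • fderiv ℝ U (x - y))‖ ≤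
        c⁻¹ * (c * (ε / 3)) := by
      rw [norm_smul, norm_inv, Real.norm_of_nonneg hc.le]
      exact mul_le_mul_of_nonneg_left a1 (inv_pos.2 hc).le
    have c2 : ‖c⁻¹ • ((∫ y in cube m, H y • fderiv ℝ U (x - y)) -
        ∑ v ∈ s, (w v * H v) • fderiv ℝ U (x - v))‖ ≤ c⁻¹ * e := by
      rw [norm_smul, norm_inv, Real.norm_of_nonneg hc.le]
      exact mul_le_mul_of_nonneg_left a3 (inv_pos.2 hc).le
    have c3 : ‖c⁻¹ • ((∑ v ∈ s, w v * H v) • fderiv ℝ U x)‖ ≤ c⁻¹ * (e * (M1 + M2)) := by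
      rw [norm_smul, norm_inv, Real.norm_of_nonneg hc.le, norm_smul]
      refine mul_le_mul_of_nonneg_left ?_ (inv_pos.2 hc).le
      refine mul_le_mul hC ?_ (norm_nonneg _) he0.le
      have := hM2' x
      linarith
    exact (norm_add₃_le).trans (by linarith)

theorem dens {r : ℝ} (hr : 0 < r) {H : Eu (n + n) → ℝ} (hH : ContDiff ℝ ∞ H) (hp : Per H)
    (hm : ∫ x in cube (n + n), H x = 0) {ε : ℝ} (hε : 0 < ε) :
    ∃ (β : Eu (n + n) → ℝ) (N : ℕ) (z : Fin N → Eu (n + n)) (c : Fin N → ℝ), Bmp r β ∧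
      ∀ x, |H x - ∑ j, c j * (β (x - z j) - β x)| ≤ ε ∧
        ‖fderiv ℝ (fun x => H x - ∑ j, c j * (β (x - z j) - β x)) x‖ ≤ ε := by
  obtain ⟨β, s, c, ⟨hβ, hβp, hβs⟩, h⟩ := den_main hr hH hp hm hε
  have key : ∀ x : Eu (n + n), ∑ j : Fin s.card, c (s.equivFin.symm j : Eu (n + n)) *
      (β (x - (s.equivFin.symm j : Eu (n + n))) - β x) = ∑ v ∈ s, c v * (β (x - v) - β x) := by
    intro x
    rw [← Finset.sum_coe_sort s, ← s.equivFin.symm.sum_comp]
  refine ⟨β, s.card, fun j => (s.equivFin.symm j : Eu (n + n)),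
    fun j => c (s.equivFin.symm j : Eu (n + n)), ⟨hβ, hβp, hβs⟩, ?_⟩
  simp only [key]
  exact h

end

end SVT
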