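import Pool.Agent.SVT.Defs
import Pool.Agent.SVT.Sg
import Pool.Agent.SVT.Hp
import Pool.Agent.SVT.EE
import Pool.Agent.SVT.Rho
import Pool.Agent.H68.VD.WPos

/-!
# Project SVT: short times (SVT-14)
-/

set_option autoImplicit false
set_option linter.all false

open MeasureTheory Set Pool.Agent.H68.VD TN
open scoped ENNReal ContDiff Topology

namespace SVT

noncomputable section

variable {n : ℕ}

theorem loc_cube {m : ℕ} (x : Eu m) : ∃ k : Fin m → ℤ, ∀ j, (x + iv k) j ∈ Icc (0 : ℝ) 1 := by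
  refine ⟨fun j => -⌊x j⌋, fun j => ?_⟩
  have h1 := Int.floor_le (x j)
  have h2 := Int.lt_floor_add_one (x j)
  have h3 : (x + iv fun j => -⌊x j⌋) j = x j - ⌊x j⌋ := by
    simp [iv, sub_eq_add_neg]
  rw [h3]
  exact ⟨by linarith, by linarith⟩

theorem loc_cpt (m : ℕ) : IsCompact {x : Eu m | ∀ j, x j ∈ Icc (0 : ℝ) 1} := by
  have h1 : IsCompact (Set.pi univ fun _ : Fin m => Icc (0 : ℝ) 1) :=
    isCompact_univ_pi fun _ => isCompact_Icc
  have h2 := (EuclideanSpace.equiv (Fin m) ℝ).toHomeomorph.isCompact_preimage.2 h1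
  convert h2 using 1
  ext x
  simp only [mem_setOf_eq, mem_preimage, mem_univ_pi]
  exact Iff.rfl

theorem loc_unif {m : ℕ} {A Y : Type} [TopologicalSpace A] [NormedAddCommGroup Y]
    {F : A → Eu m → Y} (hF : Continuous (fun z : A × Eu m => F z.1 z.2)) (hp : ∀ a, Per (F a))
    {a₀ : A} {c c' : ℝ} (hc : c < c') (h : ∀ x, ‖F a₀ x‖ ≤ c) :
    ∀ᶠ a in 𝓝 a₀, ∀ x, ‖F a x‖ ≤ c' := by
  have h1 : ∀ᶠ a in 𝓝 a₀, ∀ x ∈ {x : Eu m | ∀ j, x j ∈ Icc (0 : ℝ) 1}, ‖F a x‖ ≤ c' := by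
    refine (loc_cpt m).eventually_forall_of_forall_eventually fun x _ => ?_
    have h2 : Filter.Tendsto (fun z : A × Eu m => ‖F z.1 z.2‖) (𝓝 (a₀, x)) (𝓝 ‖F a₀ x‖) :=
      (hF.norm.tendsto (a₀, x))
    filter_upwards [h2.eventually (gt_mem_nhds (lt_of_le_of_lt (h x) hc))] with z hz
    exact hz.le
  filter_upwards [h1] with a ha x
  obtain ⟨k, hk⟩ := loc_cube x
  rw [← hp a x k]
  exact ha _ hk

theorem loc_perD {m : ℕ} {f : Eu m → ℝ} (hp : Per f) : Per (fderiv ℝ f) := by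
  intro x k
  rw [← fderiv_comp_add_right]
  congr 1
  funext y
  exact hp y k

theorem loc_invinv {m : ℕ} {f : Eu m → Eu m} (hf : Function.Bijective f) :
    Function.invFun (Function.invFun f) = f := by
  have h1 := Function.leftInverse_invFun hf.injective
  have h2 := Function.rightInverse_invFun hf.surjective
  funext y
  have h3 := Function.leftInverse_invFun h2.injective (f y)
  rwa [h1 y] at h3

theorem loc_rho {p σ a : ℝ} {φ : ℝ → Eu (n + n) → Eu (n + n)} {H : ℝ → Eu (n + n) → ℝ}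
    (h : HP φ H) (h0 : φ 0 = id) (hH : ∀ t ∈ Icc (0 : ℝ) 1, EE p σ (H t) ≤ ENNReal.ofReal a) :
    rho p σ (φ 1) ≤ ENNReal.ofReal a := by
  refine iInf_le_of_le φ (iInf_le_of_le H (iInf_le_of_le ⟨h, h0, rfl⟩ ?_))
  calc cst p σ H ≤ ∫⁻ t in Icc (0 : ℝ) 1, ENNReal.ofReal a :=
        setLIntegral_mono' measurableSet_Icc hH
    _ = ENNReal.ofReal a := by
        rw [setLIntegral_const, Real.volume_Icc]
        simp

theorem loc {p σ : ℝ} (hp : 1 < p) (hσ : 0 ≤ σ) (hσ1 : σ < 1)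
    (hZ : ∀ H : Eu (n + n) → ℝ, ContDiff ℝ ∞ H → Per H → ∫ x in cube (n + n), H x = 0 → ∀ ε > 0,
      ∃ G : Eu (n + n) → ℝ, ZF p σ G ∧ ∀ x, |H x - G x| ≤ ε ∧ ‖fderiv ℝ (fun x => H x - G x) x‖ ≤ ε)
    {φ : ℝ → Eu (n + n) → Eu (n + n)} {H : ℝ → Eu (n + n) → ℝ} (h : HP φ H) (h0 : φ 0 = id) (t₀ : ℝ)
    {ε : ℝ} (hε : 0 < ε) : ∃ r > (0 : ℝ), ∀ t s : ℝ, |t - t₀| < r → 0 ≤ s → s < r →
      rho p σ (fun x => φ (t + s) (Function.invFun (φ t) x)) ≤ ENNReal.ofReal (ε * s) := by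
  -- the mean
  have hHt : ∀ t, ContDiff ℝ ∞ (H t) := fun t =>
    h.Hs.comp (contDiff_const.prodMk contDiff_id)
  set m : ℝ := ∫ x in cube (n + n), H t₀ x with hm
  have hvol : volume (cube (n + n)) = 1 := WPosA.cube_vol (n + n)
  have hint : IntegrableOn (H t₀) (cube (n + n)) := by
    have h1 : IntegrableOn (H t₀) {x : Eu (n + n) | ∀ j, x j ∈ Icc (0 : ℝ) 1} :=
      (hHt t₀).continuous.continuousOn.integrableOn_compact (loc_cpt (n + n))
    refine h1.mono_set fun x hx j => ?_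
    exact Ico_subset_Icc_self (hx j)
  have hmean : ∫ x in cube (n + n), (H t₀ x - m) = 0 := by
    rw [integral_sub hint (integrableOn_const (by rw [hvol]; exact ENNReal.one_ne_top)),
      setIntegral_const, Measure.real, hvol]
    simp [hm]
  obtain ⟨G, ⟨P, K, hP, hP0, hK0, hPr⟩, hG⟩ := hZ (fun x => H t₀ x - m)
    ((hHt t₀).sub contDiff_const) (fun x k => by simp only [h.Hp t₀ x k]) hmean (ε / 4)
    (by positivity)
  -- the Hamiltonian of the error
  let Λ : ℝ × ℝ → Eu (n + n) → ℝ := fun a x => H (a.1 + a.2) (P a.2 x) - K a.2 (P a.2 x) - m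
  have hPs : ∀ θ, SG (P θ) := fun θ => HP.sg hP hP0 θ
  have hΛ : ContDiff ℝ ∞ (fun z : (ℝ × ℝ) × Eu (n + n) => Λ z.1 z.2) := by
    have p1 : ContDiff ℝ ∞ (fun z : (ℝ × ℝ) × Eu (n + n) => P z.1.2 z.2) :=
      hP.sp.path.smooth.comp ((contDiff_snd.comp contDiff_fst).prodMk contDiff_snd)
    have p2 : ContDiff ℝ ∞ (fun z : (ℝ × ℝ) × Eu (n + n) => H (z.1.1 + z.1.2) (P z.1.2 z.2)) :=
      h.Hs.comp (((contDiff_fst.comp contDiff_fst).add (contDiff_snd.comp contDiff_fst)).prodMk p1)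
    have p3 : ContDiff ℝ ∞ (fun z : (ℝ × ℝ) × Eu (n + n) => K z.1.2 (P z.1.2 z.2)) :=
      hP.Hs.comp ((contDiff_snd.comp contDiff_fst).prodMk p1)
    exact (p2.sub p3).sub contDiff_const
  have hΛp : ∀ a, Per (Λ a) := by
    intro a x k
    simp only [Λ]
    rw [sg_equi (hPs a.2) x k, h.Hp, hP.Hp]
  have hΛD : Continuous (fun z : (ℝ × ℝ) × Eu (n + n) => fderiv ℝ (Λ z.1) z.2) := by
    have h1 : ContDiff ℝ 0 (fun z : (ℝ × ℝ) × Eu (n + n) => fderiv ℝ (Λ z.1) z.2) := by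
      have h2 : ContDiff ℝ ∞ (Function.uncurry
          (fun (z : (ℝ × ℝ) × Eu (n + n)) (x : Eu (n + n)) => Λ z.1 x)) :=
        hΛ.comp ((contDiff_fst.comp contDiff_fst).prodMk contDiff_snd)
      exact ContDiff.fderiv h2 (contDiff_snd (n := 0)) (by simp)
    exact h1.continuous
  have hΛ0 : Λ (t₀, 0) = fun x => (H t₀ x - m) - G x := by
    funext x
    change H (t₀ + 0) (P 0 x) - K 0 (P 0 x) - m = (H t₀ x - m) - G x
    rw [hP0, add_zero, ← hK0 x]
    simp only [id]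
    ring
  have u1 : ∀ᶠ a in 𝓝 (t₀, (0 : ℝ)), ∀ x, ‖Λ a x‖ ≤ ε / 2 := by
    refine loc_unif hΛ.continuous hΛp (c := ε / 4) (by linarith) fun x => ?_
    rw [hΛ0, Real.norm_eq_abs]
    exact (hG x).1
  have u2 : ∀ᶠ a in 𝓝 (t₀, (0 : ℝ)), ∀ x, ‖fderiv ℝ (Λ a) x‖ ≤ ε / 2 := by
    refine loc_unif (F := fun a x => fderiv ℝ (Λ a) x) hΛD (fun a => loc_perD (hΛp a))
      (c := ε / 4) (by linarith) fun x => ?_
    simp only [hΛ0]
    exact (hG x).2
  obtain ⟨r, hr, hball⟩ := Metric.eventually_nhds_iff.1 (u1.and u2)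
  refine ⟨r, hr, fun t s ht hs hsr => ?_⟩
  -- the error path
  have e1 := hP.inv
  have e2 := h.time (τ := fun θ => t + θ) (contDiff_const.add contDiff_id)
  have e3 := HP.cst (sg_inv (HP.sg h h0 t))
  have e4 := e2.comp e3
  have e5 := e1.comp e4
  have e6 := e5.addc (c := fun _ => -m) contDiff_const
  have e7 := e6.time (τ := fun τ => s * τ) (contDiff_const.mul contDiff_id)
  have hd1 : ∀ θ : ℝ, deriv (fun θ => t + θ) θ = 1 := fun θ => by
    simpa using ((hasDerivAt_id θ).const_add t).deriv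
  have hd2 : ∀ τ : ℝ, deriv (fun τ => s * τ) τ = s := fun τ => by
    simpa using ((hasDerivAt_id τ).const_mul s).deriv
  have hbij := hP.sp.path.bij
  set E : ℝ → Eu (n + n) → Eu (n + n) := fun θ x =>
    Function.invFun (P θ) (φ (t + θ) (Function.invFun (φ t) x)) with hE
  have hE0 : E 0 = id := by
    funext x
    simp only [hE, hP0, add_zero, id]
    rw [Function.rightInverse_invFun (h.sp.path.bij t).surjective x]
    exact Function.leftInverse_invFun (f := (id : Eu (n + n) → Eu (n + n)))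
      Function.injective_id x
  have hrE : rho p σ (E s) ≤ ENNReal.ofReal (s * (ε / 2)) := by
    have h1 := loc_rho (p := p) (σ := σ) (a := s * (ε / 2)) e7 (by
      have h8 := hE0
      simp only [hE, add_zero] at h8
      simpa using h8) (by
      intro τ hτ
      have h2 : (fun x => deriv (fun τ => s * τ) τ *
          ((-K (s * τ) (P (s * τ) x) + (deriv (fun θ => t + θ) (s * τ) *
            H (t + s * τ) (Function.invFun (Function.invFun (P (s * τ))) x) + 0)) + -m)) =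
          fun x => s * Λ (t, s * τ) x := by
        funext x
        rw [hd1, hd2, loc_invinv (hbij _)]
        simp only [Λ]
        ring
      have h3 : dist (t, s * τ) (t₀, (0 : ℝ)) < r := by
        rw [Prod.dist_eq, max_lt_iff]
        refine ⟨by rwa [Real.dist_eq], ?_⟩
        rw [Real.dist_eq, sub_zero, abs_of_nonneg (mul_nonneg hs hτ.1)]
        exact lt_of_le_of_lt (mul_le_of_le_one_right hs hτ.2) hsr
      have h4 := hball h3
      have h5 : ContDiff ℝ ∞ (Λ (t, s * τ)) := hΛ.comp (contDiff_const.prodMk contDiff_id)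
      refine le_trans (le_of_eq (congrArg (EE p σ) h2)) ?_
      rw [EE_smul hp hσ hσ1 h5, abs_of_nonneg hs, ENNReal.ofReal_mul hs]
      gcongr
      exact EE_small hp hσ hσ1 (by positivity) (fun x => by
        have := h4.1 x
        rwa [Real.norm_eq_abs] at this) h4.2)
    simpa using h1
  -- composition
  have hbE : Function.Bijective (E s) := e6.sp.path.bij s
  have hfun : (fun x => φ (t + s) (Function.invFun (φ t) x)) =
      ⇑(Equiv.ofBijective (P s) (hbij s) * Equiv.ofBijective (E s) hbE) := by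
    funext x
    rw [Equiv.Perm.mul_apply, Equiv.ofBijective_apply, Equiv.ofBijective_apply]
    simp only [hE]
    rw [Function.rightInverse_invFun (hbij s).surjective]
  rw [hfun]
  refine (rho_mul hp hσ hσ1 _ _).trans ?_
  have h6 : rho p σ ⇑(Equiv.ofBijective (P s) (hbij s)) = 0 := hPr s
  have h7 : rho p σ ⇑(Equiv.ofBijective (E s) hbE) ≤ ENNReal.ofReal (s * (ε / 2)) := hrE
  rw [h6, zero_add]
  refine h7.trans (ENNReal.ofReal_le_ofReal ?_)
  nlinarith

end

end SVT
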