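import Pool.Agent.SVT.Defs
import Pool.Agent.H68.VD.Hs

/-!
# Project SVT, row SVT-19: the norm of `H^s` of a Hamiltonian field
-/

set_option autoImplicit false

open MeasureTheory Set Pool.Agent.H68.VD TN
open scoped ENNReal ContDiff

namespace SVT

noncomputable section

variable {n : ℕ}

namespace IntHA

/-- the Fourier coefficient of a function -/
def hc (H : Eu (n + n) → ℝ) (k : Fin (n + n) → ℤ) : ℂ :=
  ∫ x in cube (n + n), ((H x : ℝ) : ℂ) * HsA.ex k x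

theorem Jm_castAdd (y : Eu (n + n)) (i : Fin n) :
    Jm y (Fin.castAdd n i) = -(y (Fin.natAdd n i)) := by
  simp only [Jm, pt, Fin.addCases_left]
  rfl

theorem Jm_natAdd (y : Eu (n + n)) (i : Fin n) :
    Jm y (Fin.natAdd n i) = y (Fin.castAdd n i) := by
  simp only [Jm, pt, Fin.addCases_right]
  rfl

theorem fderiv_ev {H : Eu (n + n) → ℝ} {V : Eu (n + n) → Eu (n + n)}
    (hd : ∀ x, HasFDerivAt H (innerSL ℝ (Jm (V x))) x) (x : Eu (n + n)) (j : Fin (n + n)) :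
    fderiv ℝ H x (ev j) = Jm (V x) j := by
  rw [(hd x).fderiv, innerSL_apply_apply]
  unfold ev
  rw [EuclideanSpace.inner_single_right]
  simp

theorem norm_fc {H : Eu (n + n) → ℝ} {V : Eu (n + n) → Eu (n + n)} (hs : ContDiff ℝ ∞ H)
    (hp : Per H) (hd : ∀ x, HasFDerivAt H (innerSL ℝ (Jm (V x))) x) (k : Fin (n + n) → ℤ) :
    ‖fc V k‖ ^ 2 = 4 * Real.pi ^ 2 * (∑ j, (k j : ℝ) ^ 2) * ‖hc H k‖ ^ 2 := by
  have h0 : ∀ j : Fin (n + n), ‖∫ x in cube (n + n),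
      ((fderiv ℝ H x (ev j) : ℝ) : ℂ) * HsA.ex k x‖ ^ 2 =
      4 * Real.pi ^ 2 * (k j : ℝ) ^ 2 * ‖hc H k‖ ^ 2 := by
    intro j
    rw [HsA.int_parts H hs hp k j]
    unfold hc
    rw [norm_mul, mul_pow]
    congr 1
    rw [norm_mul, norm_mul, norm_mul, Complex.norm_I, Complex.norm_real, Complex.norm_intCast,
      Complex.norm_ofNat, Real.norm_eq_abs, abs_of_pos Real.pi_pos, mul_one, mul_pow, mul_pow,
      sq_abs]
    ring
  have h1 : ∀ i : Fin n, ‖∫ x in cube (n + n),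
      ((V x (Fin.castAdd n i) : ℝ) : ℂ) * HsA.ex k x‖ ^ 2 =
      4 * Real.pi ^ 2 * (k (Fin.natAdd n i) : ℝ) ^ 2 * ‖hc H k‖ ^ 2 := by
    intro i
    rw [← h0 (Fin.natAdd n i)]
    simp only [fderiv_ev hd, Jm_natAdd]
  have h2 : ∀ i : Fin n, ‖∫ x in cube (n + n),
      ((V x (Fin.natAdd n i) : ℝ) : ℂ) * HsA.ex k x‖ ^ 2 =
      4 * Real.pi ^ 2 * (k (Fin.castAdd n i) : ℝ) ^ 2 * ‖hc H k‖ ^ 2 := by
    intro i
    rw [← h0 (Fin.castAdd n i)]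
    simp only [fderiv_ev hd, Jm_castAdd, Complex.ofReal_neg, neg_mul]
    rw [integral_neg, norm_neg]
  rw [HsA.norm_fc_sq, Fin.sum_univ_add, Fin.sum_univ_add]
  simp only [h1, h2]
  rw [mul_add, add_mul, Finset.mul_sum, Finset.sum_mul, Finset.mul_sum, Finset.sum_mul, add_comm]

theorem wt_mul_le {s : ℝ} (hs : s < 0) {H : Eu (n + n) → ℝ} {V : Eu (n + n) → Eu (n + n)}
    (hsm : ContDiff ℝ ∞ H)
    (hp : Per H) (hd : ∀ x, HasFDerivAt H (innerSL ℝ (Jm (V x))) x) (k : Fin (n + n) → ℤ) :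
    HsA.wt s k * ‖fc V k‖ ^ 2 ≤ (4 * Real.pi ^ 2 * ‖hc H k‖ ^ 2) ^ (1 - max (s + 1) 0) *
      (‖fc V k‖ ^ 2) ^ max (s + 1) 0 := by
  set σ := max (s + 1) 0 with hσ
  have hσ0 : 0 ≤ σ := le_max_right _ _
  have hσ1 : 0 < 1 - σ := by
    rw [sub_pos]
    exact max_lt (by linarith) one_pos
  set v := ‖fc V k‖ ^ 2 with hv
  have hv0 : 0 ≤ v := sq_nonneg _
  set B : ℝ := 1 + ∑ j, (k j : ℝ) ^ 2 with hB
  have hB1 : 1 ≤ B := HsA.one_le_base k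
  have hB0 : 0 < B := by linarith
  have h1 : v = v ^ (1 - σ) * v ^ σ := by
    rw [← Real.rpow_add_of_nonneg hv0 hσ1.le hσ0]
    simp
  have h2 : HsA.wt s k ≤ B ^ (-(1 - σ)) := by
    unfold HsA.wt
    refine Real.rpow_le_rpow_of_exponent_le hB1 ?_
    have := le_max_left (s + 1) 0
    linarith
  have h3 : v ≤ B * (4 * Real.pi ^ 2 * ‖hc H k‖ ^ 2) := by
    rw [hv, norm_fc hsm hp hd k]
    have h4 : 0 ≤ 4 * Real.pi ^ 2 * ‖hc H k‖ ^ 2 := by positivity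
    nlinarith [h4]
  have h5 : v ^ (1 - σ) ≤ B ^ (1 - σ) * (4 * Real.pi ^ 2 * ‖hc H k‖ ^ 2) ^ (1 - σ) := by
    rw [← Real.mul_rpow hB0.le (by positivity)]
    exact Real.rpow_le_rpow hv0 h3 hσ1.le
  have h6 : B ^ (-(1 - σ)) * B ^ (1 - σ) = 1 := by
    rw [← Real.rpow_add hB0]
    simp
  calc HsA.wt s k * v = HsA.wt s k * (v ^ (1 - σ) * v ^ σ) := by rw [← h1]
    _ ≤ B ^ (-(1 - σ)) * ((B ^ (1 - σ) * (4 * Real.pi ^ 2 * ‖hc H k‖ ^ 2) ^ (1 - σ)) * v ^ σ) := by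
      gcongr
    _ = (B ^ (-(1 - σ)) * B ^ (1 - σ)) *
        ((4 * Real.pi ^ 2 * ‖hc H k‖ ^ 2) ^ (1 - σ) * v ^ σ) := by ring
    _ = _ := by rw [h6, one_mul]

theorem hc_bessel {H : Eu (n + n) → ℝ} (hH : Continuous H) :
    ∑' k : Fin (n + n) → ℤ, ‖hc H k‖ₑ ^ 2 ≤ ∫⁻ x in cube (n + n), ‖H x‖ₑ ^ (2 : ℝ) := by
  have h0 : ∫⁻ x in cube (n + n), ‖H x‖ₑ ^ (2 : ℝ) =
      ENNReal.ofReal (∫ x in cube (n + n), H x ^ 2) := by
    rw [ofReal_integral_eq_lintegral_ofReal (f := fun x => H x ^ 2) (HsA.int_cube (hH.pow 2))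
      (Filter.Eventually.of_forall fun x => sq_nonneg _)]
    refine lintegral_congr fun x => ?_
    rw [← sq_abs, ENNReal.ofReal_pow (abs_nonneg _), ← Real.norm_eq_abs, ofReal_norm,
      ENNReal.rpow_ofNat]
  rw [h0, ENNReal.tsum_eq_iSup_sum]
  refine iSup_le fun s => ?_
  have h1 : ∑ k ∈ s, ‖hc H k‖ₑ ^ 2 = ENNReal.ofReal (∑ k ∈ s, ‖hc H k‖ ^ 2) := by
    rw [ENNReal.ofReal_sum_of_nonneg fun k _ => sq_nonneg _]
    refine Finset.sum_congr rfl fun k _ => ?_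
    rw [ENNReal.ofReal_pow (norm_nonneg _), ofReal_norm]
  rw [h1]
  exact ENNReal.ofReal_le_ofReal (HsA.bessel H hH s)

theorem holder_tsum {ι : Type*} [Countable ι] {f g : ι → ℝ≥0∞} {p q : ℝ} (hp : 0 ≤ p)
    (hq : 0 ≤ q) (hpq : p + q = 1) :
    ∑' k, f k ^ p * g k ^ q ≤ (∑' k, f k) ^ p * (∑' k, g k) ^ q := by
  let _ : MeasurableSpace ι := ⊤
  have _ : MeasurableSingletonClass ι := ⟨fun _ => trivial⟩
  have h := ENNReal.lintegral_mul_norm_pow_le (μ := Measure.count)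
    (measurable_from_top (f := f)).aemeasurable (measurable_from_top (f := g)).aemeasurable hp hq hpq
  simpa only [lintegral_count] using h

end IntHA

open IntHA in
theorem interp_hs {s : ℝ} (hs : s < 0) : ∃ C : ℝ, 0 ≤ C ∧
    ∀ (H : Eu (n + n) → ℝ) (V : Eu (n + n) → Eu (n + n)), ContDiff ℝ ∞ H → Per H → Continuous V →
      (∀ x, HasFDerivAt H (innerSL ℝ (Jm (V x))) x) →
      hsNorm s V ≤ ENNReal.ofReal C * EE 2 (max (s + 1) 0) H := by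
  set σ := max (s + 1) 0 with hσ
  have hσ0 : 0 ≤ σ := le_max_right _ _
  have hσ1 : 0 < 1 - σ := by
    rw [sub_pos]
    exact max_lt (by linarith) one_pos
  refine ⟨((4 * Real.pi ^ 2) ^ (1 - σ)) ^ (1 / 2 : ℝ), by positivity, ?_⟩
  intro H V hsm hp hV hd
  set X : ℝ≥0∞ := ∫⁻ x in cube (n + n), ‖H x‖ₑ ^ (2 : ℝ) with hX
  set Y : ℝ≥0∞ := ∫⁻ x in cube (n + n), ‖fderiv ℝ H x‖ₑ ^ (2 : ℝ) with hY
  have hYV : Y = ∫⁻ x in cube (n + n), ‖V x‖ₑ ^ (2 : ℝ) := by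
    refine lintegral_congr fun x => ?_
    congr 1
    rw [← ofReal_norm, ← ofReal_norm, (hd x).fderiv, innerSL_apply_norm, norm_Jm]
  have hpt : ∀ k : Fin (n + n) → ℤ, ENNReal.ofReal (HsA.wt s k) * ‖fc V k‖ₑ ^ 2 ≤
      (ENNReal.ofReal (4 * Real.pi ^ 2) * ‖hc H k‖ₑ ^ 2) ^ (1 - σ) * (‖fc V k‖ₑ ^ 2) ^ σ := by
    intro k
    have h1 := ENNReal.ofReal_le_ofReal (wt_mul_le hs hsm hp hd k)
    have h2 : ‖fc V k‖ₑ ^ 2 = ENNReal.ofReal (‖fc V k‖ ^ 2) := by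
      rw [ENNReal.ofReal_pow (norm_nonneg _), ofReal_norm]
    have h3 : ‖hc H k‖ₑ ^ 2 = ENNReal.ofReal (‖hc H k‖ ^ 2) := by
      rw [ENNReal.ofReal_pow (norm_nonneg _), ofReal_norm]
    have hwt : 0 ≤ HsA.wt s k := by
      unfold HsA.wt
      exact Real.rpow_nonneg (by linarith [HsA.one_le_base k]) _
    have hpi : (0 : ℝ) ≤ 4 * Real.pi ^ 2 := by positivity
    rw [h2, h3, ← ENNReal.ofReal_mul hwt, ← ENNReal.ofReal_mul hpi,
      ENNReal.ofReal_rpow_of_nonneg (by positivity) hσ1.le,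
      ENNReal.ofReal_rpow_of_nonneg (by positivity) hσ0,
      ← ENNReal.ofReal_mul (by positivity)]
    exact h1
  have hsum : ∑' k : Fin (n + n) → ℤ, ENNReal.ofReal (HsA.wt s k) * ‖fc V k‖ₑ ^ 2 ≤
      (ENNReal.ofReal (4 * Real.pi ^ 2) * X) ^ (1 - σ) * Y ^ σ := by
    refine (ENNReal.tsum_le_tsum hpt).trans ((holder_tsum hσ1.le hσ0 (by ring)).trans ?_)
    gcongr
    · rw [ENNReal.tsum_mul_left]
      gcongr
      exact hc_bessel hsm.continuous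
    · rw [hYV, ← HsA.ofReal_int hV]
      exact HsA.bessel_tsum hV
  rw [HsA.hsNorm_eq]
  refine (ENNReal.rpow_le_rpow hsum (by norm_num)).trans (le_of_eq ?_)
  unfold EE nH nD
  rw [← hX, ← hY, ENNReal.mul_rpow_of_nonneg _ _ (by norm_num : (0 : ℝ) ≤ 1 / 2),
    ENNReal.mul_rpow_of_nonneg _ _ hσ1.le,
    ENNReal.mul_rpow_of_nonneg _ _ (by norm_num : (0 : ℝ) ≤ 1 / 2),
    ENNReal.ofReal_rpow_of_nonneg (by positivity) hσ1.le,
    ENNReal.ofReal_rpow_of_nonneg (by positivity) (by norm_num : (0 : ℝ) ≤ 1 / 2),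
    mul_assoc, ← ENNReal.rpow_mul, ← ENNReal.rpow_mul, ← ENNReal.rpow_mul, ← ENNReal.rpow_mul,
    mul_comm (1 - σ) (1 / 2 : ℝ), mul_comm σ (1 / 2 : ℝ)]

end

end SVT
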