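import Pool.Agent.SVT.Defs
import Pool.Agent.TN.Bas
import Pool.Agent.TN.MnN
import Pool.Agent.H68.VD.Exact

/-! # SVT-20: the flux bound; the norms are normalized on constants -/

set_option autoImplicit false

open MeasureTheory Set Pool.Agent.H68.VD TN
open scoped ENNReal ContDiff

namespace SVT

noncomputable section

variable {n : ℕ}

/-- the change of the mean displacement along a path is at most the length -/
private theorem low_path {N : (Eu (n + n) → Eu (n + n)) → ℝ≥0∞}
    (hN : ∀ u : Eu (n + n) → Eu (n + n), Continuous u → Per u → ENNReal.ofReal ‖mn u‖ ≤ N u)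
    {φ : ℝ → Eu (n + n) → Eu (n + n)} (h : SPath φ) :
    ENNReal.ofReal ‖dsp (φ 1) - dsp (φ 0)‖ ≤ len N φ := by
  have hpath : IsPath (TrA.sub (lat_deck (n + n))) φ :=
    (TrA.path_iff (lat_deck (n + n)) φ).1 h.path
  have hc : Continuous fun t => mn (vel φ t) := ExactA.cont_mean famKit hpath
  have h1 : ∫ t in (0 : ℝ)..1, mn (vel φ t) = dsp (φ 1) - dsp (φ 0) :=
    intervalIntegral.integral_eq_sub_of_hasDerivAt (f := fun t => dsp (φ t))
      (fun t _ => dsp_deriv h t) (hc.intervalIntegrable 0 1)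
  rw [← h1]
  have h2 : ‖∫ t in (0 : ℝ)..1, mn (vel φ t)‖ ≤ ∫ t in Icc (0 : ℝ) 1, ‖mn (vel φ t)‖ := by
    rw [intervalIntegral.integral_of_le zero_le_one, ← integral_Icc_eq_integral_Ioc]
    exact norm_integral_le_integral_norm _
  refine (ENNReal.ofReal_le_ofReal h2).trans ?_
  rw [ofReal_integral_eq_lintegral_ofReal
    (hc.norm.continuousOn.integrableOn_compact isCompact_Icc)
    (Filter.Eventually.of_forall fun t => norm_nonneg _)]
  unfold len
  refine lintegral_mono fun t => ?_
  have hs : Continuous (vel φ t) :=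
    ((vel_smooth h).comp (contDiff_const.prodMk contDiff_id)).continuous
  exact hN _ hs (vel_per h t)

theorem flux_low {N : (Eu (n + n) → Eu (n + n)) → ℝ≥0∞}
    (hN : ∀ u : Eu (n + n) → Eu (n + n), Continuous u → Per u → ENNReal.ofReal ‖mn u‖ ≤ N u)
    {f g : Eu (n + n) → Eu (n + n)} (hf : SG f) (hg : SG g) :
    (⨅ k : Fin (n + n) → ℤ, ENNReal.ofReal ‖(∫ x in cube (n + n), (g x - f x)) + iv k‖) ≤
      sdist N f g := by
  have cont : ∀ f : Eu (n + n) → Eu (n + n), SG f → Continuous f := by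
    rintro f ⟨φ, h, -, rfl⟩
    exact (h.path.smooth.comp (contDiff_const.prodMk contDiff_id)).continuous
  have hfc := cont f hf
  have hgc := cont g hg
  unfold sdist
  refine le_iInf₂ fun φ hφ => ?_
  obtain ⟨h, h0, _, ⟨k, rfl⟩, h1⟩ := hφ
  refine (iInf_le _ k).trans ?_
  refine le_trans (le_of_eq ?_) (low_path hN h)
  congr 2
  rw [h0, h1]
  unfold dsp
  have i1 : IntegrableOn (fun x : Eu (n + n) => g x - f x) (cube (n + n)) volume :=
    HsA.int_cube (hgc.sub hfc)
  have i2 : IntegrableOn (fun _ : Eu (n + n) => (iv k : Eu (n + n))) (cube (n + n)) volume :=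
    HsA.int_cube continuous_const
  have i3 : IntegrableOn (fun x : Eu (n + n) => f x - x) (cube (n + n)) volume :=
    HsA.int_cube (hfc.sub continuous_id)
  have i4 : IntegrableOn (fun x : Eu (n + n) => g x + iv k - x) (cube (n + n)) volume :=
    HsA.int_cube ((hgc.add continuous_const).sub continuous_id)
  have e1 : (∫ x in cube (n + n), ((fun x => x + iv k) ∘ g) x - x) =
      ∫ x in cube (n + n), (g x + iv k - x) := rfl
  rw [e1, ← integral_sub i4 i3]
  have e2 : ∀ x : Eu (n + n), g x + iv k - x - (f x - x) = (g x - f x) + iv k := fun x => by abel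
  simp only [e2]
  rw [integral_add i1 i2, setIntegral_const, Measure.real, HsA.vol_cube, ENNReal.toReal_one,
    one_smul]

theorem mean_hs (s : ℝ) {u : Eu (n + n) → Eu (n + n)} (hu : Continuous u) (_hp : Per u) :
    ENNReal.ofReal ‖mn u‖ ≤ hsNorm s u :=
  (hsMean (n + n) s).1 u hu

theorem mean_w {s p : ℝ} (hs : s < 0) (hp : 1 < p) {u : Eu (n + n) → Eu (n + n)} (hu : Continuous u)
    (hup : Per u) : ENNReal.ofReal ‖mn u‖ ≤ wspP s p u := by
  rw [TrA.wspP_neg s p hs]
  exact (wspNorm (n + n) s p hs hp).1 u hu hup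

theorem const_hs (s : ℝ) (w : Eu (n + n)) : hsNorm s (fun _ => w) ≤ ENNReal.ofReal ‖w‖ :=
  ((hsMean (n + n) s).2 w).le

theorem const_w {s p : ℝ} (hs : s < 0) (hp : 1 < p) (w : Eu (n + n)) :
    wspP s p (fun _ => w) ≤ ENNReal.ofReal ‖w‖ := by
  rw [TrA.wspP_neg s p hs]
  exact (wspNorm (n + n) s p hs hp).2 w

end

end SVT
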