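import Pool.Agent.SVT.Sg
import Pool.Agent.SVT.Hp
import Pool.Agent.SVT.Rho
import Pool.Agent.SVT.Alg
import Pool.Agent.SVT.Saw
import Pool.Agent.SVT.Cut

/-!
# Project SVT, SVT-10: commutators cost nothing
-/

set_option autoImplicit false
set_option linter.all false

open MeasureTheory Set Pool.Agent.H68.VD TN
open scoped ENNReal ContDiff

namespace SVT

noncomputable section

variable {n : ℕ}

/-- near a point off the box of half side `1/8` there are no points of the box of half side `1/9` -/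
theorem com_off {x : Eu (n + n)} (hx : x ∉ PB (n := n) (1 / 8)) :
    ∀ᶠ y in nhds x, y ∉ PB (n := n) (1 / 9) := by
  rw [Metric.eventually_nhds_iff]
  refine ⟨1 / 8 - 1 / 9, by norm_num, fun y hy hPB => hx ?_⟩
  obtain ⟨k, hk⟩ := hPB
  refine ⟨k, fun j => ?_⟩
  have h1 := hk j
  have h2 : |(x - y) j| ≤ ‖x - y‖ := by
    have := PiLp.norm_apply_le (x - y) j
    simpa using this
  have h3 : ‖x - y‖ < 1 / 8 - 1 / 9 := by
    rw [← dist_eq_norm, dist_comm]
    exact hy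
  have h4 : (x + iv k) j = (y + iv k) j + (x - y) j := by
    simp only [PiLp.add_apply, PiLp.sub_apply]
    ring
  rw [h4]
  calc |(y + iv k) j + (x - y) j| ≤ |(y + iv k) j| + |(x - y) j| := abs_add_le _ _
    _ < 1 / 9 + (1 / 8 - 1 / 9) := by linarith
    _ = 1 / 8 := by norm_num

/-- the end of the path is the identity off the box -/
theorem com_id {f : ℝ → Eu (n + n) → Eu (n + n)} {F : ℝ → Eu (n + n) → ℝ} (hf : HP f F)
    (f0 : f 0 = id) (hF : ∀ t x, x ∉ PB (1 / 9) → F t x = 0) {x : Eu (n + n)}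
    (hx : x ∉ PB (n := n) (1 / 8)) : f 1 x = x := by
  have h := HP.orbit hf (T := 2) (γ := fun _ => x) (γ' := fun _ => 0) (x := x)
    (by rw [f0]; rfl) (fun t _ => hasDerivAt_const t x) (fun t _ => ?_) 1
    ⟨by norm_num, by norm_num⟩
  · exact h
  · have h1 : (innerSL ℝ (Jm (0 : Eu (n + n)))) = 0 := by
      rw [show Jm (0 : Eu (n + n)) = 0 from map_zero (JL n), map_zero]
    rw [h1]
    refine (hasFDerivAt_const (0 : ℝ) x).congr_of_eventuallyEq ?_
    filter_upwards [com_off hx] with y hy using hF t y hy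

/-- permutations from symplectic maps -/
theorem com_inv {f : Eu (n + n) → Eu (n + n)} (hf : Function.Bijective f) :
    ⇑(Equiv.ofBijective f hf)⁻¹ = Function.invFun f := by
  funext x
  apply hf.1
  rw [Function.invFun_eq (hf.2 x)]
  exact (Equiv.ofBijective f hf).apply_symm_apply x

/-- the modified map moves only points of the box off the grid -/
theorem com_fix {f : ℝ → Eu (n + n) → Eu (n + n)} {F : ℝ → Eu (n + n) → ℝ} (hf : HP f F)
    (f0 : f 0 = id) (hF : ∀ t x, x ∉ PB (1 / 9) → F t x = 0) {M : ℕ} {η : ℝ}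
    (fe : Equiv.Perm (Eu (n + n))) (hfe : ⇑fe = f 1) (g : Equiv.Perm (Eu (n + n)))
    (h1 : ∀ x ∈ RR M η, g x = f 1 x) (h2 : ∀ x ∉ PB (1 / 8), g x = x) {x : Eu (n + n)}
    (hx : (g⁻¹ * fe) x ≠ x) : x ∈ PB (n := n) (1 / 8) ∧ x ∉ RR M η := by
  constructor
  · by_contra h
    apply hx
    rw [Equiv.Perm.mul_apply, hfe, com_id hf f0 hF h, Equiv.Perm.inv_eq_iff_eq]
    exact (h2 x h).symm
  · intro h
    apply hx
    rw [Equiv.Perm.mul_apply, hfe, Equiv.Perm.inv_eq_iff_eq]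
    exact (h1 x h).symm

theorem comm {p σ : ℝ} (hp : 1 < p) (hσ : 0 ≤ σ) (hσ1 : σ < 1) (hσn : σ < n / p)
    {f h : ℝ → Eu (n + n) → Eu (n + n)} {F H : ℝ → Eu (n + n) → ℝ} (hf : HP f F) (f0 : f 0 = id)
    (hF : ∀ t x, x ∉ PB (1 / 9) → F t x = 0) (hh : HP h H) (h0 : h 0 = id)
    (hH : ∀ t x, x ∉ PB (1 / 9) → H t x = 0) :
    rho p σ (fun x => f 1 (h 1 (Function.invFun (f 1) (Function.invFun (h 1) x)))) = 0 := by
  have hfb := sg_bij (HP.sg hf f0 1)
  have hhb := sg_bij (HP.sg hh h0 1)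
  set fe : Equiv.Perm (Eu (n + n)) := Equiv.ofBijective (f 1) hfb with hfe
  set he : Equiv.Perm (Eu (n + n)) := Equiv.ofBijective (h 1) hhb with hhe
  have hfe1 : ⇑fe = f 1 := rfl
  have hhe1 : ⇑he = h 1 := rfl
  have hgoal : (fun x => f 1 (h 1 (Function.invFun (f 1) (Function.invFun (h 1) x)))) =
      ⇑(fe * he * fe⁻¹ * he⁻¹) := by
    funext x
    rw [Equiv.Perm.mul_apply, Equiv.Perm.mul_apply, Equiv.Perm.mul_apply, hfe, hhe, com_inv,
      com_inv]
    rfl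
  rw [hgoal]
  obtain ⟨C1, hC1, hc1⟩ := rho_conj hp hσ hσ1 fe (by rw [hfe1]; exact HP.sg hf f0 1)
  obtain ⟨C2, hC2, hc2⟩ := rho_conj hp hσ hσ1 he (by rw [hhe1]; exact HP.sg hh h0 1)
  set C : ℝ := max C1 C2 with hC
  have hCpos : 0 ≤ C := by linarith [le_max_left C1 C2]
  obtain ⟨S, hS, hsaw⟩ := saw (n := n) hp hσ hσ1
  -- the estimate for one `δ`
  have key : ∀ δ : ℝ, 0 < δ → rho p σ ⇑(fe * he * fe⁻¹ * he⁻¹) ≤
      (5 + 3 * ENNReal.ofReal C + ENNReal.ofReal C ^ 2) *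
        (ENNReal.ofReal δ + ENNReal.ofReal δ + ENNReal.ofReal δ) := by
    intro δ hδ
    -- the number of teeth
    have hlim : Filter.Tendsto (fun M : ℕ => S * (M : ℝ) ^ (-(1 - σ))) Filter.atTop (nhds (S * 0)) :=
      ((tendsto_rpow_neg_atTop (by linarith : 0 < 1 - σ)).comp
        tendsto_natCast_atTop_atTop).const_mul S
    rw [mul_zero] at hlim
    obtain ⟨M, hM, hM0⟩ := ((hlim.eventually_lt_const hδ).and
      (Filter.eventually_gt_atTop 0)).exists
    obtain ⟨η1, hη1, hcut1⟩ := cut hp hσ hσ1 hσn hf f0 hF M hM0 hδ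
    obtain ⟨η2, hη2, hcut2⟩ := cut hp hσ hσ1 hσn hh h0 hH M hM0 hδ
    have hη : 0 < min η1 η2 := lt_min hη1 hη2
    obtain ⟨fZ, -, hfZ1, hfZ2, hfZ3⟩ := hcut1 (min η1 η2) hη (min_le_left _ _)
    obtain ⟨hZ, -, hhZ1, hhZ2, hhZ3⟩ := hcut2 (min η1 η2) hη (min_le_right _ _)
    obtain ⟨ψ, -, hψ1, hψ2⟩ := hsaw (min η1 η2) hη M hM0
    have hcomm : Commute (ψ * (fZ⁻¹ * fe)⁻¹ * ψ⁻¹) (hZ⁻¹ * he) := by
      refine Equiv.Perm.Disjoint.commute fun x => ?_
      by_cases hx : (hZ⁻¹ * he) x = x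
      · exact Or.inr hx
      · left
        obtain ⟨h1, h2⟩ := com_fix hh h0 hH he hhe1 hZ hhZ2 hhZ3 hx
        have h3 : (fZ⁻¹ * fe) (ψ⁻¹ x) = ψ⁻¹ x := by
          by_contra h4
          obtain ⟨h5, h6⟩ := com_fix hf f0 hF fe hfe1 fZ hfZ2 hfZ3 h4
          have h7 := hψ2 _ h5 h6
          rw [show ψ (ψ⁻¹ x) = x from ψ.apply_symm_apply x] at h7
          exact h7 h1
        have h8 : (fZ⁻¹ * fe)⁻¹ (ψ⁻¹ x) = ψ⁻¹ x := by
          rw [Equiv.Perm.inv_eq_iff_eq]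
          exact h3.symm
        rw [Equiv.Perm.mul_apply, Equiv.Perm.mul_apply, h8]
        exact ψ.apply_symm_apply x
    have hCC : ∀ (c : ℝ) (a : ℝ≥0∞), c ≤ C → ENNReal.ofReal c * a ≤ ENNReal.ofReal C * a :=
      fun c a hc => mul_le_mul_left (ENNReal.ofReal_le_ofReal hc) a
    have h9 := alg (fun g : Equiv.Perm (Eu (n + n)) => rho p σ ⇑g) (rho_mul hp hσ hσ1)
      (rho_inv hp hσ hσ1) fe he (ENNReal.ofReal C)
      (fun a => (hc1 a).trans (hCC _ _ (le_max_left _ _)))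
      (fun a => (hc2 a).trans (hCC _ _ (le_max_right _ _))) fZ hZ ψ hcomm
    refine h9.trans (mul_le_mul_right (add_le_add (add_le_add hfZ1 hhZ1) ?_) _)
    exact hψ1.trans (ENNReal.ofReal_le_ofReal hM.le)
  -- the limit
  have hk : 0 < 3 * (5 + 3 * C + C ^ 2) := by positivity
  refine le_antisymm (ENNReal.le_of_forall_pos_le_add fun ε hε _ => ?_) bot_le
  have hε' : (0 : ℝ) < ε := hε
  have h1 := key (ε / (3 * (5 + 3 * C + C ^ 2))) (div_pos hε' hk)
  refine h1.trans (le_of_eq ?_)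
  have hd : 0 ≤ (ε : ℝ) / (3 * (5 + 3 * C + C ^ 2)) := (div_pos hε' hk).le
  rw [zero_add, ← ENNReal.ofReal_add hd hd, ← ENNReal.ofReal_add (add_nonneg hd hd) hd,
    ← ENNReal.ofReal_pow hCpos,
    show (5 : ℝ≥0∞) = ENNReal.ofReal 5 by simp, show (3 : ℝ≥0∞) = ENNReal.ofReal 3 by simp,
    ← ENNReal.ofReal_mul (by norm_num), ← ENNReal.ofReal_add (by norm_num) (by positivity),
    ← ENNReal.ofReal_add (by positivity) (by positivity), ← ENNReal.ofReal_mul (by positivity),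
    ← ENNReal.ofReal_coe_nnreal]
  congr 1
  field_simp
  ring

end

end SVT
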