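import Pool.Agent.TN.Lin

/-!
# Project SVT: Hamiltonian paths on the torus of dimension 2n, cheap Hamiltonians (MP_b0bf68_gt)
-/

set_option autoImplicit false

open MeasureTheory Set Pool.Agent.H68.VD TN
open scoped ENNReal ContDiff

namespace SVT

noncomputable section

variable {n : ℕ}

/-- a path of symplectic diffeomorphisms with the periodic Hamiltonian `H` -/
structure HP (φ : ℝ → Eu (n + n) → Eu (n + n)) (H : ℝ → Eu (n + n) → ℝ) : Prop where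
  sp : SPath φ
  Hs : ContDiff ℝ ∞ (fun z : ℝ × Eu (n + n) => H z.1 z.2)
  Hp : ∀ t, Per (H t)
  Hd : ∀ t x, HasFDerivAt (H t) (innerSL ℝ (Jm (vel φ t x))) x

/-- the `L^p` norm of a periodic function -/
def nH (p : ℝ) (G : Eu (n + n) → ℝ) : ℝ≥0∞ := (∫⁻ x in cube (n + n), ‖G x‖ₑ ^ p) ^ (1 / p)

/-- the `L^p` norm of the derivative of a periodic function -/
def nD (p : ℝ) (G : Eu (n + n) → ℝ) : ℝ≥0∞ := (∫⁻ x in cube (n + n), ‖fderiv ℝ G x‖ₑ ^ p) ^ (1 / p)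

/-- the interpolation quantity -/
def EE (p σ : ℝ) (G : Eu (n + n) → ℝ) : ℝ≥0∞ := nH p G ^ (1 - σ) * nD p G ^ σ

/-- the cost of a Hamiltonian path -/
def cst (p σ : ℝ) (H : ℝ → Eu (n + n) → ℝ) : ℝ≥0∞ := ∫⁻ t in Icc (0 : ℝ) 1, EE p σ (H t)

/-- the smallest cost of a Hamiltonian path from the identity to `f` -/
def rho (p σ : ℝ) (f : Eu (n + n) → Eu (n + n)) : ℝ≥0∞ :=
  ⨅ (φ : ℝ → Eu (n + n) → Eu (n + n)) (H : ℝ → Eu (n + n) → ℝ)
    (_ : HP φ H ∧ φ 0 = id ∧ φ 1 = f), cst p σ H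

/-- the periodic box of half side `r` -/
def PB (r : ℝ) : Set (Eu (n + n)) := {x | ∃ k : Fin (n + n) → ℤ, ∀ j, |(x + iv k) j| < r}

/-- the neighbourhood of the grid of Lagrangian discs -/
def RR (M : ℕ) (η : ℝ) : Set (Eu (n + n)) := {x | ∀ i : Fin n, ∃ m : ℤ, |M * pp x i - m / 2| < η}

/-- `β` is smooth, periodic and zero off the periodic ball of radius `r` -/
structure Bmp (r : ℝ) (β : Eu (n + n) → ℝ) : Prop where
  smooth : ContDiff ℝ ∞ β
  per : Per β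
  supp : ∀ x, (∀ k : Fin (n + n) → ℤ, r < ‖x + iv k‖) → β x = 0

/-- `G` is the initial Hamiltonian of a smooth family of maps of cost zero -/
def ZF (p σ : ℝ) (G : Eu (n + n) → ℝ) : Prop :=
  ∃ (P : ℝ → Eu (n + n) → Eu (n + n)) (K : ℝ → Eu (n + n) → ℝ),
    HP P K ∧ P 0 = id ∧ (∀ x, K 0 x = G x) ∧ ∀ θ, rho p σ (P θ) = 0

end

end SVT
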