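import Pool.Agent.SVT.Sg
import Pool.Agent.H68.VD.WPos

/-! # Project SVT: the diameter of the flux distance (MP_b0bf68_gt) -/

set_option autoImplicit false

open MeasureTheory Set Pool.Agent.H68.VD TN
open scoped ENNReal ContDiff

namespace SVT

noncomputable section

variable {n : ℕ}

theorem diam_near (m : ℕ) (w : Eu m) : ∃ k : Fin m → ℤ, ‖w + iv k‖ ≤ Real.sqrt m / 2 := by
  refine ⟨fun i => -round (w i), ?_⟩
  rw [EuclideanSpace.norm_eq]
  have h1 : ∑ i, ‖(w + iv fun i => -round (w i)) i‖ ^ 2 ≤ (m : ℝ) / 4 := by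
    calc ∑ i, ‖(w + iv fun i => -round (w i)) i‖ ^ 2 ≤ ∑ _i : Fin m, (1 / 4 : ℝ) := by
          refine Finset.sum_le_sum fun i _ => ?_
          have h2 : (w + iv fun i => -round (w i)) i = w i - round (w i) := by
            simp [iv, sub_eq_add_neg]
          rw [h2, Real.norm_eq_abs]
          have h3 := abs_sub_round (w i)
          have h4 := abs_nonneg (w i - round (w i))
          nlinarith
      _ = (m : ℝ) / 4 := by simp; ring
  calc Real.sqrt (∑ i, ‖(w + iv fun i => -round (w i)) i‖ ^ 2) ≤ Real.sqrt ((m : ℝ) / 4) :=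
        Real.sqrt_le_sqrt h1
    _ = Real.sqrt m / 2 := by
        rw [Real.sqrt_div (by positivity)]
        congr 1
        rw [show (4 : ℝ) = 2 ^ 2 by norm_num, Real.sqrt_sq (by norm_num)]

theorem diam_far (m : ℕ) (k : Fin m → ℤ) :
    Real.sqrt m / 2 ≤ ‖(WithLp.toLp 2 (fun _ => (1 / 2 : ℝ)) : Eu m) + iv k‖ := by
  rw [EuclideanSpace.norm_eq]
  have h1 : (m : ℝ) / 4 ≤ ∑ i, ‖((WithLp.toLp 2 (fun _ => (1 / 2 : ℝ)) : Eu m) + iv k) i‖ ^ 2 := by
    calc (m : ℝ) / 4 = ∑ _i : Fin m, (1 / 4 : ℝ) := by simp; ring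
      _ ≤ _ := by
          refine Finset.sum_le_sum fun i _ => ?_
          have h2 : ((WithLp.toLp 2 (fun _ => (1 / 2 : ℝ)) : Eu m) + iv k) i = 1 / 2 + k i := by
            simp [iv]
          rw [h2, Real.norm_eq_abs, sq_abs]
          have h3 : (0 : ℝ) ≤ (k i : ℝ) * (k i + 1) := by
            rcases le_or_gt 0 (k i) with h | h
            · have : (0 : ℝ) ≤ k i := by exact_mod_cast h
              positivity
            · have h4 : k i + 1 ≤ 0 := h
              have h5 : ((k i : ℝ) + 1) ≤ 0 := by exact_mod_cast h4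
              have h6 : (k i : ℝ) ≤ 0 := by linarith
              exact mul_nonneg_of_nonpos_of_nonpos h6 h5
          nlinarith
  calc Real.sqrt m / 2 = Real.sqrt ((m : ℝ) / 4) := by
        rw [Real.sqrt_div (by positivity)]
        congr 1
        rw [show (4 : ℝ) = 2 ^ 2 by norm_num, Real.sqrt_sq (by norm_num)]
    _ ≤ _ := Real.sqrt_le_sqrt h1

/-- the diameter for the flux distance -/
theorem diam_eq {N : (Eu (n + n) → Eu (n + n)) → ℝ≥0∞}
    (hF : ∀ f g : Eu (n + n) → Eu (n + n), SG f → SG g → sdist N f g =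
      ⨅ k : Fin (n + n) → ℤ, ENNReal.ofReal ‖(∫ x in cube (n + n), (g x - f x)) + iv k‖) :
    sdiam N = ENNReal.ofReal (Real.sqrt (2 * n) / 2) := by
  have hm : Real.sqrt (2 * n) = Real.sqrt ((n + n : ℕ) : ℝ) := by
    congr 1
    push_cast
    ring
  rw [hm]
  refine le_antisymm ?_ ?_
  · unfold sdiam
    refine iSup_le fun f => iSup_le fun hf => iSup_le fun g => iSup_le fun hg => ?_
    rw [hF f g hf hg]
    obtain ⟨k, hk⟩ := diam_near (n + n) (∫ x in cube (n + n), (g x - f x))
    exact (iInf_le _ k).trans (ENNReal.ofReal_le_ofReal hk)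
  · set z : Eu (n + n) := WithLp.toLp 2 (fun _ => (1 / 2 : ℝ)) with hz
    have h1 : sdist N id (fun x => x + z) ≤ sdiam N := by
      unfold sdiam
      exact le_iSup_of_le id (le_iSup_of_le sg_id (le_iSup_of_le (fun x => x + z)
        (le_iSup_of_le (sg_trans z) le_rfl)))
    refine le_trans ?_ h1
    rw [hF _ _ sg_id (sg_trans z)]
    refine le_iInf fun k => ENNReal.ofReal_le_ofReal ?_
    have h2 : ∫ x in cube (n + n), ((x + z) - id x) = z := by
      have h3 : (fun x : Eu (n + n) => (x + z) - id x) = fun _ => z := by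
        funext x
        simp
      rw [h3, setIntegral_const]
      simp [Measure.real, WPosA.cube_vol]
    rw [h2]
    exact diam_far (n + n) k

end

end SVT
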