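import Pool.Agent.SVT.Defs
import Pool.Agent.SVT.Sg
import Pool.Agent.SVT.Hp
import Pool.Agent.SVT.EE
import Pool.Agent.SVT.Stp
import Pool.Agent.TN.Bas
import Pool.Agent.TN.Ham

/-!
# Project SVT, row SVT-21: the flux bound from above
-/

set_option autoImplicit false

open MeasureTheory Set Pool.Agent.H68.VD TN
open scoped ENNReal ContDiff

namespace SVT

noncomputable section

variable {n : ℕ}

/-- adding a smooth curve to a path -/
private theorem upp_shift {φ : ℝ → Eu (n + n) → Eu (n + n)} (h : SPath φ) {c : ℝ → Eu (n + n)}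
    (hc : ContDiff ℝ ∞ c) : SPath (fun t x => φ t x + c t) := by
  have hfd : ∀ t x, fderiv ℝ (fun x => φ t x + c t) x = fderiv ℝ (φ t) x := by
    intro t x
    rw [fderiv_add_const]
  refine ⟨⟨?_, ?_, ?_, ?_⟩, ?_⟩
  · exact h.path.smooth.add (hc.comp contDiff_fst)
  · intro t
    constructor
    · intro x y hxy
      exact (h.path.bij t).1 (add_right_cancel hxy)
    · intro y
      obtain ⟨x, hx⟩ := (h.path.bij t).2 (y - c t)
      exact ⟨x, by show φ t x + c t = y; rw [hx]; abel⟩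
  · intro t x
    rw [hfd]
    exact h.path.det t x
  · rintro t _ ⟨k, rfl⟩ x
    have h3 : φ t (x + iv k) = φ t x + iv k := h.path.equi t _ ⟨k, rfl⟩ x
    show φ t (x + iv k) + c t = φ t x + c t + iv k
    rw [h3]
    abel
  · intro t x v w
    rw [hfd]
    exact h.symp t x v w

/-- the velocity of the shifted path -/
private theorem upp_vel {χ : ℝ → Eu (n + n) → Eu (n + n)} (h : SPath χ) {f : Eu (n + n) → Eu (n + n)}
    {a b : ℝ → ℝ} (ha : ContDiff ℝ ∞ a) (hb : ContDiff ℝ ∞ b) (w : Eu (n + n))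
    (hp : SPath (fun t x => χ (b t) (f x) + a t • w)) (t : ℝ) (y : Eu (n + n)) :
    vel (fun t x => χ (b t) (f x) + a t • w) t y =
      deriv b t • vel χ (b t) (y - a t • w) + deriv a t • w := by
  obtain ⟨x, hx⟩ := (hp.path.bij t).2 y
  have hx' : χ (b t) (f x) + a t • w = y := hx
  have h1 := vel_eq hp t x
  have hb1 : HasDerivAt b (deriv b t) t := (hb.differentiable (by simp) t).hasDerivAt
  have ha1 : HasDerivAt a (deriv a t) t := (ha.differentiable (by simp) t).hasDerivAt
  have h2 : HasDerivAt (fun τ => χ (b τ) (f x)) (deriv b t • vel χ (b t) (χ (b t) (f x))) t :=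
    (vel_eq h (b t) (f x)).scomp t hb1
  have h3 : HasDerivAt (fun τ => χ (b τ) (f x) + a τ • w)
      (deriv b t • vel χ (b t) (χ (b t) (f x)) + deriv a t • w) t := h2.add (ha1.smul_const w)
  have h4 := h1.unique h3
  have h5 : χ (b t) (f x) = y - a t • w := by rw [← hx']; abel
  have h6 : vel (fun t x => χ (b t) (f x) + a t • w) t (χ (b t) (f x) + a t • w) =
    deriv b t • vel χ (b t) (χ (b t) (f x)) + deriv a t • w := h4
  rw [hx', h5] at h6
  exact h6

/-- the mean displacement -/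
private theorem upp_dsp {f g k' : Eu (n + n) → Eu (n + n)} (hf : SG f) (hg : SG g) (hk : SG k')
    (hfk : ∀ x, f (k' x) = x) (k : Fin (n + n) → ℤ) :
    dsp (fun x => g (k' x) + iv k) = (∫ x in cube (n + n), (g x - f x)) + iv k := by
  obtain ⟨φ, hφ, h0, h1⟩ := hk
  have hs : ContDiff ℝ ∞ k' := sg_smooth ⟨φ, hφ, h0, h1⟩
  have hcov := (fluxKit famKit).cov (n + n) k' hs (h1 ▸ hφ.path.bij 1)
    (fun x => h1 ▸ hφ.path.det 1 x) (fun x k => sg_equi ⟨φ, hφ, h0, h1⟩ x k)
    (fun x => g x - f x) ((sg_smooth hg).continuous.sub (sg_smooth hf).continuous)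
    (fun x k => by
      show g (x + iv k) - f (x + iv k) = g x - f x
      rw [sg_equi hg, sg_equi hf]
      abel)
  have e1 : ∀ x, g (k' x) + iv k - x = (g (k' x) - f (k' x)) + iv k := fun x => by
    rw [hfk]
    abel
  show ∫ x in cube (n + n), (g (k' x) + iv k - x) = _
  simp only [e1]
  have hi : IntegrableOn (fun x => g (k' x) - f (k' x)) (cube (n + n)) volume :=
    HsA.int_cube (((sg_smooth hg).continuous.comp hs.continuous).sub
      ((sg_smooth hf).continuous.comp hs.continuous))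
  rw [integral_add hi (integrable_const _), setIntegral_const, Measure.real, HsA.vol_cube]
  simp only [ENNReal.toReal_one, one_smul]
  rw [← hcov]

/-- a smooth map at a time -/
private theorem upp_at {E : Type} [NormedAddCommGroup E] [NormedSpace ℝ E]
    {H : ℝ → Eu (n + n) → E}
    (hH : ContDiff ℝ ∞ (fun z : ℝ × Eu (n + n) => H z.1 z.2)) (t : ℝ) : ContDiff ℝ ∞ (H t) := by
  have h2 : ContDiff ℝ ∞ (fun x : Eu (n + n) => ((t, x) : ℝ × Eu (n + n))) :=
    contDiff_const.prodMk contDiff_id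
  exact hH.comp h2

private theorem upp_Jm_smul (c : ℝ) (x : Eu (n + n)) : Jm (c • x) = c • Jm x :=
  (JL n).map_smul c x

/-- the length of the path -/
private theorem upp_len {p σ : ℝ} (hp : 1 < p) (hσ : 0 ≤ σ) (hσ1 : σ < 1)
    {N : (Eu (n + n) → Eu (n + n)) → ℝ≥0∞} (hc : ∀ w : Eu (n + n), N (fun _ => w) ≤ ENNReal.ofReal ‖w‖)
    {C : ℝ} (hI : ∀ (H : Eu (n + n) → ℝ) (V : Eu (n + n) → Eu (n + n)), ContDiff ℝ ∞ H →
      Per H → Continuous V → (∀ x, HasFDerivAt H (innerSL ℝ (Jm (V x))) x) →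
      N V ≤ ENNReal.ofReal C * EE p σ H)
    {χ : ℝ → Eu (n + n) → Eu (n + n)} {K : ℝ → Eu (n + n) → ℝ} (hχ : HP χ K)
    {f : Eu (n + n) → Eu (n + n)} (hf : SG f) (w : Eu (n + n)) (h0 : χ 0 = id) :
    ∃ Φ : ℝ → Eu (n + n) → Eu (n + n), SPath Φ ∧ Φ 0 = f ∧ (∀ x, Φ 1 x = χ 1 (f x) + w) ∧
      len N Φ ≤ ENNReal.ofReal C * cst p σ K + ENNReal.ofReal ‖w‖ := by
  obtain ⟨a, b, ha, hb, a0, a1, b0, b1, da, db, hal, hbr, hF⟩ := steps
  have hsp : SPath (fun t x => χ (b t) (f x)) := ((hχ.time hb).comp (HP.cst hf)).sp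
  have hcw : ContDiff ℝ ∞ (fun t => a t • w) := ha.smul contDiff_const
  have hP : SPath (fun t x => χ (b t) (f x) + a t • w) := upp_shift hsp hcw
  refine ⟨fun t x => χ (b t) (f x) + a t • w, hP, ?_, ?_, ?_⟩
  · funext x
    show χ (b 0) (f x) + a 0 • w = f x
    rw [a0, b0, h0, zero_smul, add_zero]
    rfl
  · intro x
    show χ (b 1) (f x) + a 1 • w = _
    rw [a1, b1, one_smul]
  · have hm := EE_meas (p := p) (σ := σ) hχ.Hs
    have hpt : ∀ t, N (vel (fun t x => χ (b t) (f x) + a t • w) t) ≤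
        ENNReal.ofReal C * (ENNReal.ofReal (deriv b t) * EE p σ (K (b t))) +
          ENNReal.ofReal ‖w‖ * (ENNReal.ofReal (deriv a t) * 1) := by
      intro t
      have hv : vel (fun t x => χ (b t) (f x) + a t • w) t =
          fun y => deriv b t • vel χ (b t) (y - a t • w) + deriv a t • w :=
        funext (upp_vel hχ.sp ha hb w hP t)
      rw [hv]
      rcases le_total t (1 / 2) with ht | ht
      · obtain ⟨e1, e2⟩ := hal t ht
        have e3 : (fun y => deriv b t • vel χ (b t) (y - a t • w) + deriv a t • w) =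
            fun y => deriv b t • vel χ (b t) y := by
          funext y
          rw [e1, e2, zero_smul, sub_zero, add_zero]
        rw [e3]
        have hK : ContDiff ℝ ∞ (K (b t)) := upp_at hχ.Hs (b t)
        have hvc : Continuous fun y => deriv b t • vel χ (b t) y := by
          have h5 : Continuous (vel χ (b t)) :=
            (upp_at (H := fun t x => vel χ t x) (vel_smooth hχ.sp) (b t)).continuous
          exact Continuous.smul (continuous_const (y := deriv b t)) h5
        have h1 := hI (fun x => deriv b t * K (b t) x) (fun y => deriv b t • vel χ (b t) y)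
          (contDiff_const.mul hK) (fun x k => by
            show deriv b t * K (b t) (x + iv k) = deriv b t * K (b t) x
            rw [hχ.Hp (b t) x k])
          hvc
          (fun x => by
            have h2 := (hχ.Hd (b t) x).const_mul (deriv b t)
            rw [upp_Jm_smul, map_smul]
            exact h2)
        rw [EE_smul hp hσ hσ1 hK, abs_of_nonneg (db t)] at h1
        exact h1.trans le_self_add
      · obtain ⟨e1, e2⟩ := hbr t ht
        have e3 : (fun y => deriv b t • vel χ (b t) (y - a t • w) + deriv a t • w) =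
            fun _ => deriv a t • w := by
          funext y
          rw [e2, zero_smul, zero_add]
        rw [e3]
        refine (hc _).trans ?_
        rw [norm_smul, Real.norm_eq_abs, abs_of_nonneg (da t), ENNReal.ofReal_mul (da t), mul_one,
          mul_comm]
        exact le_add_self
    have hda : Measurable (fun t => ENNReal.ofReal ‖w‖ * (ENNReal.ofReal (deriv a t) * 1)) :=
      ((measurable_deriv a).ennreal_ofReal.mul_const _).const_mul _
    have hdb : Measurable (fun t => ENNReal.ofReal (deriv b t) * EE p σ (K (b t))) :=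
      (measurable_deriv b).ennreal_ofReal.mul (hm.comp hb.continuous.measurable)
    have hda' : Measurable (fun t => ENNReal.ofReal (deriv a t) * (1 : ℝ≥0∞)) :=
      (measurable_deriv a).ennreal_ofReal.mul_const _
    have i1 := (hF (fun t => EE p σ (K t)) hm).2
    have i2 := (hF (fun _ => 1) measurable_const).1
    calc len N (fun t x => χ (b t) (f x) + a t • w)
        ≤ ∫⁻ t in Icc (0 : ℝ) 1, (ENNReal.ofReal C * (ENNReal.ofReal (deriv b t) * EE p σ (K (b t))) +
          ENNReal.ofReal ‖w‖ * (ENNReal.ofReal (deriv a t) * 1)) := lintegral_mono (fun t => hpt t)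
      _ = ENNReal.ofReal C * cst p σ K + ENNReal.ofReal ‖w‖ := by
          rw [lintegral_add_right _ hda, lintegral_const_mul _ hdb, lintegral_const_mul _ hda', i1, i2]
          simp [cst]

theorem flux_upp {p σ : ℝ} (hp : 1 < p) (hσ : 0 ≤ σ) (hσ1 : σ < 1)
    {N : (Eu (n + n) → Eu (n + n)) → ℝ≥0∞} (hc : ∀ w : Eu (n + n), N (fun _ => w) ≤ ENNReal.ofReal ‖w‖)
    (hI : ∃ C : ℝ, 0 ≤ C ∧ ∀ (H : Eu (n + n) → ℝ) (V : Eu (n + n) → Eu (n + n)), ContDiff ℝ ∞ H →
      Per H → Continuous V → (∀ x, HasFDerivAt H (innerSL ℝ (Jm (V x))) x) →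
      N V ≤ ENNReal.ofReal C * EE p σ H)
    (hR : ∀ (φ : ℝ → Eu (n + n) → Eu (n + n)) (H : ℝ → Eu (n + n) → ℝ), HP φ H → φ 0 = id →
      rho p σ (φ 1) = 0) {f g : Eu (n + n) → Eu (n + n)} (hf : SG f) (hg : SG g) :
    sdist N f g ≤
      ⨅ k : Fin (n + n) → ℤ, ENNReal.ofReal ‖(∫ x in cube (n + n), (g x - f x)) + iv k‖ := by
  refine le_iInf fun k => ?_
  obtain ⟨C, hC, hI⟩ := hI
  obtain ⟨k', hk', hkf, hfk, hgk, -⟩ := right_div hf hg
  have hh : SG (fun x => g (k' x) + iv k) := sg_comp (sg_trans (iv k)) hgk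
  have hd := upp_dsp hf hg hk' hfk k
  set w : Eu (n + n) := (∫ x in cube (n + n), (g x - f x)) + iv k with hw
  obtain ⟨φ, hφ, h0, h1⟩ := hh
  obtain ⟨hψ, ψ0, ψm, -⟩ := frame hφ h0
  obtain ⟨H, hH, -⟩ := exists_ham hψ ψ0 ψm 0
  have hHP : HP (fun t => nrm (φ t)) H := ⟨hψ, hH.Hs, hH.Hp, hH.Hd⟩
  have hr := hR _ _ hHP ψ0
  have he : ∀ x, nrm (φ 1) x = g (k' x) + iv k - w := by
    intro x
    show φ 1 x - dsp (φ 1) = _
    rw [h1, hd]
  refine ENNReal.le_of_forall_pos_le_add fun δ hδ _ => ?_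
  have hε : (0 : ℝ≥0∞) < ENNReal.ofReal (δ / (C + 1)) := by
    rw [ENNReal.ofReal_pos]
    positivity
  have hlt : rho p σ (nrm (φ 1)) < ENNReal.ofReal (δ / (C + 1)) := by
    have : rho p σ ((fun t => nrm (φ t)) 1) = 0 := hr
    rw [show rho p σ (nrm (φ 1)) = 0 from this]
    exact hε
  unfold rho at hlt
  obtain ⟨χ, hlt⟩ := iInf_lt_iff.1 hlt
  obtain ⟨K, hlt⟩ := iInf_lt_iff.1 hlt
  obtain ⟨⟨hχ, χ0, χ1⟩, hlt⟩ := iInf_lt_iff.1 hlt
  obtain ⟨Φ, hΦ, Φ0, Φ1, hL⟩ := upp_len hp hσ hσ1 hc hI hχ hf w χ0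
  have hle : sdist N f g ≤ len N Φ := by
    refine iInf_le_of_le Φ (iInf_le_of_le ⟨hΦ, Φ0, fun x => x + iv k, ⟨k, rfl⟩, ?_⟩ le_rfl)
    funext x
    show Φ 1 x = g x + iv k
    rw [Φ1, χ1, he, hkf]
    abel
  refine hle.trans (hL.trans ?_)
  rw [add_comm]
  refine add_le_add le_rfl ?_
  calc ENNReal.ofReal C * cst p σ K ≤ ENNReal.ofReal C * ENNReal.ofReal (δ / (C + 1)) := by gcongr
    _ = ENNReal.ofReal (C * (δ / (C + 1))) := (ENNReal.ofReal_mul hC).symm
    _ ≤ ENNReal.ofReal δ := by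
        apply ENNReal.ofReal_le_ofReal
        rw [mul_div_assoc', div_le_iff₀ (by positivity)]
        nlinarith [δ.2]
    _ = δ := ENNReal.ofReal_coe_nnreal

end

end SVT
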