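import Pool.Agent.SVT.Hp

/-! # Project SVT, SVT-11: a Hamiltonian diffeomorphism which is a translation on a small ball -/

set_option autoImplicit false

open MeasureTheory Set Pool.Agent.H68.VD TN
open scoped ENNReal ContDiff

namespace SVT

noncomputable section

variable {n : ℕ}

/-! ### one variable -/

/-- the cut-off function: one near `|t| ≤ 1/15`, zero at distance at least `1/9` from the integers -/
private def bb (t : ℝ) : ℝ :=
  Real.smoothTransition ((Real.cos (t * (2 * Real.pi)) - Real.cos (2 * Real.pi / 9)) /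
    (Real.cos (2 * Real.pi / 15) - Real.cos (2 * Real.pi / 9)))

private theorem cc_pos : 0 < Real.cos (2 * Real.pi / 15) - Real.cos (2 * Real.pi / 9) := by
  have hπ := Real.pi_pos
  have h := Real.cos_lt_cos_of_nonneg_of_le_pi (x := 2 * Real.pi / 15) (y := 2 * Real.pi / 9)
    (by positivity) (by linarith) (by linarith)
  linarith

private theorem bb_smooth : ContDiff ℝ ∞ bb := by
  unfold bb
  exact Real.smoothTransition.contDiff.comp
    (((Real.contDiff_cos.comp (contDiff_id.mul contDiff_const)).sub contDiff_const).div_const _)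

private theorem bb_per (t : ℝ) (k : ℤ) : bb (t + k) = bb t := by
  unfold bb
  rw [add_mul, Real.cos_add_int_mul_two_pi]

private theorem bb_one {t : ℝ} (ht : |t| ≤ 1 / 15) : bb t = 1 := by
  unfold bb
  apply Real.smoothTransition.one_of_one_le
  rw [one_le_div cc_pos]
  have hπ := Real.pi_pos
  have h : Real.cos (2 * Real.pi / 15) ≤ Real.cos (t * (2 * Real.pi)) := by
    rw [← Real.cos_abs (t * (2 * Real.pi))]
    apply Real.cos_le_cos_of_nonneg_of_le_pi (abs_nonneg _) (by linarith)
    rw [abs_mul, abs_of_pos (by positivity : (0 : ℝ) < 2 * Real.pi)]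
    nlinarith
  linarith

private theorem bb_zero {t : ℝ} (h1 : 1 / 9 ≤ |t|) (h2 : |t| ≤ 1 / 2) : bb t = 0 := by
  unfold bb
  apply Real.smoothTransition.zero_of_nonpos
  apply div_nonpos_of_nonpos_of_nonneg _ cc_pos.le
  have hπ := Real.pi_pos
  have h : Real.cos (t * (2 * Real.pi)) ≤ Real.cos (2 * Real.pi / 9) := by
    rw [← Real.cos_abs (t * (2 * Real.pi))]
    rw [abs_mul, abs_of_pos (by positivity : (0 : ℝ) < 2 * Real.pi)]
    apply Real.cos_le_cos_of_nonneg_of_le_pi (by positivity) (by nlinarith) (by nlinarith)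
  linarith

/-- smooth truncation of the identity with values in `[-3/4, 3/4]` -/
private def tr (y : ℝ) : ℝ := y * Real.smoothTransition (2 - 16 * y ^ 2 / 5)

private theorem tr_smooth : ContDiff ℝ ∞ tr := by
  unfold tr
  exact contDiff_id.mul (Real.smoothTransition.contDiff.comp
    (contDiff_const.sub ((contDiff_const.mul (contDiff_id.pow 2)).div_const _)))

private theorem tr_eq {y : ℝ} (hy : |y| ≤ 1 / 2) : tr y = y := by
  unfold tr
  have h := abs_le.1 hy
  rw [Real.smoothTransition.one_of_one_le, mul_one]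
  nlinarith

private theorem tr_lt (y : ℝ) : |tr y| < 1 := by
  unfold tr
  by_cases h : 5 / 8 ≤ y ^ 2
  · rw [Real.smoothTransition.zero_of_nonpos (by linarith), mul_zero, abs_zero]
    exact one_pos
  · push Not at h
    have h1 : |y| < 1 := by
      rw [← sq_lt_one_iff_abs_lt_one]; linarith
    rw [abs_mul, abs_of_nonneg (Real.smoothTransition.nonneg _)]
    calc |y| * Real.smoothTransition (2 - 16 * y ^ 2 / 5) ≤ |y| * 1 :=
          mul_le_mul_of_nonneg_left (Real.smoothTransition.le_one _) (abs_nonneg _)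
      _ < 1 := by rw [mul_one]; exact h1

/-- the smooth periodic function with `a t = t` near zero -/
private def aa (t : ℝ) : ℝ := Real.arcsin (tr (Real.sin (t * (2 * Real.pi)))) / (2 * Real.pi)

private theorem aa_smooth : ContDiff ℝ ∞ aa := by
  unfold aa
  apply ContDiff.div_const
  have h1 : ContDiff ℝ ∞ (fun t : ℝ => tr (Real.sin (t * (2 * Real.pi)))) :=
    tr_smooth.comp (Real.contDiff_sin.comp (contDiff_id.mul contDiff_const))
  rw [contDiff_iff_contDiffAt]
  intro t
  have h2 := abs_lt.1 (tr_lt (Real.sin (t * (2 * Real.pi))))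
  exact ContDiffAt.comp (g := Real.arcsin) t
    (Real.contDiffAt_arcsin (ne_of_gt h2.1) (ne_of_lt h2.2)) h1.contDiffAt

private theorem aa_per (t : ℝ) (k : ℤ) : aa (t + k) = aa t := by
  unfold aa
  rw [add_mul, Real.sin_add_int_mul_two_pi]

private theorem aa_eq {t : ℝ} (ht : |t| ≤ 1 / 15) : aa t = t := by
  unfold aa
  have hπ := Real.pi_pos
  have hπ3 := Real.pi_le_four
  have hab := abs_le.1 ht
  have h1 : |Real.sin (t * (2 * Real.pi))| ≤ 1 / 2 := by
    have h2 : |Real.sin (t * (2 * Real.pi))| ≤ |t * (2 * Real.pi)| := Real.abs_sin_le_abs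
    have h3 : |t * (2 * Real.pi)| ≤ 1 / 2 := by
      rw [abs_mul, abs_of_pos (by positivity : (0 : ℝ) < 2 * Real.pi)]
      have := Real.pi_lt_d2
      nlinarith [abs_nonneg t]
    linarith
  rw [tr_eq h1, Real.arcsin_sin]
  · field_simp
  · nlinarith
  · nlinarith

/-! ### the Hamiltonian -/

/-- the Hamiltonian -/
private def Gv (w : Eu (n + n)) (x : Eu (n + n)) : ℝ :=
  (∏ j, bb (x j)) * ∑ j, w j * aa (x j)

private theorem Gv_smooth (w : Eu (n + n)) : ContDiff ℝ ∞ (Gv w) := by
  have hc : ∀ j : Fin (n + n), ContDiff ℝ ∞ (fun x : Eu (n + n) => x j) := fun j =>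
    (EuclideanSpace.proj (𝕜 := ℝ) j).contDiff
  unfold Gv
  apply ContDiff.mul
  · exact contDiff_prod fun j _ => bb_smooth.comp (hc j)
  · exact ContDiff.sum fun j _ => contDiff_const.mul (aa_smooth.comp (hc j))

private theorem Gv_per (w : Eu (n + n)) : Per (Gv w) := by
  intro x k
  unfold Gv
  have h : ∀ j, (x + iv k) j = x j + (k j : ℝ) := fun j => by simp [iv]
  simp only [h, bb_per, aa_per]

private theorem Gv_supp (w : Eu (n + n)) {x : Eu (n + n)} (hx : x ∉ PB (1 / 9)) : Gv w x = 0 := by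
  have h : ∃ j, ¬ |(x + iv (fun j => -round (x j))) j| < 1 / 9 := by
    by_contra hc
    push Not at hc
    exact hx ⟨_, hc⟩
  obtain ⟨j, hj⟩ := h
  push Not at hj
  have h1 : (x + iv (fun j => -round (x j))) j = x j + ((-round (x j) : ℤ) : ℝ) := by simp [iv]
  rw [h1] at hj
  have h2 : |x j + ((-round (x j) : ℤ) : ℝ)| ≤ 1 / 2 := by
    have := abs_sub_round (x j)
    rw [Int.cast_neg, ← sub_eq_add_neg]
    exact this
  have h3 : bb (x j) = 0 := by
    rw [← bb_per (x j) (-round (x j))]
    exact bb_zero hj h2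
  unfold Gv
  rw [Finset.prod_eq_zero (Finset.mem_univ j) h3, zero_mul]

private theorem Gv_eq (w : Eu (n + n)) {x : Eu (n + n)} (hx : ‖x‖ < 1 / 15) :
    Gv w x = innerSL ℝ w x := by
  have h : ∀ j, |x j| ≤ 1 / 15 := fun j => by
    have := PiLp.norm_apply_le x j
    rw [Real.norm_eq_abs] at this
    linarith
  unfold Gv
  rw [Finset.prod_congr rfl (fun j _ => bb_one (h j)), Finset.prod_const_one, one_mul,
    Finset.sum_congr rfl (fun j _ => by rw [aa_eq (h j)])]
  rw [innerSL_apply_apply, PiLp.inner_apply]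
  exact Finset.sum_congr rfl fun j _ => by simp [mul_comm]

theorem trl : ∃ r₀ > (0 : ℝ), r₀ < 1 / 9 ∧ ∀ v : Eu (n + n), ‖v‖ ≤ r₀ →
    ∃ (g : ℝ → Eu (n + n) → Eu (n + n)) (G : ℝ → Eu (n + n) → ℝ), HP g G ∧ g 0 = id ∧
      (∀ t x, x ∉ PB (1 / 9) → G t x = 0) ∧ ∀ x, ‖x‖ ≤ r₀ → g 1 x = x + v := by
  refine ⟨1 / 50, by norm_num, by norm_num, fun v hv => ?_⟩
  have hs : ContDiff ℝ ∞ (fun z : ℝ × Eu (n + n) => Gv (Jm v) z.2) :=
    (Gv_smooth (Jm v)).comp contDiff_snd
  obtain ⟨g, hg, hg0⟩ := exists_hp (H := fun _ => Gv (Jm v)) hs (fun _ => Gv_per _)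
  refine ⟨g, fun _ => Gv (Jm v), hg, hg0, fun _ x hx => Gv_supp _ hx, fun x hx => ?_⟩
  have h := HP.orbit hg (T := 2) (γ := fun t => x + t • v) (γ' := fun _ => v) (x := x)
    (by rw [hg0]; simp)
    (fun t _ => by
      have h1 := ((hasDerivAt_id t).smul_const v).const_add x
      simpa using h1)
    (fun t ht => by
      have hn : ‖x + t • v‖ < 1 / 15 := by
        have h1 : ‖t • v‖ ≤ 2 * (1 / 50) := by
          rw [norm_smul, Real.norm_eq_abs]
          exact mul_le_mul (abs_lt.2 ht).le hv (norm_nonneg _) (by norm_num)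
        have h2 := norm_add_le x (t • v)
        linarith
      have h3 : HasFDerivAt (fun y => innerSL ℝ (Jm v) y) (innerSL ℝ (Jm v)) (x + t • v) :=
        (innerSL ℝ (Jm v)).hasFDerivAt
      refine h3.congr_of_eventuallyEq ?_
      have h4 : ∀ᶠ y in nhds (x + t • v), ‖y‖ < 1 / 15 :=
        (continuous_norm.isOpen_preimage _ isOpen_Iio).mem_nhds hn
      filter_upwards [h4] with y hy
      exact Gv_eq _ hy)
    1 (by constructor <;> norm_num)
  rw [h, one_smul]

end

end SVT
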