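import Pool.Agent.SVT.Sg
import Pool.Agent.SVT.Hp
import Pool.Agent.SVT.Rho
import Pool.Agent.SVT.Com
import Pool.Agent.SVT.Trl

/-!
# Project SVT (MP_b0bf68_gt), SVT-12: Hamiltonians of families of cost zero
-/

set_option autoImplicit false

open MeasureTheory Set Pool.Agent.H68.VD TN
open scoped ENNReal ContDiff

namespace SVT

noncomputable section

variable {n : ℕ}

private theorem zf_inv_id : Function.invFun (id : Eu (n + n) → Eu (n + n)) = id := by
  funext x
  exact Function.leftInverse_invFun Function.injective_id x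

private theorem zf_rho_comp {p σ : ℝ} (hp : 1 < p) (hσ : 0 ≤ σ) (hσ1 : σ < 1)
    {f g : Eu (n + n) → Eu (n + n)} (hf : Function.Bijective f) (hg : Function.Bijective g)
    (h : rho p σ f = 0) (h' : rho p σ g = 0) : rho p σ (fun x => f (g x)) = 0 := by
  have key := rho_mul hp hσ hσ1 (Equiv.ofBijective f hf) (Equiv.ofBijective g hg)
  have e : (⇑(Equiv.ofBijective f hf * Equiv.ofBijective g hg) : Eu (n + n) → Eu (n + n)) =
      fun x => f (g x) := rfl
  have e1 : (⇑(Equiv.ofBijective f hf) : Eu (n + n) → Eu (n + n)) = f := rfl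
  have e2 : (⇑(Equiv.ofBijective g hg) : Eu (n + n) → Eu (n + n)) = g := rfl
  rw [e, e1, e2, h, h', add_zero] at key
  exact le_antisymm key zero_le

theorem zf_add {p σ : ℝ} (hp : 1 < p) (hσ : 0 ≤ σ) (hσ1 : σ < 1) {G G' : Eu (n + n) → ℝ}
    (h : ZF p σ G) (h' : ZF p σ G') : ZF p σ (fun x => G x + G' x) := by
  obtain ⟨P, K, hP, P0, hK, hr⟩ := h
  obtain ⟨P', K', hP', P0', hK', hr'⟩ := h'
  refine ⟨fun t x => P t (P' t x), fun t x => K t x + K' t (Function.invFun (P t) x),
    hP.comp hP', ?_, ?_, ?_⟩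
  · funext x
    simp only [P0, P0', id]
  · intro x
    simp only [P0, zf_inv_id, id, hK, hK']
  · intro θ
    exact zf_rho_comp hp hσ hσ1 (hP.sp.path.bij θ) (hP'.sp.path.bij θ) (hr θ) (hr' θ)

private theorem zf_zero {p σ : ℝ} (hp : 1 < p) (hσ : 0 ≤ σ) (hσ1 : σ < 1) :
    ZF (n := n) p σ (fun _ => 0) :=
  ⟨fun _ => id, fun _ _ => 0, HP.cst sg_id, rfl, fun _ => rfl, fun _ => rho_id hp hσ hσ1⟩

/-- invariance under translations -/
private theorem zf_trans {p σ : ℝ} (hp : 1 < p) (hσ : 0 ≤ σ) (hσ1 : σ < 1) {G : Eu (n + n) → ℝ}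
    (h : ZF p σ G) (w : Eu (n + n)) : ZF p σ (fun x => G (x - w)) := by
  obtain ⟨P, K, hP, P0, hK, hr⟩ := h
  have hi : ∀ x, Function.invFun (fun x : Eu (n + n) => x + w) x = x - w := by
    intro x
    have h1 := Function.leftInverse_invFun (add_left_injective w) (x - w)
    simpa using h1
  refine ⟨_, _, hP.left (sg_trans w), ?_, ?_, ?_⟩
  · funext x
    simp only [P0, hi, id, sub_add_cancel]
  · intro x
    simp only [hi, hK]
  · intro θ
    obtain ⟨C, _, hC⟩ := rho_conj hp hσ hσ1 (Equiv.addRight w) (sg_trans w)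
    have key := hC (Equiv.ofBijective (P θ) (hP.sp.path.bij θ))
    have e : (⇑(Equiv.addRight w * Equiv.ofBijective (P θ) (hP.sp.path.bij θ) *
        (Equiv.addRight w)⁻¹) : Eu (n + n) → Eu (n + n)) =
        fun x => P θ (Function.invFun (fun x : Eu (n + n) => x + w) x) + w := by
      funext x
      simp only [hi]
      change P θ ((Equiv.addRight w).symm x) + w = _
      simp [Equiv.addRight_symm, sub_eq_add_neg]
    have e1 : (⇑(Equiv.ofBijective (P θ) (hP.sp.path.bij θ)) : Eu (n + n) → Eu (n + n)) = P θ := rfl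
    rw [e, e1, hr θ, mul_zero] at key
    exact le_antisymm key zero_le

private theorem zf_off {r : ℝ} (hr : r < 1 / 9) {β : Eu (n + n) → ℝ} (hβ : Bmp r β)
    {x : Eu (n + n)} (hx : x ∉ PB (n := n) (1 / 9)) : β x = 0 := by
  refine hβ.supp x fun k => ?_
  by_contra hk
  refine hx ⟨k, fun j => ?_⟩
  have h1 := EuclideanSpace.norm_eq (x + iv k)
  have h2 : |(x + iv k) j| ≤ ‖x + iv k‖ := by
    have := PiLp.norm_apply_le (x + iv k) j
    rwa [Real.norm_eq_abs] at this
  linarith [not_lt.1 hk]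

/-- a small translation -/
private theorem zf_small {p σ : ℝ} (hp : 1 < p) (hσ : 0 ≤ σ) (hσ1 : σ < 1) (hσn : σ < n / p)
    {r : ℝ} (hr : r < 1 / 9) {β : Eu (n + n) → ℝ} (hβ : Bmp r β) {v : Eu (n + n)}
    {g : ℝ → Eu (n + n) → Eu (n + n)} {G : ℝ → Eu (n + n) → ℝ} (hg : HP g G) (g0 : g 0 = id)
    (hG : ∀ t x, x ∉ PB (1 / 9) → G t x = 0) (hv : ∀ x, ‖x‖ ≤ r → g 1 x = x + v) (c : ℝ) :
    ZF p σ (fun x => c * (β (x - v) - β x)) := by
  obtain ⟨b, hb, b0⟩ := exists_hp (n := n) (H := fun _ x => β x)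
    (hβ.smooth.comp contDiff_snd) (fun _ => hβ.per)
  have hf : SG (g 1) := hg.sg g0 1
  have hfi := sg_bij hf
  have hl : ∀ x, Function.invFun (g 1) (g 1 x) = x := Function.leftInverse_invFun hfi.1
  have hr' : ∀ x, g 1 (Function.invFun (g 1) x) = x := Function.rightInverse_invFun hfi.2
  have hτ : ContDiff ℝ ∞ (fun θ : ℝ => c * θ) := contDiff_const.mul contDiff_id
  have hbt := hb.time hτ
  have h1 := hbt.left hf
  have h2 := hbt.inv
  have h3 := h1.comp h2
  -- the function at time zero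
  have hβv : ∀ x, β (Function.invFun (g 1) x) = β (x - v) := by
    intro x
    by_cases hx : ∃ k : Fin (n + n) → ℤ, ‖x - v + iv k‖ ≤ r
    · obtain ⟨k, hk⟩ := hx
      have e := hv _ hk
      rw [sg_equi hf] at e
      have e' : g 1 (x - v) = x := by
        have := add_right_cancel (b := iv k) (a := g 1 (x - v)) (c := x) (by rw [e]; abel)
        exact this
      have : Function.invFun (g 1) x = x - v := by
        conv_lhs => rw [← e']
        exact hl _
      rw [this]
    · have h0 : β (x - v) = 0 := hβ.supp _ fun k => by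
        by_contra hk
        exact hx ⟨k, not_lt.1 hk⟩
      rw [h0]
      refine hβ.supp _ fun k => ?_
      by_contra hk
      have e := hv _ (not_lt.1 hk)
      rw [sg_equi hf, hr'] at e
      have e' : x - v = Function.invFun (g 1) x := by
        have : x = Function.invFun (g 1) x + v :=
          add_right_cancel (b := iv k) (by rw [e]; abel)
        exact sub_eq_iff_eq_add.2 this
      exact hx ⟨k, by rw [e']; exact not_lt.1 hk⟩
  refine ⟨_, _, h3, ?_, ?_, ?_⟩
  · funext x
    simp only [mul_zero, b0, zf_inv_id, id, hr']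
  · intro x
    have ed : deriv (fun θ : ℝ => c * θ) 0 = c := by
      simp
    simp only [mul_zero, b0, id, ed, hβv]
    have ei : (fun x => g 1 (Function.invFun (g 1) x)) = id := by
      funext x
      exact hr' x
    rw [ei, zf_inv_id]
    simp only [id]
    ring
  · intro θ
    have hτ' : ContDiff ℝ ∞ (fun t : ℝ => c * θ * t) := contDiff_const.mul contDiff_id
    have hh := hb.time hτ'
    have key := comm hp hσ hσ1 hσn hg g0 hG hh (by simp only [mul_zero]; exact b0)
      (fun t x hx => by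
        change _ * β x = 0
        rw [zf_off hr hβ hx, mul_zero])
    simp only [mul_one] at key
    exact key

theorem zf_all {p σ : ℝ} (hp : 1 < p) (hσ : 0 ≤ σ) (hσ1 : σ < 1) (hσn : σ < n / p) :
    ∃ r₀ > (0 : ℝ), ∀ β : Eu (n + n) → ℝ, Bmp r₀ β → ∀ (z : Eu (n + n)) (c : ℝ),
      ZF p σ (fun x => c * (β (x - z) - β x)) := by
  obtain ⟨r, hr, hr9, ht⟩ := trl (n := n)
  refine ⟨r, hr, fun β hβ z c => ?_⟩
  have small : ∀ v : Eu (n + n), ‖v‖ ≤ r → ZF p σ (fun x => c * (β (x - v) - β x)) := by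
    intro v hv
    obtain ⟨g, G, hg, g0, hG, hgv⟩ := ht v hv
    exact zf_small hp hσ hσ1 hσn hr9 hβ hg g0 hG hgv c
  obtain ⟨m, hm⟩ := exists_nat_gt (‖z‖ / r)
  have hm0 : 0 < (m : ℝ) := lt_of_le_of_lt (by positivity) hm
  obtain ⟨u, hu⟩ : ∃ u, u = (m : ℝ)⁻¹ • z := ⟨_, rfl⟩
  have hur : ‖u‖ ≤ r := by
    rw [hu, norm_smul, norm_inv, Real.norm_of_nonneg hm0.le, inv_mul_le_iff₀ hm0]
    rw [div_lt_iff₀ hr] at hm
    exact hm.le
  have ind : ∀ j : ℕ, ZF p σ (fun x => c * (β (x - (j : ℝ) • u) - β x)) := by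
    intro j
    induction j with
    | zero =>
      have := zf_zero (n := n) hp hσ hσ1
      convert this using 2
      simp
    | succ j ih =>
      have := zf_add hp hσ hσ1 ih (zf_trans hp hσ hσ1 (small u hur) ((j : ℝ) • u))
      convert this using 2 with x
      have e : x - ((j + 1 : ℕ) : ℝ) • u = x - (j : ℝ) • u - u := by
        push_cast
        rw [add_smul, one_smul]
        abel
      rw [e]
      ring
  have := ind m
  have e : (m : ℝ) • u = z := by
    rw [hu, smul_smul, mul_inv_cancel₀ hm0.ne', one_smul]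
  rwa [e] at this

end

end SVT
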