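import Pool.Agent.SVT.Com
import Pool.Agent.SVT.Zf
import Pool.Agent.SVT.Den
import Pool.Agent.SVT.Loc
import Pool.Agent.SVT.Glo
import Pool.Agent.SVT.IntW
import Pool.Agent.SVT.IntH
import Pool.Agent.SVT.Low
import Pool.Agent.SVT.Upp
import Pool.Agent.SVT.Diam
import Pool.Agent.TN.Main

/-! # Project SVT: assembly (MP_b0bf68_gt) -/

set_option autoImplicit false

open MeasureTheory Set Pool.Agent.H68.VD TN
open scoped ENNReal ContDiff

namespace SVT

noncomputable section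

variable {n : ℕ}

/-- Below the order `min 0 (-1 + n/p)` the geodesic distance is the flux distance. -/
theorem flux (hn : 0 < n) (p : ℝ) (N : ℝ → (Eu (n + n) → Eu (n + n)) → ℝ≥0∞)
    (hN : (p = 2 ∧ N = fun s => hsNorm s) ∨ (1 < p ∧ N = fun s => wspP s p)) {s : ℝ}
    (hs : s < min 0 (-1 + n / p)) {f g : Eu (n + n) → Eu (n + n)} (hf : SG f) (hg : SG g) :
    sdist (N s) f g =
      ⨅ k : Fin (n + n) → ℤ, ENNReal.ofReal ‖(∫ x in cube (n + n), (g x - f x)) + iv k‖ := by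
  have hp : 1 < p := by
    rcases hN with ⟨rfl, -⟩ | ⟨h, -⟩
    · norm_num
    · exact h
  have hs0 : s < 0 := lt_of_lt_of_le hs (min_le_left _ _)
  have hs1 : s < -1 + n / p := lt_of_lt_of_le hs (min_le_right _ _)
  have hnp : (0 : ℝ) < n / p := by
    have : (0 : ℝ) < n := by exact_mod_cast hn
    have : 0 < p := by linarith
    positivity
  set σ : ℝ := max (s + 1) 0 with hσdef
  have hσ : 0 ≤ σ := le_max_right _ _
  have hσ1 : σ < 1 := max_lt (by linarith) one_pos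
  have hσn : σ < n / p := max_lt (by linarith) hnp
  have hR : ∀ (φ : ℝ → Eu (n + n) → Eu (n + n)) (H : ℝ → Eu (n + n) → ℝ), HP φ H → φ 0 = id →
      rho p σ (φ 1) = 0 := by
    intro φ H h h0
    refine glo hp hσ hσ1 h h0 fun t₀ ε hε => loc hp hσ hσ1 ?_ h h0 t₀ hε
    intro G hG hGp hGm δ hδ
    obtain ⟨r₀, hr₀, hz⟩ := zf_all (n := n) hp hσ hσ1 hσn
    obtain ⟨β, N', z, c, hβ, hd⟩ := dens hr₀ hG hGp hGm hδ
    refine ⟨fun x => ∑ j, c j * (β (x - z j) - β x), ?_, hd⟩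
    have key : ∀ S : Finset (Fin N'), ZF p σ (fun x => ∑ j ∈ S, c j * (β (x - z j) - β x)) := by
      intro S
      classical
      induction S using Finset.induction_on with
      | empty =>
        have := hz β hβ 0 0
        simpa using this
      | insert a S ha ih =>
        have h1 := zf_add hp hσ hσ1 (hz β hβ (z a) (c a)) ih
        simpa [Finset.sum_insert ha] using h1
    exact key Finset.univ
  refine le_antisymm ?_ ?_
  · rcases hN with ⟨rfl, rfl⟩ | ⟨hp, rfl⟩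
    · exact flux_upp hp hσ hσ1 (const_hs s) (interp_hs hs0) hR hf hg
    · exact flux_upp hp hσ hσ1 (const_w hs0 hp) (interp_w hp hs0) hR hf hg
  · rcases hN with ⟨rfl, rfl⟩ | ⟨hp, rfl⟩
    · exact flux_low (fun u hu hup => mean_hs s hu hup) hf hg
    · exact flux_low (fun u hu hup => mean_w hs0 hp hu hup) hf hg

/-- The torus of dimension `2n`: all orders except the critical one. -/
theorem classification (hn : 0 < n) (p : ℝ) (N : ℝ → (Eu (n + n) → Eu (n + n)) → ℝ≥0∞)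
    (hN : (p = 2 ∧ N = fun s => hsNorm s) ∨ (1 < p ∧ N = fun s => wspP s p)) :
    (∀ s, s < 0 → s < -1 + n / p → (∀ f g, SG f → SG g → sdist (N s) f g =
      ⨅ k : Fin (n + n) → ℤ, ENNReal.ofReal ‖(∫ x in cube (n + n), (g x - f x)) + iv k‖) ∧
      sdiam (N s) = ENNReal.ofReal (Real.sqrt (2 * n) / 2)) ∧
    (∀ s, (0 ≤ s ∨ -1 + n / p < s) → (∀ f g, SG f → SG g →
      (sdist (N s) f g = 0 ↔ ∃ γ ∈ lat (n + n), g = γ ∘ f)) ∧ sdiam (N s) = ⊤) ∧
    (∀ s, 0 < sdiam (N s)) ∧ ¬ Transition (fun s => sdiam (N s)) := by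
  obtain ⟨h1, h2, h3⟩ := TN.main hn hN
  refine ⟨fun s h0 hs => ⟨fun f g hf hg => flux hn p N hN (lt_min h0 hs) hf hg, ?_⟩, h1, h2, h3⟩
  exact diam_eq fun f g hf hg => flux hn p N hN (lt_min h0 hs) hf hg

end

end SVT
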